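import Pool.Agent.Helper97.DV.Fr

/-!
# Project DV (MP_973bc8_pr): correlation and nonzero crossings

If no path of nonzero heights joins `A` and `B`, flipping the signs of the nonzero clusters that meet `A`
changes the sign of the heights on `A` and fixes those on `B`.  So a positive covariance forces a
nonzero crossing with positive probability.
-/

open Relation RP4 Finset

namespace DV

/-- the sites where the height is not zero -/
def nz (g : V → ℤ) : Set V := {v | g v ≠ 0}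

open Classical in
/-- change of sign on the set `W` -/
noncomputable def flp (W : Set V) (g : V → ℤ) : V → ℤ := fun v => if v ∈ W then -g v else g v

lemma nz_flp (W : Set V) (g : V → ℤ) : nz (flp W g) = nz g := by
  ext v
  unfold nz flp
  simp only [Set.mem_ofPred_eq]
  split_ifs <;> simp

lemma flp_flp (W : Set V) (g : V → ℤ) : flp W (flp W g) = g := by
  funext v
  unfold flp
  split_ifs <;> simp

lemma abs_flp (W : Set V) (g : V → ℤ) (v : V) : |flp W g v| = |g v| := by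
  unfold flp
  split_ifs <;> simp

/-- the set `W` is a union of clusters of nonzero sites of `g` -/
def NzU (g : V → ℤ) (W : Set V) : Prop := ∀ u ∈ W, ∀ v, Adj u v → g v ≠ 0 → v ∈ W

/-- the finite set of functions is closed under changes of signs on unions of nonzero clusters -/
def SgnInv (S : Finset (V → ℤ)) : Prop := ∀ g ∈ S, ∀ W : Set V, W ⊆ nz g → NzU g W → flp W g ∈ S

lemma mem_Zs_iff {D : Finset V} {p : ℤ} {Z : Finset V} {g : V → ℤ} :
    g ∈ Zs D p Z ↔ (zeroSet D p Z).Finite ∧ g ∈ zeroSet D p Z := by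
  unfold Zs
  split_ifs with h
  · simp [h]
  · simp [h]

lemma flp_isHom {D : Finset V} {p : ℤ} {g : V → ℤ} (h : IsHom D p g) {W : Set V}
    (hW' : NzU g W) : IsHom D p (flp W g) := by
  classical
  refine ⟨fun v hv => ?_, fun v hv => ?_, fun u hu v hv huv => ?_⟩
  · unfold flp
    rw [h.off v hv]
    simp
  · have h1 := h.par v hv
    unfold flp
    split_ifs
    · have h2 : -g v - RP4.par v - p = (g v - RP4.par v - p) - 2 * g v := by ring
      rw [h2]
      exact h1.sub (even_two_mul _)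
    · exact h1
  · have h1 := h.step u hu v hv huv
    unfold flp
    by_cases hu' : u ∈ W <;> by_cases hv' : v ∈ W
    · rw [if_pos hu', if_pos hv']
      rw [neg_sub_neg, abs_sub_comm]
      exact h1
    · rw [if_pos hu', if_neg hv']
      have h2 : g v = 0 := by
        by_contra h3
        exact hv' (hW' u hu' v huv h3)
      rw [h2] at h1 ⊢
      rw [sub_zero] at h1 ⊢
      rw [abs_neg]
      exact h1
    · rw [if_neg hu', if_pos hv']
      have h2 : g u = 0 := by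
        by_contra h3
        exact hu' (hW' v hv' u (adj_symm huv) h3)
      rw [h2] at h1 ⊢
      rw [zero_sub] at h1 ⊢
      rw [neg_neg, ← abs_neg]
      exact h1
    · rw [if_neg hu', if_neg hv']
      exact h1

lemma sgnInv_Zs (D : Finset V) (p : ℤ) (Z : Finset V) : SgnInv (Zs D p Z) := by
  intro g hg W _ hW'
  rw [mem_Zs_iff] at hg ⊢
  obtain ⟨h1, h2, h3⟩ := hg
  refine ⟨h1, flp_isHom h2 hW', fun v hv => ?_⟩
  unfold flp
  rw [h3 v hv]
  simp

/-- sign change of the nonzero clusters that meet `A` -/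
noncomputable def flA (A : Set V) (g : V → ℤ) : V → ℤ := flp (clus (nz g) A) g

lemma flA_flA (A : Set V) (g : V → ℤ) : flA A (flA A g) = g := by
  unfold flA
  rw [nz_flp, flp_flp]

lemma nz_flA (A : Set V) (g : V → ℤ) : nz (flA A g) = nz g := nz_flp _ _

lemma abs_flA (A : Set V) (g : V → ℤ) (v : V) : |flA A g v| = |g v| := abs_flp _ _ _

lemma flA_mem {S : Finset (V → ℤ)} (hS : SgnInv S) (A : Set V) {g : V → ℤ} (hg : g ∈ S) :
    flA A g ∈ S :=
  hS g hg _ (clus_sub _ _) fun _ hu _ huv hv => clus_step hu huv hv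

lemma sum_flA {S : Finset (V → ℤ)} (hS : SgnInv S) (A : Set V) (F : (V → ℤ) → ℝ) :
    ∑ g ∈ S, F (flA A g) = ∑ g ∈ S, F g :=
  Finset.sum_nbij' (flA A) (flA A) (fun _ h => flA_mem hS A h) (fun _ h => flA_mem hS A h)
    (fun g _ => flA_flA A g) (fun g _ => flA_flA A g) (fun _ _ => rfl)

/-- heights on `A` change sign -/
lemma flA_on {A : Set V} {g : V → ℤ} {v : V} (hv : v ∈ A) : flA A g v = -g v := by
  unfold flA flp
  by_cases h : g v = 0
  · rw [h]
    simp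
  · rw [if_pos (sub_clus hv h)]

/-- the set `A` is joined to `B` by nonzero sites -/
def JnNz (A B : Set V) (g : V → ℤ) : Prop := ∃ u ∈ A, ∃ v ∈ B, Con (nz g) u v

lemma jnNz_flA {A B C : Set V} {g : V → ℤ} : JnNz B C (flA A g) ↔ JnNz B C g := by
  unfold JnNz
  rw [nz_flA]

/-- heights on `B` do not change if `B` is not joined to `A` -/
lemma flA_off {A B : Set V} {g : V → ℤ} (h : ¬ JnNz A B g) {v : V} (hv : v ∈ B) :
    flA A g v = g v := by
  unfold flA flp
  rw [if_neg]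
  rintro ⟨u, hu, h'⟩
  exact h ⟨u, hu, v, hv, h'⟩

open Classical in
/-- the covariance comes from the configurations with a nonzero crossing -/
theorem sum_mul_cross {S : Finset (V → ℤ)} (hS : SgnInv S) (s t : Finset V) (f k : V → ℝ) :
    ∑ g ∈ S, (∑ x ∈ s, f x * (g x : ℝ)) * (∑ y ∈ t, k y * (g y : ℝ)) =
      ∑ g ∈ S, (∑ x ∈ s, f x * (g x : ℝ)) * (∑ y ∈ t, k y * (g y : ℝ)) *
        (if JnNz (s : Set V) (t : Set V) g then 1 else 0) := by
  set Φ : (V → ℤ) → ℝ := fun g => (∑ x ∈ s, f x * (g x : ℝ)) * (∑ y ∈ t, k y * (g y : ℝ)) *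
    (if JnNz (s : Set V) (t : Set V) g then 0 else 1) with hΦ
  have h1 : ∑ g ∈ S, Φ g = -∑ g ∈ S, Φ g := by
    refine (sum_flA hS (s : Set V) Φ).symm.trans ?_
    rw [← Finset.sum_neg_distrib]
    refine Finset.sum_congr rfl fun g _ => ?_
    rw [hΦ]
    simp only [jnNz_flA]
    by_cases h : JnNz (s : Set V) (t : Set V) g
    · simp [h]
    · have e1 : (∑ x ∈ s, f x * ((flA (s : Set V) g x : ℤ) : ℝ)) = -∑ x ∈ s, f x * (g x : ℝ) := by
        rw [← Finset.sum_neg_distrib]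
        refine Finset.sum_congr rfl fun x hx => ?_
        rw [flA_on (Finset.mem_coe.2 hx)]
        push_cast
        ring
      have e2 : (∑ y ∈ t, k y * ((flA (s : Set V) g y : ℤ) : ℝ)) = ∑ y ∈ t, k y * (g y : ℝ) := by
        refine Finset.sum_congr rfl fun y hy => ?_
        rw [flA_off h (Finset.mem_coe.2 hy)]
      rw [e1, e2]
      ring
  have h2 : ∑ g ∈ S, Φ g = 0 := by linarith
  have h3 : ∀ g ∈ S, (∑ x ∈ s, f x * (g x : ℝ)) * (∑ y ∈ t, k y * (g y : ℝ)) =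
      (∑ x ∈ s, f x * (g x : ℝ)) * (∑ y ∈ t, k y * (g y : ℝ)) *
        (if JnNz (s : Set V) (t : Set V) g then 1 else 0) + Φ g := by
    intro g _
    rw [hΦ]
    simp only
    split_ifs <;> ring
  rw [Finset.sum_congr rfl h3, Finset.sum_add_distrib, h2, add_zero]

open Classical in
/-- a positive covariance forces a nonzero crossing with positive probability -/
theorem pz {S : Finset (V → ℤ)} (hS : SgnInv S) (s t : Finset V) (f k : V → ℝ) :
    (avg S fun g => (∑ x ∈ s, f x * (g x : ℝ)) * (∑ y ∈ t, k y * (g y : ℝ))) ^ 4 ≤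
      (avg S fun g => (∑ x ∈ s, f x * (g x : ℝ)) ^ 4) *
        (avg S fun g => (∑ y ∈ t, k y * (g y : ℝ)) ^ 4) *
        (avg S fun g => if JnNz (s : Set V) (t : Set V) g then 1 else 0) ^ 2 := by
  set X : (V → ℤ) → ℝ := fun g => ∑ x ∈ s, f x * (g x : ℝ) with hX
  set Y : (V → ℤ) → ℝ := fun g => ∑ y ∈ t, k y * (g y : ℝ) with hY
  set J : (V → ℤ) → ℝ := fun g => if JnNz (s : Set V) (t : Set V) g then 1 else 0 with hJ
  have h1 : ∑ g ∈ S, X g * Y g = ∑ g ∈ S, (X g * Y g) * J g := sum_mul_cross hS s t f k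
  have hJ2 : ∀ g, J g ^ 2 = J g := by
    intro g
    rw [hJ]
    simp only
    split_ifs <;> norm_num
  have c1 : (∑ g ∈ S, (X g * Y g) * J g) ^ 2 ≤ (∑ g ∈ S, (X g * Y g) ^ 2) * ∑ g ∈ S, J g ^ 2 :=
    Finset.sum_mul_sq_le_sq_mul_sq S _ _
  have c2 : (∑ g ∈ S, X g ^ 2 * Y g ^ 2) ^ 2 ≤
      (∑ g ∈ S, (X g ^ 2) ^ 2) * ∑ g ∈ S, (Y g ^ 2) ^ 2 := Finset.sum_mul_sq_le_sq_mul_sq S _ _
  have e1 : ∑ g ∈ S, (X g * Y g) ^ 2 = ∑ g ∈ S, X g ^ 2 * Y g ^ 2 :=
    Finset.sum_congr rfl fun g _ => by ring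
  have e2 : ∑ g ∈ S, J g ^ 2 = ∑ g ∈ S, J g := Finset.sum_congr rfl fun g _ => hJ2 g
  have e3 : ∀ Z : (V → ℤ) → ℝ, ∑ g ∈ S, (Z g ^ 2) ^ 2 = ∑ g ∈ S, Z g ^ 4 := fun Z =>
    Finset.sum_congr rfl fun g _ => by ring
  rw [e1, e2] at c1
  rw [e3, e3] at c2
  have hJ0 : 0 ≤ ∑ g ∈ S, J g := Finset.sum_nonneg fun g _ => by
    rw [← hJ2 g]
    positivity
  have hXY0 : 0 ≤ ∑ g ∈ S, X g ^ 2 * Y g ^ 2 := Finset.sum_nonneg fun g _ => by positivity
  have key : (∑ g ∈ S, X g * Y g) ^ 4 ≤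
      (∑ g ∈ S, X g ^ 4) * (∑ g ∈ S, Y g ^ 4) * (∑ g ∈ S, J g) ^ 2 := by
    rw [h1]
    calc (∑ g ∈ S, (X g * Y g) * J g) ^ 4 = ((∑ g ∈ S, (X g * Y g) * J g) ^ 2) ^ 2 := by ring
      _ ≤ ((∑ g ∈ S, X g ^ 2 * Y g ^ 2) * ∑ g ∈ S, J g) ^ 2 :=
        pow_le_pow_left₀ (sq_nonneg _) c1 2
      _ = (∑ g ∈ S, X g ^ 2 * Y g ^ 2) ^ 2 * (∑ g ∈ S, J g) ^ 2 := by ring
      _ ≤ _ := mul_le_mul_of_nonneg_right c2 (sq_nonneg _)
  unfold avg
  have e4 : (∑ g ∈ S, X g ^ 4) / (S.card : ℝ) * ((∑ g ∈ S, Y g ^ 4) / (S.card : ℝ)) *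
      ((∑ g ∈ S, J g) / (S.card : ℝ)) ^ 2 =
      ((∑ g ∈ S, X g ^ 4) * (∑ g ∈ S, Y g ^ 4) * (∑ g ∈ S, J g) ^ 2) / (S.card : ℝ) ^ 4 := by
    rw [div_mul_div_comm, div_pow, div_mul_div_comm]
    congr 1
    ring
  rw [e4, div_pow]
  exact div_le_div_of_nonneg_right key (by positivity)

end DV
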