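import Pool.Agent.Helper97.DV.Fl
import Pool.Agent.Helper97.DV.Pz

/-!
# Project DV (MP_973bc8_pr): the zero layer (deterministic part of 2598 (II))

`N` is the nn cluster of `{h ≤ 0}` of the set `γ`, its outer neighbours have height exactly `1`; `S` is
`N` together with the clusters of `{1 ≤ h}` of these neighbours: all outer neighbours of `S` have height
`0`, and `S` is nn connected.
-/

open Relation RP4

namespace DV

/-- clusters do not change if the set is changed off the cluster and its neighbours -/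
lemma clus_congr {S T A : Set V} (hA : ∀ v ∈ A, v ∈ S ↔ v ∈ T)
    (h : ∀ u ∈ clus S A, ∀ v, Adj u v → (v ∈ S ↔ v ∈ T)) : clus T A = clus S A := by
  apply Set.Subset.antisymm
  · rintro v ⟨u, hu, h'⟩
    refine h'.prop (P := fun v => v ∈ clus S A) (sub_clus hu ((hA u hu).2 h'.left)) ?_
    intro a b hab _ hb ha
    exact clus_step ha hab ((h a ha b hab).2 hb)
  · rintro v ⟨u, hu, h'⟩
    have key : v ∈ clus S A ∧ v ∈ clus T A := by
      refine h'.prop (P := fun v => v ∈ clus S A ∧ v ∈ clus T A)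
        ⟨sub_clus hu h'.left, sub_clus hu ((hA u hu).1 h'.left)⟩ ?_
      intro a b hab _ hb ha
      exact ⟨clus_step ha.1 hab hb, clus_step ha.2 hab ((h a ha.1 b hab).1 hb)⟩
    exact key.2

/-- unit steps inside `D` -/
def Unit1 (D : Set V) (h : V → ℤ) : Prop := ∀ u ∈ D, ∀ v ∈ D, Adj u v → |h u - h v| = 1

/-- the nn cluster of `γ` in the sites of `D` of height at most `0` -/
def Nc (D : Set V) (h : V → ℤ) (γ : Set V) : Set V := clus (D ∩ {v | h v ≤ 0}) γ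

/-- outer neighbours in `D` -/
def nbr (D N : Set V) : Set V := {v | v ∈ D ∧ v ∉ N ∧ ∃ u ∈ N, Adj u v}

/-- the clusters of `{1 ≤ h}` of the layer of `Nc` -/
def Tc (D : Set V) (h : V → ℤ) (γ : Set V) : Set V := clus (D ∩ {v | 1 ≤ h v}) (nbr D (Nc D h γ))

/-- the set `S` -/
def Sc (D : Set V) (h : V → ℤ) (γ : Set V) : Set V := Nc D h γ ∪ Tc D h γ

section zl

variable {D γ : Set V} {h : V → ℤ}

lemma Nc_sub : Nc D h γ ⊆ D := fun _ hv => (clus_sub _ _ hv).1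

lemma Nc_le {v : V} (hv : v ∈ Nc D h γ) : h v ≤ 0 := (clus_sub _ _ hv).2

lemma Tc_sub : Tc D h γ ⊆ D := fun _ hv => (clus_sub _ _ hv).1

lemma le_Tc {v : V} (hv : v ∈ Tc D h γ) : 1 ≤ h v := (clus_sub _ _ hv).2

lemma Sc_sub : Sc D h γ ⊆ D := Set.union_subset Nc_sub Tc_sub

/-- the layer has height exactly `1` and its neighbours in `Nc` height exactly `0` -/
lemma nbr_Nc (hst : Unit1 D h) {u v : V} (hu : u ∈ Nc D h γ) (huv : Adj u v) (hv : v ∈ D)
    (hv' : v ∉ Nc D h γ) : h v = 1 ∧ h u = 0 := by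
  have h1 := hst u (Nc_sub hu) v hv huv
  have h2 := Nc_le hu
  have h3 : ¬ h v ≤ 0 := fun h3 => hv' (clus_step hu huv ⟨hv, h3⟩)
  rcases (abs_eq (by norm_num : (0 : ℤ) ≤ 1)).1 h1 with h4 | h4 <;> constructor <;> omega

lemma nbr_eq_one (hst : Unit1 D h) {v : V} (hv : v ∈ nbr D (Nc D h γ)) : h v = 1 := by
  obtain ⟨h1, h2, u, h3, h4⟩ := hv
  exact (nbr_Nc hst h3 h4 h1 h2).1

lemma nbr_sub_Tc (hst : Unit1 D h) : nbr D (Nc D h γ) ⊆ Tc D h γ := fun _ hv =>
  sub_clus hv ⟨hv.1, (nbr_eq_one hst hv).ge⟩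

/-- all outer neighbours of `Sc` have height `0`, they touch sites of height `1` of `Tc` -/
lemma nbr_Sc (hst : Unit1 D h) {u v : V} (hu : u ∈ Sc D h γ) (huv : Adj u v) (hv : v ∈ D)
    (hv' : v ∉ Sc D h γ) : h v = 0 ∧ h u = 1 ∧ u ∈ Tc D h γ := by
  rcases hu with hu | hu
  · exact absurd (Or.inr (nbr_sub_Tc hst ⟨hv, fun h' => hv' (Or.inl h'), u, hu, huv⟩)) hv'
  · have h1 := hst u (Tc_sub hu) v hv huv
    have h2 := le_Tc hu
    have h3 : ¬ 1 ≤ h v := fun h3 => hv' (Or.inr (clus_step hu huv ⟨hv, h3⟩))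
    rcases (abs_eq (by norm_num : (0 : ℤ) ≤ 1)).1 h1 with h4 | h4 <;>
      refine ⟨?_, ?_, hu⟩ <;> omega

lemma nbr_Sc_zero (hst : Unit1 D h) {v : V} (hv : v ∈ nbr D (Sc D h γ)) : h v = 0 := by
  obtain ⟨h1, h2, u, h3, h4⟩ := hv
  exact (nbr_Sc hst h3 h4 h1 h2).1

/-- two sites with a common neighbour (or adjacent) in `D` -/
def Two (D : Set V) (a b : V) : Prop := ∃ o ∈ D, (o = a ∨ Adj a o) ∧ (o = b ∨ Adj b o)

/-- sites of `Nc` with a common neighbour in `D` are joined in `Sc` -/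
lemma two_Sc (hst : Unit1 D h) {a b : V} (ha : a ∈ Nc D h γ) (hb : b ∈ Nc D h γ)
    (hab : Two D a b) : Con (Sc D h γ) a b := by
  obtain ⟨o, ho, h1, h2⟩ := hab
  have haS : a ∈ Sc D h γ := Or.inl ha
  have hbS : b ∈ Sc D h γ := Or.inl hb
  have hoS : o ∈ Sc D h γ := by
    rcases h1 with rfl | h1
    · exact haS
    · by_cases hoN : o ∈ Nc D h γ
      · exact Or.inl hoN
      · exact Or.inr (nbr_sub_Tc hst ⟨ho, hoN, a, ha, h1⟩)
  have e1 : Con (Sc D h γ) a o := by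
    rcases h1 with rfl | h1
    · exact Jn.refl haS
    · exact Jn.single h1 haS hoS
  have e2 : Con (Sc D h γ) b o := by
    rcases h2 with rfl | h2
    · exact Jn.refl hbS
    · exact Jn.single h2 hbS hoS
  exact e1.trans e2.symm'

/-- `Sc` is nn connected if `γ` is connected by steps with common neighbours in `D` -/
theorem Sc_cnn (hst : Unit1 D h) (hγ : γ ⊆ D ∩ {v | h v ≤ 0})
    (hc : ∀ u ∈ γ, ∀ v ∈ γ, Jn (Two D) γ u v) : Cnn (Sc D h γ) := by
  have hγN : ∀ u ∈ γ, u ∈ Nc D h γ := fun u hu => sub_clus hu (hγ hu)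
  -- the points of `γ` are connected
  have k1 : ∀ u ∈ γ, ∀ v ∈ γ, Con (Sc D h γ) u v := by
    intro u hu v hv
    refine (hc u hu v hv).prop (P := fun w => Con (Sc D h γ) u w) (Jn.refl (Or.inl (hγN u hu))) ?_
    intro a b hab ha hb h'
    exact Jn.trans h' (two_Sc hst (hγN a ha) (hγN b hb) hab)
  -- every point is connected to a point of `γ`
  have k2 : ∀ u ∈ Nc D h γ, ∃ c ∈ γ, Con (Sc D h γ) u c := by
    rintro u ⟨c, hc', h'⟩
    refine ⟨c, hc', ?_⟩
    have h1 : Con (Nc D h γ) c u := clus_con (hγN c hc') h'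
    exact Con.symm' (h1.mono (fun _ _ h => h) Set.subset_union_left)
  have k3 : ∀ u ∈ Sc D h γ, ∃ c ∈ γ, Con (Sc D h γ) u c := by
    rintro u (hu | hu)
    · exact k2 u hu
    · obtain ⟨l, hl, h'⟩ := hu
      have hlT : l ∈ Tc D h γ := nbr_sub_Tc hst hl
      have h1 : Con (Tc D h γ) l u := clus_con hlT h'
      have h2 : Con (Sc D h γ) u l := Con.symm' (h1.mono (fun _ _ h => h) Set.subset_union_right)
      obtain ⟨_, _, w, hw, hwl⟩ := hl
      obtain ⟨c, hc', h3⟩ := k2 w hw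
      exact ⟨c, hc', (h2.step (adj_symm hwl) (Or.inl hw)).trans h3⟩
  intro u hu v hv
  obtain ⟨c, hc', h1⟩ := k3 u hu
  obtain ⟨d, hd, h2⟩ := k3 v hv
  exact h1.trans ((k1 c hc' d hd).trans h2.symm')

/-- a frame of positive sites keeps `Nc` inside -/
theorem Nc_in {x : V} {n m : ℤ} (hnm : n ≤ m) (hγ : γ ⊆ Sq x n)
    (hQ : Frm Kng {v | 1 ≤ h v} x n m) : Nc D h γ ⊆ Sq x m := by
  rintro v ⟨u, hu, h'⟩
  by_contra hv
  obtain ⟨w, hw, hw'⟩ := block_nn hnm hQ h' (hγ hu) hv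
  have h1 : h w ≤ 0 := hw.2
  have h2 : 1 ≤ h w := hw'
  omega

/-- a frame of sites of height at most `0` keeps `Sc` inside -/
theorem Sc_in {x : V} {n m n' m' : ℤ} (hnm : n ≤ m) (hmn : m + 1 ≤ n') (hnm' : n' ≤ m')
    (hγ : γ ⊆ Sq x n) (hQ : Frm Kng {v | 1 ≤ h v} x n m) (hQ' : Frm Kng {v | h v ≤ 0} x n' m') :
    Sc D h γ ⊆ Sq x m' := by
  have h1 : Nc D h γ ⊆ Sq x m := Nc_in hnm hγ hQ
  refine Set.union_subset (h1.trans (Sq_mono (by omega))) ?_
  rintro v ⟨u, hu, h'⟩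
  by_contra hv
  have hu' : u ∈ Sq x n' := by
    obtain ⟨_, _, w, hw, hwu⟩ := hu
    have h2 := h1 hw
    have h3 := adj_kng hwu
    have a1 := abs_le.1 h2.1
    have a2 := abs_le.1 h2.2
    have a3 := abs_le.1 h3.1
    have a4 := abs_le.1 h3.2
    exact ⟨abs_le.2 ⟨by omega, by omega⟩, abs_le.2 ⟨by omega, by omega⟩⟩
  obtain ⟨w, hw, hw'⟩ := block_nn hnm' hQ' h' hu' hv
  have h2 : 1 ≤ h w := hw.2
  have h3 : h w ≤ 0 := hw'
  omega

/-- `Nc` depends only on the heights on `Nc` and its outer neighbours -/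
theorem Nc_congr {h' : V → ℤ} (hγ : ∀ v ∈ γ, h' v = h v)
    (he : ∀ v ∈ Nc D h γ ∪ nbr D (Nc D h γ), h' v = h v) : Nc D h' γ = Nc D h γ := by
  refine clus_congr (fun v hv => ?_) fun u hu v huv => ?_
  · simp only [Set.mem_inter_iff, Set.mem_ofPred_eq]
    rw [hγ v hv]
  · simp only [Set.mem_inter_iff, Set.mem_ofPred_eq]
    refine and_congr_right fun hvD => ?_
    by_cases hv : v ∈ Nc D h γ
    · rw [he v (Or.inl hv)]
    · rw [he v (Or.inr ⟨hvD, hv, u, hu, huv⟩)]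

/-- `Sc` depends only on the heights on `Sc` and its outer neighbours -/
theorem Sc_congr {h' : V → ℤ} (hst : Unit1 D h) (hγ : ∀ v ∈ γ, h' v = h v)
    (he : ∀ v ∈ Sc D h γ ∪ nbr D (Sc D h γ), h' v = h v) : Sc D h' γ = Sc D h γ := by
  have h1 : Nc D h' γ = Nc D h γ := by
    refine Nc_congr hγ fun v hv => ?_
    rcases hv with hv | hv
    · exact he v (Or.inl (Or.inl hv))
    · exact he v (Or.inl (Or.inr (nbr_sub_Tc hst hv)))
  unfold Sc
  rw [h1]
  congr 1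
  unfold Tc
  rw [h1]
  refine clus_congr (fun v hv => ?_) fun u hu v huv => ?_
  · simp only [Set.mem_inter_iff, Set.mem_ofPred_eq]
    rw [he v (Or.inl (Or.inr (nbr_sub_Tc hst hv)))]
  · simp only [Set.mem_inter_iff, Set.mem_ofPred_eq]
    refine and_congr_right fun hvD => ?_
    by_cases hv : v ∈ Sc D h γ
    · rw [he v (Or.inl hv)]
    · rw [he v (Or.inr ⟨hvD, hv, u, Or.inr hu, huv⟩)]

end zl

end DV
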