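import Pool.Agent.Helper97.DV.Fr

/-!
# Project DV (MP_973bc8_pr): exterior component and filling of a bounded set

TOP-7.  `ext C` is the unbounded component of the complement of the bounded set `C`, `fil C` its
complement.
-/

open Relation RP4

namespace DV

/-- the set is bounded -/
def Bdd (C : Set V) : Prop := ∃ n : ℤ, C ⊆ Sq 0 n

lemma Sq_mono {x : V} {n m : ℤ} (h : n ≤ m) : Sq x n ⊆ Sq x m := fun _ hv =>
  ⟨hv.1.trans h, hv.2.trans h⟩

lemma Bdd.mono {C C' : Set V} (h : C ⊆ C') (h' : Bdd C') : Bdd C := by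
  obtain ⟨n, hn⟩ := h'
  exact ⟨n, h.trans hn⟩

lemma bdd_Sq (x : V) (n : ℤ) : Bdd (Sq x n) := by
  refine ⟨|x.1| + |x.2| + n, fun v hv => ?_⟩
  have h1 := abs_add_le (v.1 - x.1) x.1
  have h2 := abs_add_le (v.2 - x.2) x.2
  have h3 := hv.1
  have h4 := hv.2
  have h5 := abs_nonneg x.1
  have h6 := abs_nonneg x.2
  rw [sub_add_cancel] at h1 h2
  constructor <;> simp only [Prod.fst_zero, Prod.snd_zero, sub_zero] <;> linarith

lemma bdd_coe (D : Finset V) : Bdd (D : Set V) := by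
  classical
  induction D using Finset.induction_on with
  | empty => exact ⟨0, by simp⟩
  | @insert a s _ ih =>
    obtain ⟨n, hn⟩ := ih
    refine ⟨max n (max |a.1| |a.2|), ?_⟩
    intro v hv
    rw [Finset.coe_insert, Set.mem_insert_iff] at hv
    rcases hv with rfl | hv
    · constructor <;> simp
    · exact Sq_mono (le_max_left _ _) (hn hv)

/-- a straight horizontal path -/
lemma con_row {S : Set V} {y : ℤ} {a b : ℤ} (hab : a ≤ b)
    (h : ∀ t, a ≤ t → t ≤ b → (t, y) ∈ S) : Con S (a, y) (b, y) := by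
  obtain ⟨k, rfl⟩ := Int.le.dest hab
  induction k with
  | zero =>
    simp only [Nat.cast_zero, add_zero]
    exact Jn.refl (h a le_rfl hab)
  | succ k ih =>
    have h1 := ih (by omega) (fun t h1 h2 => h t h1 (by push_cast; omega))
    have h2 := h1.step (w := (a + ((k + 1 : ℕ) : ℤ), y)) (by
      unfold Adj
      push_cast
      simp) (h _ (by push_cast; omega) le_rfl)
    exact h2

/-- a straight vertical path -/
lemma con_col {S : Set V} {x : ℤ} {a b : ℤ} (hab : a ≤ b)
    (h : ∀ t, a ≤ t → t ≤ b → (x, t) ∈ S) : Con S (x, a) (x, b) := by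
  obtain ⟨k, rfl⟩ := Int.le.dest hab
  induction k with
  | zero =>
    simp only [Nat.cast_zero, add_zero]
    exact Jn.refl (h a le_rfl hab)
  | succ k ih =>
    have h1 := ih (by omega) (fun t h1 h2 => h t h1 (by push_cast; omega))
    have h2 := h1.step (w := (x, a + ((k + 1 : ℕ) : ℤ))) (by
      unfold Adj
      push_cast
      simp) (h _ (by push_cast; omega) le_rfl)
    exact h2

lemma con_row' {S : Set V} {y : ℤ} {a b : ℤ}
    (h : ∀ t, min a b ≤ t → t ≤ max a b → (t, y) ∈ S) : Con S (a, y) (b, y) := by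
  rcases le_total a b with hab | hab
  · exact con_row hab fun t h1 h2 => h t (by omega) (by omega)
  · exact (con_row hab fun t h1 h2 => h t (by omega) (by omega)).symm'

lemma con_col' {S : Set V} {x : ℤ} {a b : ℤ}
    (h : ∀ t, min a b ≤ t → t ≤ max a b → (x, t) ∈ S) : Con S (x, a) (x, b) := by
  rcases le_total a b with hab | hab
  · exact con_col hab fun t h1 h2 => h t (by omega) (by omega)
  · exact (con_col hab fun t h1 h2 => h t (by omega) (by omega)).symm'

lemma not_mem_Sq {x v : V} {n : ℤ} : v ∉ Sq x n ↔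
    x.1 + n < v.1 ∨ v.1 < x.1 - n ∨ x.2 + n < v.2 ∨ v.2 < x.2 - n := by
  unfold Sq
  rw [Set.mem_ofPred_eq, not_and_or, not_le, not_le, lt_abs, lt_abs]
  omega

/-- a rectangle is connected -/
lemma rec_cnn (a b c d : ℤ) : Cnn (Rec a b c d) := by
  rintro ⟨u1, u2⟩ ⟨h1, h2, h3, h4⟩ ⟨v1, v2⟩ ⟨g1, g2, g3, g4⟩
  simp only at h1 h2 h3 h4 g1 g2 g3 g4
  refine Jn.trans (v := (v1, u2)) (con_row' fun t h5 h6 => ?_) (con_col' fun t h5 h6 => ?_)
  · exact ⟨by simp only; omega, by simp only; omega, by simp only; omega, by simp only; omega⟩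
  · exact ⟨by simp only; omega, by simp only; omega, by simp only; omega, by simp only; omega⟩

lemma Sq_eq_Rec (x : V) (n : ℤ) : Sq x n = Rec (x.1 - n) (x.1 + n) (x.2 - n) (x.2 + n) := by
  ext v
  unfold Sq Rec
  simp only [Set.mem_ofPred_eq, abs_le]
  omega

/-- a square is connected -/
lemma Sq_cnn (x : V) (n : ℤ) : Cnn (Sq x n) := by
  rw [Sq_eq_Rec]
  exact rec_cnn _ _ _ _

/-- the complement of a square is connected -/
lemma Sq_compl_cnn (x : V) (n : ℤ) : Cnn (Sq x n)ᶜ := by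
  -- connect everything to the point `c`
  have key : ∀ u : V, u ∉ Sq x n → Con (Sq x n)ᶜ u (x.1 + |n| + 1, x.2 + |n| + 1) := by
    rintro ⟨u1, u2⟩ hu
    have hn := le_abs_self n
    have hn0 := abs_nonneg n
    -- points to the right / left / above / below
    have far : ∀ v : V, (x.1 + n < v.1 ∨ v.1 < x.1 - n ∨ x.2 + n < v.2 ∨ v.2 < x.2 - n) →
        v ∈ (Sq x n)ᶜ := fun v hv => not_mem_Sq.2 hv
    rw [not_mem_Sq] at hu
    simp only at hu
    -- right side
    have right : ∀ y z : ℤ, ∀ t : ℤ, x.1 + n < t →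
        Con (Sq x n)ᶜ (t, y) (t, z) := fun y z t ht => con_col' fun s _ _ => far _ (Or.inl ht)
    have top : ∀ y z : ℤ, ∀ t : ℤ, x.2 + n < t →
        Con (Sq x n)ᶜ (y, t) (z, t) := fun y z t ht =>
      con_row' fun s _ _ => far _ (Or.inr (Or.inr (Or.inl ht)))
    have left : ∀ y z : ℤ, ∀ t : ℤ, t < x.1 - n →
        Con (Sq x n)ᶜ (t, y) (t, z) := fun y z t ht =>
      con_col' fun s _ _ => far _ (Or.inr (Or.inl ht))
    have bot : ∀ y z : ℤ, ∀ t : ℤ, t < x.2 - n →
        Con (Sq x n)ᶜ (y, t) (z, t) := fun y z t ht =>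
      con_row' fun s _ _ => far _ (Or.inr (Or.inr (Or.inr ht)))
    have e1 : x.1 + n < x.1 + |n| + 1 := by omega
    have e2 : x.2 + n < x.2 + |n| + 1 := by omega
    rcases hu with hu | hu | hu | hu
    · exact (right u2 (x.2 + |n| + 1) u1 hu).trans (top _ _ _ e2)
    · exact (left u2 (x.2 + |n| + 1) u1 hu).trans (top _ _ _ e2)
    · exact (top u1 (x.1 + |n| + 1) u2 hu).trans (right _ _ _ e1)
    · exact (bot u1 (x.1 + |n| + 1) u2 hu).trans (right _ _ _ e1)
  intro u hu v hv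
  exact (key u hu).trans (key v hv).symm'

/-- the exterior component -/
def ext (C : Set V) : Set V := {v | ∀ n : ℤ, ∃ w, w ∉ Sq 0 n ∧ Con Cᶜ v w}

/-- the filling -/
def fil (C : Set V) : Set V := (ext C)ᶜ

lemma ext_sub (C : Set V) : ext C ⊆ Cᶜ := by
  intro v hv
  obtain ⟨w, _, h⟩ := hv 0
  exact h.left

lemma sub_fil (C : Set V) : C ⊆ fil C := fun v hv h => ext_sub C h hv

lemma ext_con {C : Set V} {u v : V} (hu : u ∈ ext C) (h : Con Cᶜ u v) : v ∈ ext C := by
  intro n
  obtain ⟨w, hw, h'⟩ := hu n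
  exact ⟨w, hw, h.symm'.trans h'⟩

lemma far_mem_ext {C : Set V} {n : ℤ} (hC : C ⊆ Sq 0 n) {v : V} (hv : v ∉ Sq 0 n) : v ∈ ext C := by
  intro m
  refine ⟨(max |n| |m| + 1, 0), ?_, ?_⟩
  · rw [not_mem_Sq]
    left
    simp only [Prod.fst_zero, zero_add]
    have h1 := le_max_right |n| |m|
    have h2 := le_abs_self m
    omega
  · have h1 : Con (Sq 0 n)ᶜ v (max |n| |m| + 1, 0) := by
      refine Sq_compl_cnn 0 n v hv _ ?_
      rw [Set.mem_compl_iff, not_mem_Sq]
      left
      simp only [Prod.fst_zero, zero_add]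
      have h1 := le_max_left |n| |m|
      have h2 := le_abs_self n
      omega
    exact h1.mono (fun _ _ h => h) (Set.compl_subset_compl.2 hC)

/-- the filling of a set in a square lies in the square -/
lemma fil_sub_Sq {C : Set V} {n : ℤ} (hC : C ⊆ Sq 0 n) : fil C ⊆ Sq 0 n := by
  intro v hv
  by_contra h
  exact hv (far_mem_ext hC h)

lemma fil_bdd {C : Set V} (hC : Bdd C) : Bdd (fil C) := by
  obtain ⟨n, hn⟩ := hC
  exact ⟨n, fil_sub_Sq hn⟩

/-- the exterior component is connected -/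
lemma ext_cnn {C : Set V} (hC : Bdd C) : Cnn (ext C) := by
  obtain ⟨n, hn⟩ := hC
  intro u hu v hv
  obtain ⟨w, hw, h1⟩ := hu n
  obtain ⟨w', hw', h2⟩ := hv n
  have h3 : Con Cᶜ w w' := (Sq_compl_cnn 0 n w hw w' hw').mono (fun _ _ h => h)
    (Set.compl_subset_compl.2 hn)
  have h4 : Con Cᶜ u v := h1.trans (h3.trans h2.symm')
  -- the whole path lies in the exterior component
  have h5 := con_in_comp (Q := Cᶜ) h4 le_rfl
  refine h5.mono (fun _ _ h => h) ?_
  rintro x ⟨hx, _⟩
  exact ext_con hu hx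

/-- a neighbour of the exterior component outside it is in `C` -/
lemma ext_bd {C : Set V} {u z : V} (hu : u ∈ ext C) (h : Adj u z) (hz : z ∉ ext C) : z ∈ C := by
  by_contra hzC
  exact hz (ext_con hu (Jn.single h (ext_sub C hu) hzC))

lemma fil_mono {C C' : Set V} (h : C ⊆ C') : fil C ⊆ fil C' := by
  intro v hv hv'
  refine hv fun n => ?_
  obtain ⟨w, hw, h'⟩ := hv' n
  exact ⟨w, hw, h'.mono (fun _ _ h => h) (Set.compl_subset_compl.2 h)⟩

/-- every point of the filling is joined to `C` inside the filling -/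
lemma fil_con {C : Set V} (hC : Bdd C) {v : V} (hv : v ∈ fil C) : ∃ c ∈ C, Con (fil C) v c := by
  obtain ⟨n, hn⟩ := hC
  by_cases hvC : v ∈ C
  · exact ⟨v, hvC, Jn.refl hv⟩
  -- a path from `v` to a far point of the plane
  obtain ⟨w, hw⟩ : ∃ w : V, w ∉ Sq 0 n := by
    refine ⟨(n + 1, 0), ?_⟩
    rw [not_mem_Sq]
    left
    simp
  have hw' := far_mem_ext hn hw
  have huniv : Con (Set.univ : Set V) v w := by
    obtain ⟨v1, v2⟩ := v
    obtain ⟨w1, w2⟩ := w
    exact Jn.trans (v := (w1, v2)) (con_row' fun _ _ _ => trivial) (con_col' fun _ _ _ => trivial)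
  obtain ⟨a, b, h1, h2, -, h3, -, h4⟩ := huniv.exit (A := fil C) hv (by
    intro h
    exact h hw')
  have h5 : b ∈ ext C := by
    by_contra h
    exact h4 h
  have h6 : a ∈ C := ext_bd h5 (adj_symm h2) (fun h => h3 h)
  refine ⟨a, h6, h1.mono (fun _ _ h => h) ?_⟩
  exact Set.inter_subset_right

/-- the filling of a connected set is connected -/
lemma fil_cnn {C : Set V} (hC : Bdd C) (h : Cnn C) : Cnn (fil C) := by
  intro u hu v hv
  obtain ⟨c, hc, h1⟩ := fil_con hC hu
  obtain ⟨d, hd, h2⟩ := fil_con hC hv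
  exact h1.trans (((h c hc d hd).mono (fun _ _ h => h) (sub_fil C)).trans h2.symm')

/-- the layer around the filling: sites of the exterior component next to `C` -/
def lay (C : Set V) : Set V := {v | v ∈ ext C ∧ ∃ z ∈ C, Adj v z}

lemma Bd_ext (C : Set V) : Bd (ext C) = lay C := by
  ext v
  constructor
  · rintro ⟨h1, z, h2, h3⟩
    exact ⟨h1, z, ext_bd h1 h2 h3, h2⟩
  · rintro ⟨h1, z, h2, h3⟩
    exact ⟨h1, z, h3, fun h => ext_sub C h h2⟩

/-- TOP-1 for the exterior component of a bounded connected set: labels are constant on the layer -/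
theorem lay_const {α : Type*} {C : Set V} {s : V → α} (hC : Bdd C) (hc : Cnn C)
    (hpar : ∀ u ∈ lay C, ∀ v ∈ lay C, ¬ Adj u v)
    (hs : ∀ z b c d, z ∈ C → b ∈ lay C → c ∈ ext C → d ∈ lay C → Adj z b → Adj z d → Adj b c →
      Adj d c → c ≠ z → s b = s d) {u u' : V} (hu : u ∈ lay C) (hu' : u' ∈ lay C) : s u = s u' := by
  rw [← Bd_ext] at hpar hu hu'
  refine label_const' hpar (ext_cnn hC) ?_ ?_ hu hu'
  · intro z hz z' hz'
    have h := fil_cnn hC hc z hz z' hz'
    exact h.mono (fun _ _ => adj_kng) (fun _ h => h)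
  · intro z b c d hz hb hc' hd h1 h2 h3 h4 h5
    have hzC : z ∈ C := ext_bd hb (adj_symm h1) hz
    exact hs z b c d hzC ⟨hb, z, hzC, adj_symm h1⟩ hc' ⟨hd, z, hzC, adj_symm h2⟩ h1 h2 h3 h4 h5

/-- a connected set that meets the filling and misses the layer lies in the filling -/
lemma sub_fil_of_cnn {C B : Set V} (hB : Cnn B) {b : V} (hb : b ∈ B) (hb' : b ∈ fil C)
    (hlay : ∀ v ∈ B, v ∉ lay C) : B ⊆ fil C := by
  intro v hv
  by_contra hcon
  obtain ⟨a, e, h1, h2, h3, h4, h5, h6⟩ := (hB b hb v hv).exit (A := fil C) hb' hcon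
  have h7 : e ∈ ext C := by
    by_contra h
    exact h6 h
  have h8 : a ∈ C := ext_bd h7 (adj_symm h2) (fun h => h4 h)
  exact hlay e h5 ⟨h7, a, h8, adj_symm h2⟩

/-- the filling together with its layer -/
def fil1 (C : Set V) : Set V := fil C ∪ lay C

lemma fil1_cnn {C : Set V} (hC : Bdd C) (h : Cnn C) : Cnn (fil1 C) := by
  have key : ∀ u ∈ fil1 C, ∃ c ∈ fil C, Con (fil1 C) u c := by
    rintro u (hu | hu)
    · exact ⟨u, hu, Jn.refl (Or.inl hu)⟩
    · obtain ⟨h1, z, h2, h3⟩ := hu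
      exact ⟨z, sub_fil C h2, Jn.single h3 (Or.inr ⟨h1, z, h2, h3⟩) (Or.inl (sub_fil C h2))⟩
  intro u hu v hv
  obtain ⟨c, hc, h1⟩ := key u hu
  obtain ⟨d, hd, h2⟩ := key v hv
  exact h1.trans (((fil_cnn hC h c hc d hd).mono (fun _ _ h => h) Set.subset_union_left).trans
    h2.symm')

end DV
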