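import Pool.Agent.Helper97.DV.Bx
import Pool.Agent.Helper97.DV.Fl

/-!
# Project DV (MP_973bc8_pr): labels on the boundary without a parity condition, the king layer

The layer of sites of `U` with a king neighbour outside `U` is nn connected if `U` is nn connected and
the complement is king connected.
-/

open Relation RP4

namespace DV

/-- the plaquette identity -/
lemma cutf_closed2 {α : Type*} {U : Set V} {s : V → α} (a : α)
    (hadj : ∀ b b' z z', b ∈ U → b' ∈ U → z ∉ U → z' ∉ U → Adj b b' → Adj z z' → Adj b z →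
      Adj b' z' → s b = s b')
    (hs : ∀ z b c d, z ∉ U → b ∈ U → c ∈ U → d ∈ U → Adj z b → Adj z d → Adj b c → Adj d c → c ≠ z →
      s b = s d) {p q r t : V} (h1 : Adj p q) (h2 : Adj q r) (h3 : Adj r t) (h4 : Adj t p)
    (hpr : p ≠ r) (hqt : q ≠ t) :
    cutf U s a p q + cutf U s a q r + (cutf U s a r t + cutf U s a t p) = 0 := by
  classical
  have z2 := zmod2_add_self
  by_cases hp : p ∈ U <;> by_cases hq : q ∈ U <;> by_cases hr : r ∈ U <;> by_cases ht : t ∈ U
  · rw [cutf_in s a hp hq, cutf_in s a hq hr, cutf_in s a hr ht, cutf_in s a ht hp]; simp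
  · -- t out
    have e := hs t p q r ht hp hq hr h4 (adj_symm h3) h1 (adj_symm h2) hqt
    rw [cutf_in s a hp hq, cutf_in s a hq hr, cutf_io s a hr ht, cutf_comm U s a t p,
      cutf_io s a hp ht, e]
    simp only [add_zero, zero_add]
    exact z2 _
  · -- r out
    have e := hs r t p q hr ht hp hq h3 (adj_symm h2) h4 (adj_symm h1) hpr
    rw [cutf_in s a hp hq, cutf_io s a hq hr, cutf_comm U s a r t, cutf_io s a ht hr,
      cutf_in s a ht hp, e]
    simp [z2]
  · have e := hadj p q t r hp hq ht hr h1 (adj_symm h3) (adj_symm h4) h2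
    rw [cutf_in s a hp hq, cutf_io s a hq hr, cutf_out s a hr ht, cutf_comm U s a t p,
      cutf_io s a hp ht, e]
    simp [z2]
  · -- q out
    have e := hs q p t r hq hp ht hr (adj_symm h1) h2 (adj_symm h4) h3 hqt.symm
    rw [cutf_io s a hp hq, cutf_comm U s a q r, cutf_io s a hr hq, cutf_in s a hr ht,
      cutf_in s a ht hp, e]
    simp [z2]
  · rw [cutf_io s a hp hq, cutf_comm U s a q r, cutf_io s a hr hq, cutf_io s a hr ht,
      cutf_comm U s a t p, cutf_io s a hp ht]
    have : ∀ x y : ZMod 2, x + y + (y + x) = 0 := fun x y => by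
      rw [add_comm y x, z2]
    exact this _ _
  · have e := hadj p t q r hp ht hq hr (adj_symm h4) h2 h1 (adj_symm h3)
    rw [cutf_io s a hp hq, cutf_out s a hq hr, cutf_comm U s a r t, cutf_io s a ht hr,
      cutf_in s a ht hp, e]
    simp [z2]
  · rw [cutf_io s a hp hq, cutf_out s a hq hr, cutf_out s a hr ht, cutf_comm U s a t p,
      cutf_io s a hp ht]
    simp [z2]
  · -- p out
    have e := hs p q r t hp hq hr ht h1 (adj_symm h4) h2 (adj_symm h3) hpr.symm
    rw [cutf_comm U s a p q, cutf_io s a hq hp, cutf_in s a hq hr, cutf_in s a hr ht,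
      cutf_io s a ht hp, e]
    simp [z2]
  · have e := hadj q r p t hq hr hp ht h2 (adj_symm h4) (adj_symm h1) h3
    rw [cutf_comm U s a p q, cutf_io s a hq hp, cutf_in s a hq hr, cutf_io s a hr ht,
      cutf_out s a ht hp, e]
    simp [z2]
  · rw [cutf_comm U s a p q, cutf_io s a hq hp, cutf_io s a hq hr, cutf_comm U s a r t,
      cutf_io s a ht hr, cutf_io s a ht hp, z2, z2]
    simp
  · rw [cutf_comm U s a p q, cutf_io s a hq hp, cutf_io s a hq hr, cutf_out s a hr ht,
      cutf_out s a ht hp, z2]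
    simp
  · have e := hadj r t q p hr ht hq hp h3 (adj_symm h1) (adj_symm h2) h4
    rw [cutf_out s a hp hq, cutf_comm U s a q r, cutf_io s a hr hq, cutf_in s a hr ht,
      cutf_io s a ht hp, e]
    simp [z2]
  · rw [cutf_out s a hp hq, cutf_comm U s a q r, cutf_io s a hr hq, cutf_io s a hr ht,
      cutf_out s a ht hp]
    simp [z2]
  · rw [cutf_out s a hp hq, cutf_out s a hq hr, cutf_comm U s a r t, cutf_io s a ht hr,
      cutf_io s a ht hp]
    simp only [add_zero, zero_add]
    exact z2 _
  · rw [cutf_out s a hp hq, cutf_out s a hq hr, cutf_out s a hr ht, cutf_out s a ht hp]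
    simp

/-- TOP-1: the label is constant along the part of the boundary that faces one king connected piece of
the complement -/
theorem label_const2 {α : Type*} {U : Set V} {s : V → α}
    (hU : Cnn U)
    (hadj : ∀ b b' z z', b ∈ U → b' ∈ U → z ∉ U → z' ∉ U → Adj b b' → Adj z z' → Adj b z →
      Adj b' z' → s b = s b')
    (hs : ∀ z b c d, z ∉ U → b ∈ U → c ∈ U → d ∈ U → Adj z b → Adj z d → Adj b c → Adj d c → c ≠ z →
      s b = s d) {u u' z z' : V} (hu : u ∈ U) (hz : z ∉ U) (huz : Adj u z) (hu' : u' ∈ U)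
    (hz' : z' ∉ U) (huz' : Adj u' z') (hzz : KCon Uᶜ z z') : s u = s u' := by
  classical
  set a := s u with ha
  obtain ⟨w, hw1, hw2⟩ := exact_of_closed (fun x y => cutf U s a (x, y) (x + 1, y))
    (fun x y => cutf U s a (x, y) (x, y + 1)) (by
      intro x y
      have h := cutf_closed2 a hadj hs (p := (x, y)) (q := (x + 1, y)) (r := (x + 1, y + 1))
        (t := (x, y + 1)) (by simp [Adj]) (by simp [Adj]) (by simp [Adj]) (by simp [Adj])
        (by simp) (by simp)
      rw [cutf_comm U s a (x + 1, y + 1), cutf_comm U s a (x, y + 1) (x, y)] at h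
      have h' : ∀ A B C D : ZMod 2, A + B + (C + D) = 0 → A + B = D + C := by decide
      exact h' _ _ _ _ h)
  -- the potential
  have hw : ∀ p q : V, Adj p q → w q.1 q.2 = w p.1 p.2 + cutf U s a p q := by
    have neg2 : ∀ x y e : ZMod 2, x - y = e → y = x + e := by decide
    have pos2 : ∀ x y e : ZMod 2, x - y = e → x = y + e := by decide
    intro p q hpq
    obtain ⟨p1, p2⟩ := p
    rcases adj_cases hpq with h | h | h | h <;> subst h
    · exact pos2 _ _ _ (hw1 p1 p2)
    · have h := hw1 (p1 - 1) p2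
      rw [sub_add_cancel] at h
      show w (p1 - 1) p2 = w p1 p2 + cutf U s a (p1, p2) (p1 - 1, p2)
      rw [cutf_comm]
      exact neg2 _ _ _ h
    · exact pos2 _ _ _ (hw2 p1 p2)
    · have h := hw2 p1 (p2 - 1)
      rw [sub_add_cancel] at h
      show w p1 (p2 - 1) = w p1 p2 + cutf U s a (p1, p2) (p1, p2 - 1)
      rw [cutf_comm]
      exact neg2 _ _ _ h
  -- it is constant on `U`
  have hin : w u'.1 u'.2 = w u.1 u.2 := by
    refine (hU u hu u' hu').prop (P := fun v => w v.1 v.2 = w u.1 u.2) rfl ?_
    intro b c hbc hb hc h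
    rw [hw b c hbc, cutf_in s a hb hc, add_zero]
    exact h
  -- it is constant along king steps outside `U`
  have hout : w z'.1 z'.2 = w z.1 z.2 := by
    refine hzz.prop (P := fun v => w v.1 v.2 = w z.1 z.2) rfl ?_
    intro b c hbc hb hc h
    rw [← h]
    -- the case of a path of two steps
    have two : ∀ m : V, Adj b m → Adj m c → w c.1 c.2 = w b.1 b.2 := by
      intro m h1 h2
      rw [hw m c h2, hw b m h1]
      by_cases hm : m ∈ U
      · rw [cutf_comm U s a b m, cutf_io s a hm hb, cutf_io s a hm hc, add_assoc,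
          zmod2_add_self, add_zero]
      · rw [cutf_out s a hb hm, cutf_out s a hm hc]
        simp
    obtain ⟨b1, b2⟩ := b
    obtain ⟨c1, c2⟩ := c
    obtain ⟨h1, h2⟩ := hbc
    simp only at h1 h2
    rw [abs_le] at h1 h2
    by_cases e1 : b1 = c1
    · by_cases e2 : b2 = c2
      · subst e1 e2
        rfl
      · have hadj : Adj (b1, b2) (c1, c2) := by
          unfold Adj
          subst e1
          simp only [sub_self, abs_zero, zero_add]
          rcases abs_cases (b2 - c2) with h | h <;> omega
        rw [hw _ _ hadj, cutf_out s a hb hc, add_zero]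
    · by_cases e2 : b2 = c2
      · have hadj : Adj (b1, b2) (c1, c2) := by
          unfold Adj
          subst e2
          simp only [sub_self, abs_zero, add_zero]
          rcases abs_cases (b1 - c1) with h | h <;> omega
        rw [hw _ _ hadj, cutf_out s a hb hc, add_zero]
      · refine two (c1, b2) ?_ ?_
        · unfold Adj
          simp only [sub_self, abs_zero, add_zero]
          rcases abs_cases (b1 - c1) with h | h <;> omega
        · unfold Adj
          simp only [sub_self, abs_zero, zero_add]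
          rcases abs_cases (b2 - c2) with h | h <;> omega
  -- compare the two cut edges
  have h1 := hw u z huz
  have h2 := hw u' z' huz'
  rw [cutf_io s a hu hz, if_pos rfl] at h1
  rw [cutf_io s a hu' hz', hout, hin, h1] at h2
  by_contra hne
  rw [if_neg (fun h => hne h.symm), add_zero] at h2
  have h3 : ∀ x : ZMod 2, x + 1 ≠ x := by decide
  exact h3 _ h2

/-- sites of `U` with a king neighbour outside `U` -/
def klay (U : Set V) : Set V := {w | w ∈ U ∧ ∃ s, s ∉ U ∧ Kng w s}

lemma Bd_sub_klay {U : Set V} {w : V} (h : w ∈ Bd U) : w ∈ klay U := by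
  obtain ⟨h1, z, h2, h3⟩ := h
  exact ⟨h1, z, h3, adj_kng h2⟩

/-- king neighbours are equal, adjacent or have two common neighbours -/
lemma kng_cases {u v : V} (h : Kng u v) : u = v ∨ Adj u v ∨ ((Adj u (v.1, u.2) ∧ Adj (v.1, u.2) v) ∧
    Adj u (u.1, v.2) ∧ Adj (u.1, v.2) v) := by
  obtain ⟨u1, u2⟩ := u
  obtain ⟨v1, v2⟩ := v
  obtain ⟨h1, h2⟩ := h
  simp only at h1 h2
  rw [abs_le] at h1 h2
  unfold Adj
  simp only [sub_self, abs_zero, add_zero, zero_add, Prod.mk.injEq]
  by_cases e1 : u1 = v1
  · by_cases e2 : u2 = v2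
    · exact Or.inl ⟨e1, e2⟩
    · right
      left
      subst e1
      simp only [sub_self, abs_zero, zero_add]
      rcases abs_cases (u2 - v2) with h | h <;> omega
  · by_cases e2 : u2 = v2
    · right
      left
      subst e2
      simp only [sub_self, abs_zero, add_zero]
      rcases abs_cases (u1 - v1) with h | h <;> omega
    · right
      right
      rcases abs_cases (u1 - v1) with h | h <;> rcases abs_cases (u2 - v2) with h' | h' <;>
        rw [h.1, h'.1] <;> omega

/-- the king layer is nn connected -/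
theorem klay_cnn {U : Set V} (hU : Cnn U) (hc : ∀ z ∉ U, ∀ z' ∉ U, KCon Uᶜ z z') :
    Cnn (klay U) := by
  have key : ∀ u ∈ Bd U, ∀ u' ∈ Bd U, Con (klay U) u u' := by
    rintro u ⟨hu, z, huz, hz⟩ u' ⟨hu', z', huz', hz'⟩
    have h := label_const2 (s := fun v => {w | Con (klay U) v w}) hU (by
      intro b b' z z' hb hb' hz hz' h1 _ h3 h4
      have hbK : b ∈ klay U := ⟨hb, z, hz, adj_kng h3⟩
      have hbK' : b' ∈ klay U := ⟨hb', z', hz', adj_kng h4⟩
      ext w
      constructor
      · intro hw
        exact Jn.trans (Jn.single (adj_symm h1) hbK' hbK) hw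
      · intro hw
        exact Jn.trans (Jn.single h1 hbK hbK') hw) (by
      intro z b c d hz hb hc' hd h1 h2 h3 h4 h5
      by_cases hne : b = d
      · rw [hne]
      have hbK : b ∈ klay U := ⟨hb, z, hz, adj_kng (adj_symm h1)⟩
      have hdK : d ∈ klay U := ⟨hd, z, hz, adj_kng (adj_symm h2)⟩
      have hcK : c ∈ klay U := ⟨hc', z, hz, dia_kng (dia_symm
        (dia_of_two (adj_symm h1) h3 h2 (adj_symm h4) (Ne.symm hne) (Ne.symm h5)))⟩
      have hbd : Con (klay U) b d := (Jn.single h3 hbK hcK).trans (Jn.single (adj_symm h4) hcK hdK)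
      ext w
      exact ⟨fun hw => (Con.symm' hbd).trans hw, fun hw => hbd.trans hw⟩)
      hu hz huz hu' hz' huz' (hc z hz z' hz')
    have h1 : u' ∈ {w | Con (klay U) u' w} := Jn.refl (Bd_sub_klay ⟨hu', z', huz', hz'⟩)
    rw [← h] at h1
    exact h1
  have near : ∀ u ∈ klay U, ∃ b ∈ Bd U, Con (klay U) u b := by
    rintro u ⟨hu, s, hs, hus⟩
    have huK : u ∈ klay U := ⟨hu, s, hs, hus⟩
    rcases kng_cases hus with h | h | ⟨⟨h1, h2⟩, _⟩
    · exact absurd hu (h ▸ hs)
    · exact ⟨u, ⟨hu, s, h, hs⟩, Jn.refl huK⟩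
    · by_cases ha : ((s.1, u.2) : V) ∈ U
      · have hB : ((s.1, u.2) : V) ∈ Bd U := ⟨ha, s, h2, hs⟩
        exact ⟨_, hB, Jn.single h1 huK (Bd_sub_klay hB)⟩
      · exact ⟨u, ⟨hu, _, h1, ha⟩, Jn.refl huK⟩
  intro u hu v hv
  obtain ⟨b, hb, h1⟩ := near u hu
  obtain ⟨b', hb', h2⟩ := near v hv
  exact h1.trans ((key b hb b' hb').trans (Con.symm' h2))

/-- the complement of a component of a set with king connected complement is king connected -/
theorem compl_comp_kcnn {S : Set V} {x : V} (hS : ∀ z ∉ S, ∀ z' ∉ S, KCon Sᶜ z z')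
    (hne : Sᶜ.Nonempty) : ∀ z ∉ comp S x, ∀ z' ∉ comp S x, KCon (comp S x)ᶜ z z' := by
  obtain ⟨o, ho⟩ := hne
  have key : ∀ u, u ∉ comp S x → KCon (comp S x)ᶜ u o := by
    intro u hu
    by_cases huD : u ∈ S
    · have huniv : Con (Set.univ : Set V) u o := by
        obtain ⟨u1, u2⟩ := u
        obtain ⟨o1, o2⟩ := o
        exact Jn.trans (v := (o1, u2)) (con_row' fun _ _ _ => trivial)
          (con_col' fun _ _ _ => trivial)
      have hself : u ∈ comp S u := mem_comp_self huD
      obtain ⟨a, b, h1, h2, -, h3, -, h4⟩ := huniv.exit (A := comp S u) hself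
        (fun h => ho (comp_sub S u h))
      have hb : b ∉ S := fun hb => h4 (comp_step h3 h2 hb)
      have hdisj : comp S u ⊆ (comp S x)ᶜ := by
        intro w hw hw'
        have e1 : comp S w = comp S u := comp_eq_of_mem hw
        have e2 : comp S w = comp S x := comp_eq_of_mem hw'
        apply hu
        show u ∈ comp S x
        rw [← e2, e1]
        exact hself
      have h5 : KCon (comp S x)ᶜ u a := by
        refine (h1.mono (fun _ _ h => adj_kng h) ?_)
        rintro w ⟨_, hw⟩
        exact hdisj hw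
      have hbC : b ∈ (comp S x)ᶜ := fun h => hb (comp_sub S x h)
      have h6 : KCon (comp S x)ᶜ b o := (hS b hb o ho).mono (fun _ _ h => h)
        (Set.compl_subset_compl.2 (comp_sub S x))
      exact (h5.step (adj_kng h2) hbC).trans h6
    · exact (hS u huD o ho).mono (fun _ _ h => h) (Set.compl_subset_compl.2 (comp_sub S x))
  intro u hu v hv
  exact (key u hu).trans (KCon.symm' (key v hv))

end DV
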