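import Pool.Agent.Helper97.DV.Tk
import Pool.Agent.Helper97.DV.Lc

/-!
# Project DV (MP_973bc8_pr): (T2), nonzero paths near the boundary

If `O = Dᶜ ∪ Z` is king connected and meets the square of radius `r`, then a path of `h ≠ 0` from this
square to the outside of the square of radius `M` makes a crossing of `|h - 2| ≤ 1` or `|h + 2| ≤ 1`.
-/

open Finset RP4

namespace DV

/-- outside sites and zeros -/
def OO (D Z : Finset V) : Set V := {v | v ∉ D ∨ v ∈ Z}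

/-- a connected set that meets the square of radius `n` about `x` but does not contain it has a boundary
site in this square -/
lemma exists_bd_in' {U : Set V} {x u z : V} {n : ℤ} (hu : u ∈ U) (hun : u ∈ Sq x n) (hz : z ∈ Sq x n)
    (hz' : z ∉ U) : ∃ b ∈ Bd U, b ∈ Sq x n := by
  obtain ⟨a, b, h1, h2, h3, h4, h5, h6⟩ := (Sq_cnn x n u hun z hz).exit (A := U) hu hz'
  exact ⟨a, ⟨h4, b, h2, h6⟩, h3⟩

/-- positive paths -/
theorem pos_cross {D Z : Finset V} {p : ℤ} {h : V → ℤ} (hb : bdry D ⊆ Z) (hh : IsHom D p h)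
    (h0 : ∀ v ∈ Z, h v = 0) (hO : ∀ z ∈ OO D Z, ∀ z' ∈ OO D Z, KCon (OO D Z) z z') {x z : V}
    {r M : ℤ} (hz : z ∈ Sq x r) (hzO : z ∈ OO D Z) {u v : V} (hu : u ∈ Sq x r) (hv : v ∉ Sq x M)
    (huv : Con {w | 1 ≤ h w} u v) :
    ∃ u' v', u' ∈ Sq x r ∧ v' ∉ Sq x M ∧ Con {w | w ∈ D ∧ |h w - 2| ≤ 1} u' v' := by
  obtain ⟨A, hA⟩ : ∃ A : Set V, ∀ w, w ∈ A ↔ h w ≤ 0 := ⟨{w | h w ≤ 0}, fun w => Iff.rfl⟩
  have hOA : ∀ w ∈ OO D Z, w ∈ A := by
    intro w hw
    rw [hA]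
    rcases hw with hw | hw
    · rw [hh.off w hw]
    · rw [h0 w hw]
  obtain ⟨S, hS⟩ : ∃ S : Set V, ∀ w, w ∈ S ↔ ∃ o ∈ OO D Z, KCon A o w :=
    ⟨{w | ∃ o ∈ OO D Z, KCon A o w}, fun w => Iff.rfl⟩
  have hOS : ∀ w ∈ OO D Z, w ∈ S := fun w hw => (hS w).2 ⟨w, hw, Jn.refl (hOA w hw)⟩
  have hSA : ∀ w ∈ S, w ∈ A := by
    intro w hw
    obtain ⟨o, _, h1⟩ := (hS w).1 hw
    exact h1.right
  have hSstep : ∀ a b, Kng a b → a ∈ S → b ∈ A → b ∈ S := by
    intro a b hab ha hbA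
    obtain ⟨o, ho, h1⟩ := (hS a).1 ha
    exact (hS b).2 ⟨o, ho, h1.step hab hbA⟩
  have hSc : ∀ a ∈ S, ∀ b ∈ S, KCon S a b := by
    have key : ∀ a ∈ S, ∃ o ∈ OO D Z, KCon S o a := by
      intro a ha
      obtain ⟨o, ho, h1⟩ := (hS a).1 ha
      refine ⟨o, ho, (Jn.restrict (P := fun w => w ∈ S) h1 (hOS o ho) ?_).mono (fun _ _ h => h)
        fun w hw => hw.2⟩
      intro a b hab _ hbA haS
      exact hSstep a b hab haS hbA
    intro a ha b hb'
    obtain ⟨o, ho, h1⟩ := key a ha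
    obtain ⟨o', ho', h2⟩ := key b hb'
    exact (KCon.symm' h1).trans (((hO o ho o' ho').mono (fun _ _ h => h) hOS).trans h2)
  -- the component of the path
  obtain ⟨W, hW⟩ : ∃ W : Set V, W = comp Sᶜ u := ⟨_, rfl⟩
  have hPS : {w | 1 ≤ h w} ⊆ Sᶜ := by
    intro w hw hwS
    have h1 := (hA w).1 (hSA w hwS)
    have h2 : 1 ≤ h w := hw
    omega
  have huW : u ∈ W := by
    rw [hW]
    exact mem_comp_self (hPS huv.left)
  have hvW : v ∈ W := by
    rw [hW]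
    exact huv.mono (fun _ _ h => h) hPS
  have hWS : ∀ w ∈ W, w ∉ S := by
    intro w hw
    rw [hW] at hw
    exact comp_sub _ _ hw
  have hWstep : ∀ a b, Adj a b → a ∈ W → b ∉ S → b ∈ W := by
    intro a b hab ha hbS
    rw [hW] at ha ⊢
    exact comp_step ha hab hbS
  have hWD : ∀ w ∈ W, w ∈ D := by
    intro w hw
    by_contra hwD
    exact hWS w hw (hOS w (Or.inl hwD))
  have hWb : ∀ w ∈ W, ∀ s, Adj w s → s ∈ D := by
    intro w hw s hws
    by_contra hsD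
    exact hWS w hw (hOS w (Or.inr (hb (mem_bdry.2 ⟨hWD w hw, s, adj_symm hws, hsD⟩))))
  have hWc : Cnn W := by
    rw [hW]
    exact comp_cnn _ _
  have hWcc : ∀ z ∉ W, ∀ z' ∉ W, KCon Wᶜ z z' := by
    rw [hW]
    refine compl_comp_kcnn (fun a ha b hb' => ?_) ⟨z, ?_⟩
    · rw [compl_compl]
      exact hSc a (not_not.1 ha) b (not_not.1 hb')
    · rw [compl_compl]
      exact hOS z hzO
  have hWbd : Bdd W := (bdd_coe D).mono hWD
  have hlay : ∀ w ∈ klay W, w ∈ D ∧ |h w - 2| ≤ 1 := by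
    rintro w ⟨hw, s, hs, hws⟩
    refine ⟨hWD w hw, ?_⟩
    have hwA : w ∉ A → 1 ≤ h w := fun h1 => by
      rw [hA] at h1
      omega
    have fin : ∀ t, h w ≤ 2 → t ∈ S → Kng w t → |h w - 2| ≤ 1 := by
      intro t h1 ht hwt
      have h2 : w ∉ A := fun h2 => hWS w hw (hSstep t w (kng_symm hwt) ht h2)
      have h3 := hwA h2
      rw [abs_le]
      omega
    have nn : ∀ t, t ∈ S → Adj w t → |h w - 2| ≤ 1 := by
      intro t ht hwt
      have h1 := hh.step w (hWD w hw) t (hWb w hw t hwt) hwt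
      have h2 := (hA t).1 (hSA t ht)
      have h3 := abs_sub_le_iff.1 h1.le
      exact fin t (by omega) ht (adj_kng hwt)
    rcases kng_cases hws with h1 | h1 | ⟨⟨h1, h2⟩, _⟩
    · exact absurd hw (h1 ▸ hs)
    · exact nn s (by
        by_contra h2
        exact hs (hWstep w s h1 hw h2)) h1
    · by_cases ha : ((s.1, w.2) : V) ∈ S
      · exact nn _ ha h1
      · have haW := hWstep _ _ h1 hw ha
        by_cases hsS : s ∈ S
        · have h3 := hh.step w (hWD w hw) _ (hWD _ haW) h1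
          have h4 := hh.step _ (hWD _ haW) s (hWb _ haW s h2) h2
          have h5 := (hA s).1 (hSA s hsS)
          have h6 := abs_sub_le_iff.1 h3.le
          have h7 := abs_sub_le_iff.1 h4.le
          exact fin s (by omega) hsS hws
        · exact absurd (hWstep _ _ h2 haW hsS) hs
  obtain ⟨b, hbB, hbr⟩ := exists_bd_in' huW hu hz (fun h => hWS z h (hOS z hzO))
  obtain ⟨b', hbB', hbM⟩ := exists_bd_out hWbd hvW hv
  exact ⟨b, b', hbr, hbM, (klay_cnn hWc hWcc b (Bd_sub_klay hbB) b' (Bd_sub_klay hbB')).mono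
    (fun _ _ h => h) hlay⟩

/-- a path of nonzero heights has one sign -/
lemma nonzero_sign {D : Finset V} {p : ℤ} {h : V → ℤ} (hh : IsHom D p h) {u v : V}
    (huv : Con {w | h w ≠ 0} u v) : Con {w | 1 ≤ h w} u v ∨ Con {w | 1 ≤ (-h) w} u v := by
  have hD : ∀ w, h w ≠ 0 → w ∈ D := fun w hw => by
    by_contra h1
    exact hw (hh.off w h1)
  have h0 : h u ≠ 0 := huv.left
  rcases lt_or_gt_of_ne h0 with h1 | h1
  · right
    refine (Jn.restrict (P := fun w => h w ≤ -1) huv (by omega) ?_).mono (fun _ _ h => h)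
      fun w hw => ?_
    · intro a b hab ha hb h2
      have h3 := hh.step a (hD a ha) b (hD b hb) hab
      have h4 := abs_sub_le_iff.1 h3.le
      have h5 : h b ≠ 0 := hb
      omega
    · have h2 : h w ≤ -1 := hw.2
      show 1 ≤ -(h w)
      omega
  · left
    refine (Jn.restrict (P := fun w => 1 ≤ h w) huv (by omega) ?_).mono (fun _ _ h => h)
      fun w hw => hw.2
    intro a b hab ha hb h2
    have h3 := hh.step a (hD a ha) b (hD b hb) hab
    have h4 := abs_sub_le_iff.1 h3.le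
    have h5 : h b ≠ 0 := hb
    omega

/-- nonzero paths -/
theorem nz_cross {D Z : Finset V} {p : ℤ} {h : V → ℤ} (hb : bdry D ⊆ Z) (hh : IsHom D p h)
    (h0 : ∀ v ∈ Z, h v = 0) (hO : ∀ z ∈ OO D Z, ∀ z' ∈ OO D Z, KCon (OO D Z) z z') {x z : V}
    {r M : ℤ} (hz : z ∈ Sq x r) (hzO : z ∈ OO D Z) {u v : V} (hu : u ∈ Sq x r) (hv : v ∉ Sq x M)
    (huv : Con {w | h w ≠ 0} u v) : CrE D x r M h := by
  rcases nonzero_sign hh huv with h1 | h1
  · left
    exact pos_cross hb hh h0 hO hz hzO hu hv h1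
  · right
    obtain ⟨u', v', h2, h3, h4⟩ := pos_cross hb hh.neg (fun v hv => by
      rw [Pi.neg_apply, h0 v hv, neg_zero]) hO hz hzO hu hv h1
    refine ⟨u', v', h2, h3, h4.mono (fun _ _ h => h) ?_⟩
    rintro w ⟨h5, h6⟩
    refine ⟨h5, ?_⟩
    have h7 : (-h) w - 2 = -(h w + 2) := by
      rw [Pi.neg_apply]
      ring
    rwa [h7, abs_neg] at h6

/-- (T2) -/
theorem pr_nz {c : ℝ} {K n0 : ℤ} (hLP : LP c K n0) (hc1 : c ≤ 2) {D Z : Finset V} {p : ℤ}
    (hb : bdry D ⊆ Z) (hZD : Z ⊆ D) (hZ : ∀ v ∈ Z, Even (par v + p))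
    (hO : ∀ z ∈ OO D Z, ∀ z' ∈ OO D Z, KCon (OO D Z) z z') {x z : V} (m : ℕ)
    {r M : ℤ} (hr : 1 ≤ r) (hz : z ∈ Sq x r) (hzO : z ∈ OO D Z)
    (hM : (|n0| + 5) * (2 * |K| + 6) ^ m * r ≤ M) :
    pr (Zs D p Z) (fun h => ∃ u ∈ Sq x r, ∃ v, v ∉ Sq x M ∧ Con {w | h w ≠ 0} u v) ≤
      2 * (1 - c / 2) ^ m := by
  refine (pr_mono fun h hh => ?_).trans (cross_sq_or hLP hc1 hb hZD hZ x m hr hM)
  rintro ⟨u, hu, v, hv, huv⟩
  rw [mem_Zs hb] at hh
  exact nz_cross hb hh.1 hh.2 hO hz hzO hu hv huv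

end DV
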