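import Pool.Agent.Helper97.DV.Sm
import Pool.Agent.Helper86.LG.Lg

/-!
# Project DV (MP_973bc8_pr): (T1), the Beurling estimate for the component of the first level

`D` is an even domain with connected complement, `z ∉ D` is a site of the square of radius `r` about `x`.
The component of `x` off the cluster of `|h| ≤ 1` of the boundary leaves the square of radius `M` with
probability at most `C (r / M) ^ a`.
-/

open Finset RP4

namespace DV

lemma con_of_xcon {S T : Set V} {u v : V} (h : XCon S u v) (hST : S ⊆ T)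
    (hn : ∀ b ∈ S, ∀ w, Adj b w → w ∈ T) : Con T u v := by
  obtain ⟨hu, h⟩ := h
  induction h with
  | refl => exact Jn.refl (hST hu)
  | @tail b c hb hc ih =>
    obtain ⟨⟨h1, h2⟩, h3, h4⟩ := hc
    have e1 : Adj b (c.1, b.2) := by
      unfold Adj
      simp only [sub_self, abs_zero, add_zero]
      exact h1
    have e2 : Adj (c.1, b.2) c := by
      unfold Adj
      simp only [sub_self, abs_zero, zero_add]
      exact h2
    exact (ih.step e1 (hn b h3 _ e1)).step e2 (hST h4)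

/-- the two crossing events -/
def CrE (D : Finset V) (x : V) (r M : ℤ) (h : V → ℤ) : Prop :=
  (∃ u v, u ∈ Sq x r ∧ v ∉ Sq x M ∧ Con {w | w ∈ D ∧ |h w - 2| ≤ 1} u v) ∨
    ∃ u v, u ∈ Sq x r ∧ v ∉ Sq x M ∧ Con {w | w ∈ D ∧ |h w + 2| ≤ 1} u v

lemma CrE_of {D : Finset V} {x : V} {r M : ℤ} {h : V → ℤ} {s : ℤ} (hs : s = 1 ∨ s = -1) {u v : V}
    (hu : u ∈ Sq x r) (hv : v ∉ Sq x M) (huv : Con {w | w ∈ D ∧ |h w - 2 * s| ≤ 1} u v) :
    CrE D x r M h := by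
  rcases hs with rfl | rfl
  · left
    refine ⟨u, v, hu, hv, ?_⟩
    simpa using huv
  · right
    refine ⟨u, v, hu, hv, huv.mono (fun _ _ h => h) ?_⟩
    rintro w ⟨h1, h2⟩
    refine ⟨h1, ?_⟩
    have h3 : h w - 2 * -1 = h w + 2 := by ring
    rwa [h3] at h2

/-- the boundary circuit of a large component makes a crossing -/
theorem ex_cross {D : Finset V} (hD : LG.SC D) {h : V → ℤ} (hh : h ∈ Om D) {x z : V} {r M : ℤ}
    (hr : 0 ≤ r) (hz : z ∈ Sq x r) (hzD : z ∉ D) (hx : x ∈ LG.Ex D h x)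
    (hM : ¬ (LG.Ex D h x : Set V) ⊆ Sq x M) : CrE D x r M h := by
  obtain ⟨y, hy, hyM⟩ := Set.not_subset.1 hM
  have hB := Bd_coe (LG.Ex D h x)
  have hpar : ∀ u ∈ Bd (LG.Ex D h x : Set V), ∀ v ∈ Bd (LG.Ex D h x : Set V), ¬ Adj u v := by
    refine not_adj_of_par (q := 0) fun b hb => ?_
    rw [hB] at hb
    exact LG.Ex_par hh b hb
  have hc := LG.Ex_compl_cnn (x := x) hD.con hh
  obtain ⟨u, u', hu, hu', huu⟩ := bd_arm (U := (LG.Ex D h x : Set V)) (bdd_coe _) hpar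
    (by rw [LG.coe_Ex]; exact comp_cnn _ _)
    (fun z hz z' hz' => (hc z hz z' hz').mono (fun _ _ => adj_kng) (fun _ h => h)) hr hx hz
    (fun h1 => hzD (LG.Ex_sub h1)) hy hyM
  have hs := LG.sg_or (LG.Ex D h x) h
  have hval : ∀ b ∈ Bd (LG.Ex D h x : Set V), h b = 2 * LG.sg (LG.Ex D h x) h := by
    intro b hb
    rw [hB] at hb
    exact LG.sg_spec hD.con hh hb
  refine CrE_of hs hu hu' (con_of_xcon huu ?_ ?_)
  · intro b hb
    refine ⟨LG.Ex_sub hb.1, ?_⟩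
    rw [hval b hb, sub_self]
    norm_num
  · intro b hb w hbw
    have hbE : b ∈ LG.Ex D h x := hb.1
    have hwD : w ∈ D := by
      by_contra hwD
      exact LG.Ex_not_Cb hbE (LG.bdry_sub_Cb hh (mem_bdry.2 ⟨LG.Ex_sub hbE, w, adj_symm hbw, hwD⟩))
    refine ⟨hwD, ?_⟩
    have h1 := (mem_Om.1 hh).1.step w hwD b (LG.Ex_sub hbE) (adj_symm hbw)
    rw [hval b hb] at h1
    exact h1.le

/-- both crossing events have a small probability -/
theorem pr_CrE {c : ℝ} {K n0 : ℤ} (hLP : LP c K n0) (hc1 : c ≤ 2) {D : Finset V}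
    (hD : BdryPar D 0) (x : V) (m : ℕ) {r M : ℤ} (hr : 1 ≤ r)
    (hM : (|n0| + 5) * (2 * |K| + 6) ^ m * r ≤ M) :
    pr (Om D) (CrE D x r M) ≤ 2 * (1 - c / 2) ^ m :=
  cross_sq_or hLP hc1 le_rfl (bdry_subset D) (fun v hv => by
    have h1 := hD v hv
    simpa using h1) x m hr hM

/-- (T1) -/
theorem pr_ex {c : ℝ} {K n0 : ℤ} (hLP : LP c K n0) (hc1 : c ≤ 2) {D : Finset V}
    (hD : LG.SC D) {x z : V} (m : ℕ) {r M : ℤ} (hr : 1 ≤ r) (hz : z ∈ Sq x r) (hzD : z ∉ D)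
    (hM : (|n0| + 5) * (2 * |K| + 6) ^ m * r ≤ M) :
    pr (Om D) (fun h => x ∈ LG.Ex D h x ∧ ¬ (LG.Ex D h x : Set V) ⊆ Sq x M) ≤
      2 * (1 - c / 2) ^ m :=
  (pr_mono fun _ hh h1 => ex_cross hD hh (by omega) hz hzD h1.1 h1.2).trans
    (pr_CrE hLP hc1 hD.par x m hr hM)

lemma pr_ind (A : Finset (V → ℤ)) (E : (V → ℤ) → Prop) : avg A (fun h => LG.ind (E h)) = pr A E := by
  unfold pr LG.ind
  rfl

lemma exists_pow_small {c : ℝ} (hc : 0 < c) (_hc1 : c ≤ 2) {ε : ℝ} (hε : 0 < ε) :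
    ∃ m : ℕ, 2 * (1 - c / 2) ^ m ≤ ε := by
  obtain ⟨m, hm⟩ := exists_pow_lt_of_lt_one (show (0 : ℝ) < ε / 2 by linarith)
    (show 1 - c / 2 < 1 by linarith)
  exact ⟨m, by linarith⟩

/-- the input of block LG -/
theorem exists_Bq {c : ℝ} {K n0 : ℤ} (hLP : LP c K n0) (hc : 0 < c) (hc1 : c ≤ 2) :
    ∃ M : ℕ, 1 ≤ M ∧ LG.Bq M := by
  obtain ⟨m, hm⟩ := exists_pow_small hc hc1 (ε := 1 / 2) (by norm_num)
  obtain ⟨M, hM⟩ : ∃ M : ℕ, (M : ℤ) = (|n0| + 5) * (2 * |K| + 6) ^ m :=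
    ⟨((|n0| + 5) * (2 * |K| + 6) ^ m).toNat, Int.toNat_of_nonneg (by positivity)⟩
  refine ⟨M, ?_, ?_⟩
  · have h1 : (0 : ℤ) < (|n0| + 5) * (2 * |K| + 6) ^ m := by positivity
    omega
  · rintro D hD x _ ρ hρ ⟨z, hz, hzD⟩
    rw [pr_ind]
    refine (pr_ex hLP hc1 hD m (r := (ρ : ℤ)) (by exact_mod_cast hρ) hz hzD ?_).trans hm
    push_cast
    rw [hM]

end DV
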