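import Pool.Agent.Helper97.DV.Nr
import Pool.Agent.Helper63.RP4.A03s

/-!
# Project DV (MP_973bc8_pr): the LOOP hypothesis and its one-signed version in an annulus

`LP c K n0`: in every zero environment that is free of zeros in the annulus between radius `n` and
`K n`, with probability at least `c` no path of `|h| ≤ 1` crosses the annulus.
-/

open Finset RP4

namespace DV

/-- LOOP -/
def LP (c : ℝ) (K n0 : ℤ) : Prop :=
  ∀ n : ℤ, n0 ≤ n → ∀ (x : V) (D : Finset V) (p : ℤ) (Z : Finset V), bdry D ⊆ Z → Z ⊆ D →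
    (∀ v ∈ Z, Even (par v + p)) →
    (∀ v ∈ Sq x (K * n), v ∉ Sq x (n - 1) → v ∈ D ∧ v ∉ Z) →
    c ≤ pr (Zs D p Z) fun h => ¬ ∃ u ∈ Sq x n, ∃ v, v ∉ Sq x (K * n - 1) ∧ Con {w | |h w| ≤ 1} u v

open Classical in
/-- the two spheres -/
noncomputable def SphF (x : V) (R R' : ℤ) : Finset V :=
  (Ann x R R').filter fun v => nr x v = R ∨ nr x v = R'

lemma mem_SphF {x v : V} {R R' : ℤ} (hRR : R ≤ R') :
    v ∈ SphF x R R' ↔ nr x v = R ∨ nr x v = R' := by
  unfold SphF
  rw [Finset.mem_filter, mem_Ann]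
  constructor
  · exact fun h => h.2
  · intro h
    refine ⟨?_, h⟩
    omega

lemma bdry_sub_SphF {x : V} {R R' : ℤ} (hRR : R ≤ R') : bdry (Ann x R R') ⊆ SphF x R R' := by
  intro v hv
  rw [mem_SphF hRR]
  exact (bdry_Ann hv).2

lemma SphF_sub {x : V} {R R' : ℤ} : SphF x R R' ⊆ Ann x R R' := by
  unfold SphF
  exact Finset.filter_subset _ _

lemma nbr_in {x u : V} (h : 1 ≤ nr x u) : ∃ z, Adj u z ∧ nr x z = nr x u - 1 := by
  obtain ⟨u1, u2⟩ := u
  obtain ⟨x1, x2⟩ := x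
  unfold nr at h ⊢
  simp only at h ⊢
  by_cases h1 : x1 < u1
  · refine ⟨(u1 - 1, u2), by simp [Adj], ?_⟩
    simp only
    rw [abs_of_nonneg (by omega : (0 : ℤ) ≤ u1 - 1 - x1), abs_of_nonneg (by omega : (0 : ℤ) ≤ u1 - x1)]
    ring
  · by_cases h2 : u1 < x1
    · refine ⟨(u1 + 1, u2), by simp [Adj], ?_⟩
      simp only
      rw [abs_of_nonpos (by omega : u1 + 1 - x1 ≤ 0), abs_of_nonpos (by omega : u1 - x1 ≤ 0)]
      ring
    · have h3 : u1 = x1 := by omega
      subst h3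
      simp only [sub_self, abs_zero, zero_add] at h ⊢
      by_cases h4 : x2 < u2
      · refine ⟨(u1, u2 - 1), by simp [Adj], ?_⟩
        simp only [sub_self, abs_zero, zero_add]
        rw [abs_of_nonneg (by omega : (0 : ℤ) ≤ u2 - 1 - x2),
          abs_of_nonneg (by omega : (0 : ℤ) ≤ u2 - x2)]
        ring
      · refine ⟨(u1, u2 + 1), by simp [Adj], ?_⟩
        simp only [sub_self, abs_zero, zero_add]
        have h5 : u2 ≠ x2 := by
          rintro rfl
          simp at h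
        rw [abs_of_nonpos (by omega : u2 + 1 - x2 ≤ 0), abs_of_nonpos (by omega : u2 - x2 ≤ 0)]
        ring

/-- if no path of `|h| ≤ 1` crosses then no path of `h ≤ 1` crosses or no path of `-1 ≤ h` crosses -/
theorem sign_ann {x : V} {R R' p : ℤ} {h : V → ℤ} (hR : 1 ≤ R) (hRR : R < R')
    (hh : IsHom (Ann x R R') p h) (h0 : ∀ v, nr x v = R ∨ nr x v = R' → h v = 0)
    (hc : ¬ Crs x R R' {w | |h w| ≤ 1}) :
    ¬ Crs x R R' {w | h w ≤ 1} ∨ ¬ Crs x R R' {w | -1 ≤ h w} := by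
  obtain ⟨S0, hS0⟩ : ∃ S0 : Set V, S0 = {w | w ∈ {w | |h w| ≤ 1} ∧ R ≤ nr x w ∧ nr x w ≤ R'} :=
    ⟨_, rfl⟩
  obtain ⟨I, hI⟩ : ∃ I : Set V, I = {v | nr x v = R} := ⟨_, rfl⟩
  obtain ⟨C, hCd⟩ : ∃ C : Set V, C = {v | nr x v < R} ∪ clus S0 I := ⟨_, rfl⟩
  have mS : ∀ w, w ∈ S0 ↔ |h w| ≤ 1 ∧ R ≤ nr x w ∧ nr x w ≤ R' := fun w => by
    rw [hS0]
    rfl
  have hIS : ∀ u ∈ I, u ∈ S0 := fun u hu => by
    rw [hI] at hu
    have hu' : nr x u = R := hu
    rw [mS, h0 u (Or.inl hu'), hu']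
    exact ⟨by norm_num, le_rfl, hRR.le⟩
  have hIC : ∀ u ∈ I, u ∈ C := fun u hu => by
    rw [hCd]
    exact Or.inr (sub_clus hu (hIS u hu))
  have hCR : ∀ v ∈ C, nr x v < R' := by
    intro v hv
    rw [hCd] at hv
    rcases hv with hv | ⟨u, hu, hv⟩
    · have hv' : nr x v < R := hv
      omega
    · have h1 := (mS v).1 hv.right
      rcases h1.2.2.lt_or_eq with h2 | h2
      · exact h2
      · exfalso
        apply hc
        rw [hI] at hu
        refine ⟨u, v, hu, h2, ?_⟩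
        rw [← hS0]
        exact hv
  have hCx : ∀ v ∈ C, Con C v x := by
    have hball : ∀ v, nr x v < R → Con C v x := fun v hv =>
      (ball_con hv).mono (fun _ _ h => h) fun w hw => by
        rw [hCd]
        exact Or.inl hw
    intro v hv
    have hv0 := hv
    rw [hCd] at hv
    rcases hv with hv | ⟨u, hu, hv⟩
    · exact hball v hv
    · have h1 : Con C u v := (clus_con (sub_clus hu (hIS u hu)) hv).mono (fun _ _ h => h)
        fun w hw => by
          rw [hCd]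
          exact Or.inr hw
      have hu' : nr x u = R := by
        rw [hI] at hu
        exact hu
      obtain ⟨z, h2, h3⟩ := nbr_in (x := x) (u := u) (by omega)
      have h4 := hball z (by omega)
      exact (Con.symm' h1).trans ((Jn.single h2 (hIC u hu) h4.left).trans h4)
  have hCc : Cnn C := fun u hu v hv => (hCx u hu).trans (Con.symm' (hCx v hv))
  have hCb : Bdd C := (bdd_Sq x R').mono fun v hv => Sq_of_nr_le (hCR v hv).le
  have hl : ∀ v ∈ lay C, ∀ z ∈ C, Adj v z → v ∈ Ann x R R' ∧ |h v| = 2 ∧ h v = 2 * h z := by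
    intro v hv z hz hvz
    have hvC : v ∉ C := fun h => ext_sub C hv.1 h
    have h1 := nr_adj (x := x) hvz
    have h2 := hCR z hz
    have h3 : R ≤ nr x v := by
      by_contra h3
      exact hvC (by rw [hCd]; exact Or.inl (not_le.1 h3))
    have hvI : nr x v ≠ R := fun h3 => hvC (hIC v (by rw [hI]; exact h3))
    rw [abs_eq (by norm_num)] at h1
    have hzR : ¬ nr x z < R := by omega
    have hzc : z ∈ clus S0 I := by
      rw [hCd] at hz
      exact hz.resolve_left hzR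
    have hzS := (mS z).1 (clus_sub _ _ hzc)
    have hvA : v ∈ Ann x R R' := mem_Ann.2 ⟨h3, by omega⟩
    have hvS : ¬ |h v| ≤ 1 := fun h4 => hvC (by
      rw [hCd]
      exact Or.inr (clus_step hzc (adj_symm hvz) ((mS v).2 ⟨h4, h3, by omega⟩)))
    have h5 := hh.step v hvA z (mem_Ann.2 hzS.2) hvz
    have h6 := hzS.1
    refine ⟨hvA, ?_⟩
    rcases abs_cases (h v) with h7 | h7 <;> rcases abs_cases (h z) with h8 | h8 <;>
      rcases abs_cases (h v - h z) with h9 | h9 <;> rw [h7.1] at hvS ⊢ <;> rw [h8.1] at h6 <;>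
      rw [h9.1] at h5 <;> constructor <;> omega
  have hpar : ∀ u ∈ lay C, ∀ v ∈ lay C, ¬ Adj u v := by
    have key : ∀ b ∈ lay C, Even (par b - -p) := by
      intro b hb
      obtain ⟨h1, z, h2, h3⟩ := hb
      obtain ⟨h4, h5, h6⟩ := hl b ⟨h1, z, h2, h3⟩ z h2 h3
      have h7 := hh.par b h4
      rw [h6, Int.even_iff] at h7
      rw [Int.even_iff]
      omega
    intro u hu v hv
    rw [← Bd_ext] at hu hv key
    exact not_adj_of_par key u hu v hv
  have hconst : ∀ u ∈ lay C, ∀ u' ∈ lay C, h u = h u' := by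
    intro u hu u' hu'
    refine lay_const (s := h) hCb hCc hpar ?_ hu hu'
    intro z b c d hz hb _ hd h1 h2 _ _ _
    rw [(hl b hb z hz (adj_symm h1)).2.2, (hl d hd z hz (adj_symm h2)).2.2]
  have key : ∀ P : Set V, Crs x R R' P → ∃ v ∈ lay C, v ∈ P := by
    rintro P ⟨a, b, ha, hb, hab⟩
    have haC : a ∈ C := hIC a (by rw [hI]; exact ha)
    have hbE : b ∈ ext C := ray_ext hCR hb.ge
    obtain ⟨a', b', _, h2, _, h4, h5, h6⟩ := hab.exit (A := fil C) (sub_fil C haC)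
      (fun h => h hbE)
    have h7 : b' ∈ ext C := by
      by_contra h
      exact h6 h
    have h8 : a' ∈ C := ext_bd h7 (adj_symm h2) fun h => h4 h
    exact ⟨b', ⟨h7, a', h8, adj_symm h2⟩, h5.1⟩
  by_contra hcon
  rw [not_or, not_not, not_not] at hcon
  obtain ⟨v, hv, hv1⟩ := key _ hcon.1
  obtain ⟨u, hu, hu1⟩ := key _ hcon.2
  have hv1' : h v ≤ 1 := hv1
  have hu1' : -1 ≤ h u := hu1
  have e1 := hconst v hv u hu
  obtain ⟨_, z, h2, h3⟩ := id hv
  have e2 := (hl v hv z h2 h3).2.1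
  rcases abs_cases (h v) with h7 | h7 <;> rw [h7.1] at e2 <;> omega

lemma pr_neg_Zs {D : Finset V} {p : ℤ} {Z : Finset V} (hZ : bdry D ⊆ Z) (E : (V → ℤ) → Prop) :
    pr (Zs D p Z) (fun h => E (-h)) = pr (Zs D p Z) E := by
  classical
  exact avg_neg_Zs hZ fun g => if E g then 1 else 0

/-- the one-signed version in a free annulus -/
theorem pr_ann {c : ℝ} {K n0 : ℤ} (hLP : LP c K n0) {n : ℤ} {x : V} {R R' p : ℤ} (hn : n0 ≤ n)
    (hR : 1 ≤ R) (hRn : R ≤ n - 1) (hR' : 2 * (K * n) + 1 ≤ R') (hRR : R < R')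
    (hp : Even (R + par x + p)) (hp' : Even (R' + par x + p)) :
    c / 2 ≤ pr (Zs (Ann x R R') p (SphF x R R')) fun h => ¬ Crs x R R' {w | h w ≤ 1} := by
  have hb := bdry_sub_SphF (x := x) hRR.le
  have h1 := hLP n hn x (Ann x R R') p (SphF x R R') hb SphF_sub (fun v hv => by
    rw [mem_SphF hRR.le] at hv
    have h2 := nr_par x v
    rw [Int.even_iff] at h2 hp hp' ⊢
    omega) (fun v hv hv' => by
    have h2 := nr_le_of_Sq hv
    have h3 : n ≤ nr x v := by
      by_contra h3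
      exact hv' (Sq_of_nr_le (by omega))
    rw [mem_Ann, mem_SphF hRR.le]
    omega)
  have h2 : c ≤ pr (Zs (Ann x R R') p (SphF x R R')) fun h =>
      (¬ Crs x R R' {w | h w ≤ 1}) ∨ ¬ Crs x R R' {w | -1 ≤ h w} := by
    refine h1.trans (pr_mono fun h hh h3 => ?_)
    rw [mem_Zs hb] at hh
    refine sign_ann hR hRR hh.1 (fun v hv => hh.2 v ((mem_SphF hRR.le).2 hv)) ?_
    rintro ⟨a, b, ha, hb', hab⟩
    refine h3 ⟨a, Sq_of_nr_le (by omega), b, fun h4 => ?_, hab.mono (fun _ _ h => h) fun w hw => hw.1⟩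
    have h5 := nr_le_of_Sq h4
    omega
  have h3 := pr_or_le (Zs (Ann x R R') p (SphF x R R')) (fun h => ¬ Crs x R R' {w | h w ≤ 1})
    (fun h => ¬ Crs x R R' {w | -1 ≤ h w})
  have h4 : pr (Zs (Ann x R R') p (SphF x R R')) (fun h => ¬ Crs x R R' {w | -1 ≤ h w}) =
      pr (Zs (Ann x R R') p (SphF x R R')) fun h => ¬ Crs x R R' {w | h w ≤ 1} := by
    rw [← pr_neg_Zs hb]
    refine pr_congr fun h _ => not_congr (Crs.congr fun w _ _ => ?_)
    show -1 ≤ -(h w) ↔ h w ≤ 1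
    constructor <;> intro h <;> omega
  linarith

end DV
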