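import Pool.Agent.Helper97.DV.Un
import Pool.Agent.Helper94.BR.Bl

/-!
# Project DV (MP_973bc8_pr), upper half, (U3): blocks of level 0 around a boundary point

`nz_pow` : (T2) next to a wall, with a power of the ratio of the radii.
`not_bk` : in a king connected even domain with a boundary vertex in the ball of radius `r` around `p`, the
block of radii `r < R` around `p` fails with probability at most `C (r / R) ^ a`.
-/

open Finset RP4 Filter Topology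

namespace DV

open GF (Pl)

/-- from geometric scales to a power of the ratio -/
lemma pow_form {q : ℝ} (hq0 : 0 < q) (hq1 : q < 1) {T Q : ℤ} (hT : 2 ≤ T) (hQ : 1 ≤ Q) :
    ∃ C a : ℝ, 0 ≤ C ∧ 0 < a ∧ ∀ (P : ℝ) (r M : ℤ), P ≤ 1 → 1 ≤ r → 1 ≤ M →
      (∀ k : ℕ, Q * T ^ k * r ≤ M → P ≤ 2 * q ^ k) → P ≤ C * ((r : ℝ) / M) ^ a := by
  have hT' : (2 : ℝ) ≤ T := by exact_mod_cast hT
  have hQ' : (1 : ℝ) ≤ Q := by exact_mod_cast hQ
  have hT0 : (0 : ℝ) ≤ T := by linarith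
  have hlT : 0 < Real.log T := Real.log_pos (by linarith)
  have hlq : Real.log q < 0 := Real.log_neg hq0 hq1
  obtain ⟨a, ha⟩ : ∃ a : ℝ, a = -Real.log q / Real.log T := ⟨_, rfl⟩
  have ha0 : 0 < a := by
    rw [ha]
    exact div_pos (by linarith) hlT
  have hTa : (T : ℝ) ^ a = q⁻¹ := by
    rw [Real.rpow_def_of_pos (by linarith), ha, mul_div_cancel₀ _ hlT.ne', Real.exp_neg,
      Real.exp_log hq0]
  have hQa : 0 < (Q : ℝ) ^ a := Real.rpow_pos_of_pos (by linarith) a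
  refine ⟨2 / q * (Q : ℝ) ^ a, a, by positivity, ha0, ?_⟩
  intro P r M hP hr hM hk
  have hr' : (1 : ℝ) ≤ r := by exact_mod_cast hr
  have hM' : (1 : ℝ) ≤ M := by exact_mod_cast hM
  obtain ⟨X, hX⟩ : ∃ X : ℝ, X = M / (Q * r) := ⟨_, rfl⟩
  have hX0 : 0 < X := by
    rw [hX]
    positivity
  have hXa : 0 < X ^ a := Real.rpow_pos_of_pos hX0 a
  have e1 : (Q : ℝ) ^ a * ((r : ℝ) / M) ^ a = (X ^ a)⁻¹ := by
    rw [← Real.mul_rpow (by linarith) (by positivity), ← Real.inv_rpow hX0.le, hX]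
    congr 1
    rw [inv_div, mul_div_assoc]
  rw [mul_assoc, e1]
  by_cases h1 : X < 1
  · have h2 : X ^ a ≤ 1 := Real.rpow_le_one hX0.le h1.le ha0.le
    have h4 : 1 ≤ (X ^ a)⁻¹ := (one_le_inv₀ hXa).2 h2
    have h5 : 1 ≤ 2 / q := by
      rw [le_div_iff₀ hq0]
      linarith
    nlinarith
  · push Not at h1
    obtain ⟨k, hk1, hk2⟩ := exists_nat_pow_near h1 (by linarith : (1 : ℝ) < T)
    have h2 : Q * T ^ k * r ≤ M := by
      have h3 : (Q : ℝ) * T ^ k * r ≤ M := by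
        rw [hX, le_div_iff₀ (by positivity)] at hk1
        linarith
      exact_mod_cast h3
    have h3 := hk k h2
    have h4 : X ^ a ≤ (q ^ (k + 1))⁻¹ := by
      have h5 : X ^ a ≤ ((T : ℝ) ^ (k + 1)) ^ a := Real.rpow_le_rpow hX0.le hk2.le ha0.le
      have h6 : ((T : ℝ) ^ (k + 1)) ^ a = (q ^ (k + 1))⁻¹ := by
        rw [← Real.rpow_natCast, ← Real.rpow_mul hT0, mul_comm, Real.rpow_mul hT0, hTa,
          Real.rpow_natCast, inv_pow]
      linarith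
    have h7 : q ^ (k + 1) ≤ (X ^ a)⁻¹ := by
      rw [le_inv_comm₀ (pow_pos hq0 _) hXa]
      exact h4
    calc P ≤ 2 * q ^ k := h3
      _ = 2 / q * q ^ (k + 1) := by
        rw [pow_succ]
        field_simp
      _ ≤ 2 / q * (X ^ a)⁻¹ := mul_le_mul_of_nonneg_left h7 (by positivity)

lemma pr_le_one' (A : Finset (V → ℤ)) (E : (V → ℤ) → Prop) : pr A E ≤ 1 := by
  classical
  rw [pr_eq]
  rcases A.eq_empty_or_nonempty with h | h
  · rw [h]
    simp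
  · rw [div_le_one (by exact_mod_cast h.card_pos)]
    exact_mod_cast Finset.card_filter_le _ _

/-- (T2) next to a wall, with a rate -/
theorem nz_pow : ∃ C a : ℝ, 0 ≤ C ∧ 0 < a ∧ ∀ (D Z : Finset V) (p : ℤ), bdry D ⊆ Z →
    Z ⊆ D → (∀ v ∈ Z, Even (par v + p)) → ∀ (x z z' : V) (r M : ℤ), 1 ≤ r → 1 ≤ M → z ∈ Sq x r →
    z' ∉ Sq x M → KCon (OO D Z) z z' →
    pr (Zs D p Z) (fun h => ∃ u ∈ Sq x r, ∃ v, v ∉ Sq x M ∧ Con {w | h w ≠ 0} u v) ≤
      C * ((r : ℝ) / M) ^ a := by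
  obtain ⟨c, K, n0, hc, hc1, _, _, hLP⟩ := exists_LP1
  have hK := abs_nonneg K
  have hn := abs_nonneg n0
  obtain ⟨C, a, hC, ha, h⟩ := pow_form (q := 1 - c / 2) (by linarith) (by linarith)
    (T := 2 * |K| + 6) (Q := |n0| + 5) (by omega) (by omega)
  refine ⟨C, a, hC, ha, ?_⟩
  intro D Z p hb hZD hZ x z z' r M hr hM hz hz' hzz
  exact h _ r M (pr_le_one' _ _) hr hM fun k hk =>
    pr_nz2 hLP (by linarith) hb hZD hZ k hr hz hz' hzz hk

/-- there are far sites off `D` -/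
lemma exists_far' (D : Finset V) (x : V) (M : ℤ) : ∃ z, z ∉ D ∧ z ∉ Sq x M := by
  have hinf : {v : V | M + x.1 < v.1}.Infinite := by
    refine Set.infinite_of_injective_forall_mem (f := fun j : ℕ => ((M + x.1 + 1 + j, 0) : V)) ?_ ?_
    · intro a b hab
      have h1 := congrArg Prod.fst hab
      simp only at h1
      omega
    · intro j
      show M + x.1 < M + x.1 + 1 + (j : ℤ)
      omega
  obtain ⟨z, hz, hzD⟩ := hinf.exists_notMem_finset D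
  refine ⟨z, hzD, ?_⟩
  rintro ⟨h1, -⟩
  have h2 : M + x.1 < z.1 := hz
  have h3 := le_abs_self (z.1 - x.1)
  omega

/-- the lattice site at the lower left of `p` -/
noncomputable def fl (δ : ℝ) (p : Pl) : V := (⌊p.1 / δ⌋, ⌊p.2 / δ⌋)

lemma fl_near {δ : ℝ} (hδ : 0 < δ) {p : Pl} {v : V} {ρ : ℝ} (h : dist (pt δ v) p ≤ ρ) {n : ℤ}
    (hn : ρ / δ + 1 < n + 1) : v ∈ Sq (fl δ p) n := by
  rw [Prod.dist_eq, max_le_iff, Real.dist_eq, Real.dist_eq] at h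
  unfold pt at h
  have key : ∀ (a : ℤ) (c : ℝ), |δ * (a : ℝ) - c| ≤ ρ → |a - ⌊c / δ⌋| ≤ n := by
    intro a c hc
    have h1 := Int.floor_le (c / δ)
    have h2 := Int.lt_floor_add_one (c / δ)
    have h3 : δ * (c / δ) = c := mul_div_cancel₀ c hδ.ne'
    have h4 : |(a : ℝ) - c / δ| ≤ ρ / δ := by
      rw [le_div_iff₀ hδ, ← abs_of_pos hδ, ← abs_mul, abs_of_pos hδ]
      have h5 : ((a : ℝ) - c / δ) * δ = δ * a - c := by
        rw [sub_mul, mul_comm (c / δ), h3, mul_comm]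
      rw [h5]
      exact hc
    rw [abs_le] at h4
    have h5 : |((a - ⌊c / δ⌋ : ℤ) : ℝ)| < n + 1 := by
      rw [abs_lt]
      push_cast
      constructor <;> linarith [h4.1, h4.2]
    have h6 : |a - ⌊c / δ⌋| < n + 1 := by exact_mod_cast h5
    omega
  exact ⟨key _ _ h.1, key _ _ h.2⟩

lemma fl_far {δ : ℝ} (hδ : 0 < δ) {p : Pl} {v : V} {n : ℤ} (h : v ∈ Sq (fl δ p) n) :
    dist (pt δ v) p ≤ δ * (n + 1) := by
  rw [Prod.dist_eq, max_le_iff, Real.dist_eq, Real.dist_eq]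
  unfold pt
  have key : ∀ (a : ℤ) (c : ℝ), |a - ⌊c / δ⌋| ≤ n → |δ * (a : ℝ) - c| ≤ δ * (n + 1) := by
    intro a c hc
    have h1 := Int.floor_le (c / δ)
    have h2 := Int.lt_floor_add_one (c / δ)
    have h3 : δ * (c / δ) = c := mul_div_cancel₀ c hδ.ne'
    have h4 : |((a - ⌊c / δ⌋ : ℤ) : ℝ)| ≤ n := by exact_mod_cast hc
    push_cast at h4
    rw [abs_le] at h4
    have h5 : δ * (a : ℝ) - c = δ * (a - c / δ) := by
      rw [mul_sub, h3]
    rw [h5, abs_mul, abs_of_pos hδ]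
    refine mul_le_mul_of_nonneg_left ?_ hδ.le
    rw [abs_le]
    constructor <;> linarith [h4.1, h4.2]
  exact ⟨key _ _ h.1, key _ _ h.2⟩

/-- the flat configurations -/
lemma Om_Zs (D : Finset V) : Om D = Zs D 0 (bdry D) := by
  ext h
  rw [mem_Zs (Finset.Subset.refl _), mem_Om]

/-- (U3) blocks around a boundary vertex, fixed mesh -/
theorem not_bk : ∃ C a : ℝ, 0 ≤ C ∧ 0 < a ∧ ∀ D : Finset V, KO D → ∀ (p : Pl) (δ r R : ℝ), 0 < δ →
    δ ≤ r → 0 < R → (∃ z ∈ OO D (bdry D), dist (pt δ z) p ≤ r) →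
    pr (Om D) (fun h => ¬ Bk 0 δ p r R h) ≤ C * (r / R) ^ a := by
  obtain ⟨C, a, hC, ha, H⟩ := nz_pow
  have h6 : 0 < (6 : ℝ) ^ a := Real.rpow_pos_of_pos (by norm_num) a
  have h8 : 0 < (8 : ℝ) ^ a := Real.rpow_pos_of_pos (by norm_num) a
  refine ⟨C * 6 ^ a + 8 ^ a, a, by positivity, ha, ?_⟩
  rintro D hD p δ r R hδ hr hR ⟨z, hz, hzp⟩
  have hr0 : 0 < r := by linarith
  have hra : 0 ≤ (r / R) ^ a := Real.rpow_nonneg (by positivity) a
  by_cases hrR : R < 8 * r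
  · have h1 : 1 ≤ 8 ^ a * (r / R) ^ a := by
      rw [← Real.mul_rpow (by norm_num) (by positivity)]
      refine Real.one_le_rpow ?_ ha.le
      rw [← mul_div_assoc, le_div_iff₀ hR]
      linarith
    have h2 := pr_le_one' (Om D) (fun h => ¬ Bk 0 δ p r R h)
    nlinarith [mul_nonneg (mul_nonneg hC h6.le) hra]
  push Not at hrR
  have hRδ : 8 ≤ R / δ := by
    rw [le_div_iff₀ hδ]
    linarith
  have hrδ : 1 ≤ r / δ := by
    rw [le_div_iff₀ hδ]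
    linarith
  obtain ⟨n, hn⟩ : ∃ n : ℤ, n = ⌊r / δ⌋ + 2 := ⟨_, rfl⟩
  obtain ⟨M, hM⟩ : ∃ M : ℤ, M = ⌊R / δ⌋ - 3 := ⟨_, rfl⟩
  have n1 := Int.floor_le (r / δ)
  have n2 := Int.lt_floor_add_one (r / δ)
  have m1 := Int.floor_le (R / δ)
  have m2 := Int.lt_floor_add_one (R / δ)
  have hnr : (n : ℝ) = ⌊r / δ⌋ + 2 := by
    rw [hn]
    push_cast
    ring
  have hMr : (M : ℝ) = ⌊R / δ⌋ - 3 := by
    rw [hM]
    push_cast
    ring
  have hn1 : 1 ≤ n := by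
    have h1 : (1 : ℤ) ≤ ⌊r / δ⌋ := Int.le_floor.2 (by exact_mod_cast hrδ)
    omega
  have hM1 : 1 ≤ M := by
    have h1 : (8 : ℤ) ≤ ⌊R / δ⌋ := Int.le_floor.2 (by exact_mod_cast hRδ)
    omega
  obtain ⟨z', hz'D, hz'⟩ := exists_far' D (fl δ p) M
  have hcon := hD.con z hz z' (Or.inl hz'D)
  have h1 := H D (bdry D) 0 (Finset.Subset.refl _) (bdry_subset D) (fun v hv => by
    have h2 := hD.par v hv
    rw [sub_zero] at h2
    rw [add_zero]
    exact h2) (fl δ p) z z' n M hn1 hM1 (fl_near hδ hzp (by rw [hnr]; linarith)) hz' hcon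
  rw [← Om_Zs] at h1
  have h2 : ((n : ℝ) / M) ^ a ≤ 6 ^ a * (r / R) ^ a := by
    rw [← Real.mul_rpow (by norm_num) (by positivity)]
    have hM0 : (0 : ℝ) < M := by exact_mod_cast (by omega : 0 < M)
    have hn0 : (0 : ℝ) < n := by exact_mod_cast (by omega : 0 < n)
    refine Real.rpow_le_rpow (by positivity) ?_ ha.le
    have e1 : (n : ℝ) ≤ 3 * (r / δ) := by rw [hnr]; linarith
    have e2 : R / δ ≤ 2 * M := by rw [hMr]; linarith
    have e3 : 6 * (r / R) = 3 * (r / δ) / (R / δ / 2) := by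
      field_simp
      ring
    rw [e3]
    exact div_le_div₀ (by positivity) e1 (by positivity) (by linarith)
  have h3 : pr (Om D) (fun h => ¬ Bk 0 δ p r R h) ≤ pr (Om D) (fun h => ∃ u ∈ Sq (fl δ p) n,
      ∃ v, v ∉ Sq (fl δ p) M ∧ Con {w | h w ≠ 0} u v) := by
    refine pr_mono fun h _ hh => ?_
    have hh' : ¬ Sep (Inn δ p r) (Out δ p R) h := by
      intro hs
      refine hh ?_
      show Sep (Inn δ p r) (Out δ p R) (lev 0 h)
      rw [lev_zero]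
      exact hs
    unfold Sep at hh'
    push Not at hh'
    obtain ⟨u, hu, v, hv, huv⟩ := hh'
    refine ⟨u, fl_near hδ (nb_Inn hδ hu) ?_, v, ?_, huv⟩
    · rw [add_div, div_self hδ.ne', hnr]
      linarith
    · intro hv'
      have h4 := fl_far hδ hv'
      have h5 := nb_Out hδ hv
      have h6 : δ * (M + 1) < R - δ := by
        have h7 : δ * (R / δ) = R := mul_div_cancel₀ R hδ.ne'
        have h8 : (M : ℝ) + 1 < R / δ - 1 := by rw [hMr]; linarith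
        nlinarith
      linarith
  have h4 := mul_le_mul_of_nonneg_left h2 hC
  nlinarith

/-- (U3) blocks around a limit of boundary vertices -/
theorem not_bk_ev : ∃ C a : ℝ, 0 ≤ C ∧ 0 < a ∧ ∀ (D : ℝ → Finset V) (U : Filter ℝ), U ≤ 𝓝[>] 0 →
    (∀ᶠ δ in U, KO (D δ)) → ∀ (p : Pl) (v : ℝ → V), (∀ᶠ δ in U, v δ ∈ bdry (D δ)) →
    Tendsto (fun δ => pt δ (v δ)) U (𝓝 p) → ∀ r R : ℝ, 0 < r → 0 < R →
    ∀ᶠ δ in U, pr (Om (D δ)) (fun h => ¬ Bk 0 δ p r R h) ≤ C * (r / R) ^ a := by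
  obtain ⟨C, a, hC, ha, H⟩ := not_bk
  refine ⟨C, a, hC, ha, ?_⟩
  intro D U hU hD p v hv hvp r R hr hR
  have h1 : ∀ᶠ δ in U, 0 < δ ∧ δ ≤ r := hU (Ioc_mem_nhdsGT hr)
  have h2 : ∀ᶠ δ in U, dist (pt δ (v δ)) p < r := by
    have h3 := (tendsto_iff_dist_tendsto_zero.1 hvp)
    exact h3.eventually (gt_mem_nhds hr)
  filter_upwards [h1, h2, hD, hv] with δ h3 h4 h5 h6
  exact H (D δ) h5 p δ r R h3.1 h3.2 hR ⟨v δ, Or.inr h6, h4.le⟩

/-- (U3) the sum over finitely many limits of boundary vertices -/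
theorem sum_not_bk : ∃ C a : ℝ, 0 ≤ C ∧ 0 < a ∧ ∀ (D : ℝ → Finset V) (U : Filter ℝ), U ≤ 𝓝[>] 0 →
    (∀ᶠ δ in U, KO (D δ)) → ∀ P : Finset Pl, (∀ p ∈ P, ∃ v : ℝ → V,
      (∀ᶠ δ in U, v δ ∈ bdry (D δ)) ∧ Tendsto (fun δ => pt δ (v δ)) U (𝓝 p)) →
    ∀ r R : ℝ, 0 < r → 0 < R →
    ∀ᶠ δ in U, ∑ p ∈ P, pr (Om (D δ)) (fun h => ¬ Bk 0 δ p r R h) ≤ P.card * (C * (r / R) ^ a) := by
  obtain ⟨C, a, hC, ha, H⟩ := not_bk_ev
  refine ⟨C, a, hC, ha, ?_⟩
  intro D U hU hD P hP r R hr hR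
  have h1 : ∀ᶠ δ in U, ∀ p ∈ P, pr (Om (D δ)) (fun h => ¬ Bk 0 δ p r R h) ≤ C * (r / R) ^ a := by
    rw [Filter.eventually_all_finset]
    intro p hp
    obtain ⟨v, hv, hvp⟩ := hP p hp
    exact H D U hU hD p v hv hvp r R hr hR
  filter_upwards [h1] with δ h2
  have h3 := Finset.sum_le_sum h2
  rw [Finset.sum_const, nsmul_eq_mul] at h3
  exact h3

end DV
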