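import Pool.Agent.Helper97.DV.Tn
import Pool.Agent.Helper86.LG.Lg4

/-!
# Project DV (MP_973bc8_pr): power form of the decay of the covariance near the boundary
-/

open Finset RP4

namespace DV

lemma LP.mono {c c' : ℝ} {K n0 : ℤ} (h : LP c K n0) (hc : c' ≤ c) : LP c' K n0 :=
  fun n hn x D p Z h1 h2 h3 h4 => hc.trans (h n hn x D p Z h1 h2 h3 h4)

lemma cv_zero_left {D : Finset V} {x y : V} (hx : x ∉ D) : MD.cv D x y = 0 := by
  unfold MD.cv avg
  have h1 : ∑ h ∈ Om D, ((h x : ℝ) * h y) = 0 := by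
    refine sum_eq_zero fun h hh => ?_
    rw [(mem_Om.1 hh).1.off x hx]
    simp
  rw [h1, zero_div]

lemma cv_zero_right {D : Finset V} {x y : V} (hy : y ∉ D) : MD.cv D x y = 0 := by
  unfold MD.cv avg
  have h1 : ∑ h ∈ Om D, ((h x : ℝ) * h y) = 0 := by
    refine sum_eq_zero fun h hh => ?_
    rw [(mem_Om.1 hh).1.off y hy]
    simp
  rw [h1, zero_div]

/-- integer form of the decay -/
theorem decay_int {c : ℝ} {K n0 : ℤ} (hLP : LP c K n0) (hc : 0 < c) (hc1 : c ≤ 1) :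
    ∃ B : ℝ, 0 ≤ B ∧ (∀ D : Finset V, LG.SC D → ∀ x y v : V, ∀ r : ℤ, 1 ≤ r → v ∈ Sq x r →
      v ∉ D → y ∉ Sq x (r - 1) → MD.cv D x y ≤ B) ∧
      ∀ D : Finset V, LG.SC D → ∀ x y v : V, ∀ r M : ℤ, ∀ k : ℕ, 1 ≤ r → v ∈ Sq x r →
        v ∉ D → y ∉ Sq x M → (|n0| + 5) * (2 * |K| + 6) ^ k * r ≤ M →
        MD.cv D x y ≤ B * (1 - c / 2) ^ k := by
  obtain ⟨M0, hM1, hM0⟩ := exists_Bq hLP hc (by linarith)
  obtain ⟨C0, hC0, hL⟩ := LG.LGS hM1 hM0
  obtain ⟨k0, hk0⟩ := exists_pow_small hc (by linarith : c ≤ 2) (ε := 1 / 2) (by norm_num)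
  have hq0 : 0 < 1 - c / 2 := by linarith
  have hq1 : 1 - c / 2 ≤ 1 := by linarith
  have base : ∀ D : Finset V, LG.SC D → ∀ x y v : V, ∀ r : ℤ, 1 ≤ r → v ∈ Sq x r →
      v ∉ D → y ∉ Sq x (r - 1) → MD.cv D x y ≤ C0 := by
    intro D hD x y v r hr hv hvD hy
    have h1 := hL D hD.wc x y r r hr le_rfl hy ⟨v, hv, hvD⟩
    have h2 : (r : ℝ) / r = 1 := by
      have h3 : (r : ℝ) ≠ 0 := by
        have : (0 : ℝ) < r := by exact_mod_cast (by omega : (0 : ℤ) < r)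
        exact this.ne'
      exact div_self h3
    rw [h2, Real.log_one, add_zero, mul_one] at h1
    exact h1
  have hp0 : 0 < (1 - c / 2) ^ k0 := pow_pos hq0 k0
  have hC1 : C0 ≤ C0 / (1 - c / 2) ^ k0 := by
    rw [le_div_iff₀ hp0]
    have h1 : (1 - c / 2) ^ k0 ≤ 1 := pow_le_one₀ hq0.le hq1
    nlinarith
  refine ⟨32 + C0 / (1 - c / 2) ^ k0, by positivity, ?_, ?_⟩
  · intro D hD x y v r hr hv hvD hy
    have h1 := base D hD x y v r hr hv hvD hy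
    linarith
  · intro D hD x y v r M k hr hv hvD hy hM
    have hpk : 0 < (1 - c / 2) ^ k := pow_pos hq0 k
    by_cases hxD : x ∈ D
    swap
    · rw [cv_zero_left hxD]
      positivity
    by_cases hyD : y ∈ D
    swap
    · rw [cv_zero_right hyD]
      positivity
    rcases le_total k0 k with hk | hk
    · have h1 : (1 - c / 2) ^ k ≤ (1 - c / 2) ^ k0 := pow_le_pow_of_le_one hq0.le hq1 hk
      have h2 := cov_decay hLP (by linarith) (ko_of_SC hD) k hxD hyD hr hv (Or.inl hvD) hy hM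
        (by linarith)
      have h3 : 0 ≤ C0 / (1 - c / 2) ^ k0 * (1 - c / 2) ^ k := by positivity
      nlinarith
    · have hrM : r ≤ M := by
        have h1 : (1 : ℤ) ≤ (|n0| + 5) * (2 * |K| + 6) ^ k := by
          have h2 : (0 : ℤ) < (|n0| + 5) * (2 * |K| + 6) ^ k := by positivity
          omega
        nlinarith
      have h1 := base D hD x y v r hr hv hvD (fun h => hy (Sq_mono (by omega) h))
      have h2 : (1 - c / 2) ^ k0 ≤ (1 - c / 2) ^ k := pow_le_pow_of_le_one hq0.le hq1 hk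
      have h3 : C0 ≤ C0 / (1 - c / 2) ^ k0 * (1 - c / 2) ^ k := by
        rw [div_mul_eq_mul_div, le_div_iff₀ hp0]
        exact mul_le_mul_of_nonneg_left h2 hC0
      nlinarith

/-- power form of the decay -/
theorem decay_form {c : ℝ} {K n0 : ℤ} (hLP : LP c K n0) (hc : 0 < c) :
    ∃ C a : ℝ, 0 ≤ C ∧ 0 < a ∧ ∀ (D : Finset V), LG.SC D → ∀ x z v : V, v ∉ D →
      ∀ ρ m : ℝ, 1 ≤ ρ → ρ ≤ m →
      |((v.1 - x.1 : ℤ) : ℝ)| ≤ ρ → |((v.2 - x.2 : ℤ) : ℝ)| ≤ ρ →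
      (m ≤ |((z.1 - x.1 : ℤ) : ℝ)| ∨ m ≤ |((z.2 - x.2 : ℤ) : ℝ)|) →
      MD.cv D x z ≤ C * (ρ / m) ^ a := by
  obtain ⟨c', hc', hc1', hLP'⟩ : ∃ c' : ℝ, 0 < c' ∧ c' ≤ 1 ∧ LP c' K n0 :=
    ⟨min c 1, lt_min hc one_pos, min_le_right _ _, hLP.mono (min_le_left _ _)⟩
  clear hLP hc
  obtain ⟨B, hB, hbase, hdec⟩ := decay_int hLP' hc' hc1'
  obtain ⟨q, hq⟩ : ∃ q : ℝ, q = 1 - c' / 2 := ⟨_, rfl⟩
  rw [← hq] at hdec
  have hq0 : 0 < q := by rw [hq]; linarith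
  have hq1 : q < 1 := by rw [hq]; linarith
  obtain ⟨T, hT⟩ : ∃ T : ℤ, T = 2 * |K| + 6 := ⟨_, rfl⟩
  obtain ⟨Q, hQ⟩ : ∃ Q : ℤ, Q = |n0| + 5 := ⟨_, rfl⟩
  rw [← hT, ← hQ] at hdec
  have hT6 : (6 : ℤ) ≤ T := by
    have := abs_nonneg K
    omega
  have hQ5 : (5 : ℤ) ≤ Q := by
    have := abs_nonneg n0
    omega
  have hT6' : (6 : ℝ) ≤ T := by exact_mod_cast hT6
  have hQ5' : (5 : ℝ) ≤ Q := by exact_mod_cast hQ5
  obtain ⟨a, ha⟩ : ∃ a : ℝ, a = -Real.log q / Real.log T := ⟨_, rfl⟩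
  have hlT : 0 < Real.log T := Real.log_pos (by linarith)
  have hlq : Real.log q < 0 := Real.log_neg hq0 hq1
  have ha0 : 0 < a := by
    rw [ha]
    exact div_pos (by linarith) hlT
  have hTa : (T : ℝ) ^ a = q⁻¹ := by
    rw [Real.rpow_def_of_pos (by linarith), ha, mul_div_cancel₀ _ hlT.ne', Real.exp_neg,
      Real.exp_log hq0]
  have hQa : 0 < (2 * (Q : ℝ)) ^ a := Real.rpow_pos_of_pos (by linarith) a
  refine ⟨B / q * (2 * (Q : ℝ)) ^ a, a, by positivity, ha0, ?_⟩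
  intro D hD x z v hv ρ m hρ hρm h1 h2 h3
  have hm0 : 0 < m := by linarith
  have hρ0 : 0 < ρ := by linarith
  -- integer radii
  obtain ⟨r, hr⟩ : ∃ r : ℤ, r = ⌊ρ⌋ := ⟨_, rfl⟩
  obtain ⟨M, hM⟩ : ∃ M : ℤ, M = ⌈m⌉ - 1 := ⟨_, rfl⟩
  have hr1 : 1 ≤ r := by
    rw [hr]
    exact Int.le_floor.2 (by exact_mod_cast hρ)
  have hrρ : (r : ℝ) ≤ ρ := by
    rw [hr]
    exact Int.floor_le ρ
  have hvS : v ∈ Sq x r := by
    constructor
    · rw [hr]
      exact Int.le_floor.2 (by push_cast at h1 ⊢; exact h1)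
    · rw [hr]
      exact Int.le_floor.2 (by push_cast at h2 ⊢; exact h2)
  have hzS : z ∉ Sq x M := by
    rintro ⟨h4, h5⟩
    rcases h3 with h3 | h3
    · have h6 : ⌈m⌉ ≤ |z.1 - x.1| := Int.ceil_le.2 (by push_cast at h3 ⊢; exact h3)
      omega
    · have h6 : ⌈m⌉ ≤ |z.2 - x.2| := Int.ceil_le.2 (by push_cast at h3 ⊢; exact h3)
      omega
  have hmM : m ≤ M + 1 := by
    rw [hM]
    push_cast
    have := Int.le_ceil m
    linarith
  have hrM : r ≤ M + 1 := by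
    have h4 : (r : ℝ) ≤ (M + 1 : ℤ) := by
      push_cast
      linarith
    exact_mod_cast h4
  have key : ∀ k : ℕ, m ≤ 2 * Q * T ^ k * ρ → MD.cv D x z ≤ B / q * q ^ k →
      MD.cv D x z ≤ B / q * (2 * (Q : ℝ)) ^ a * (ρ / m) ^ a := by
    intro k hk hcv
    refine hcv.trans ?_
    have h4 : q ^ k ≤ (2 * (Q : ℝ)) ^ a * (ρ / m) ^ a := by
      rw [← Real.mul_rpow (by linarith) (by positivity)]
      have h5 : ((T : ℝ) ^ k)⁻¹ ≤ 2 * Q * (ρ / m) := by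
        rw [inv_le_comm₀ (by positivity) (by positivity), ← one_div, div_le_iff₀ (by positivity)]
        rw [show (T : ℝ) ^ k * (2 * Q * (ρ / m)) = (2 * Q * T ^ k * ρ) / m by ring,
          le_div_iff₀ hm0, one_mul]
        exact hk
      have h6 : q ^ k = (((T : ℝ) ^ k)⁻¹) ^ a := by
        rw [Real.inv_rpow (by positivity), ← Real.rpow_pow_comm (by linarith), hTa, inv_pow, inv_inv]
      rw [h6]
      exact Real.rpow_le_rpow (by positivity) h5 ha0.le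
    calc B / q * q ^ k ≤ B / q * ((2 * (Q : ℝ)) ^ a * (ρ / m) ^ a) :=
          mul_le_mul_of_nonneg_left h4 (by positivity)
      _ = _ := by ring
  rcases lt_or_ge M (Q * r) with hMr | hMr
  · refine key 0 ?_ ?_
    · have h4 : (M : ℝ) + 1 ≤ Q * r := by exact_mod_cast (by omega : M + 1 ≤ Q * r)
      have h5 : (Q : ℝ) * r ≤ Q * ρ := mul_le_mul_of_nonneg_left hrρ (by linarith)
      have h6 : 0 ≤ (Q : ℝ) * ρ := by positivity
      rw [pow_zero]
      nlinarith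
    · have h4 := hbase D hD x z v r hr1 hvS hv (fun h => hzS (Sq_mono (by omega) h))
      rw [pow_zero, mul_one]
      refine h4.trans ?_
      rw [le_div_iff₀ hq0]
      nlinarith
  · have hr0 : (0 : ℝ) < r := by exact_mod_cast (by omega : (0 : ℤ) < r)
    have hQr : (0 : ℝ) < Q * r := by positivity
    have hM' : (Q : ℝ) * r ≤ M := by exact_mod_cast hMr
    obtain ⟨k, hk1, hk2⟩ := exists_nat_pow_near (x := (M : ℝ) / (Q * r)) (y := (T : ℝ))
      ((one_le_div hQr).2 hM') (by linarith)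
    rw [le_div_iff₀ hQr] at hk1
    rw [div_lt_iff₀ hQr] at hk2
    have hk3 : Q * T ^ k * r ≤ M := by
      have h4 : ((Q * T ^ k * r : ℤ) : ℝ) ≤ M := by
        push_cast
        linarith
      exact_mod_cast h4
    refine key (k + 1) ?_ ?_
    · have h4' : (1 : ℤ) ≤ M := by nlinarith
      have h4 : (1 : ℝ) ≤ M := by exact_mod_cast h4'
      have h5 : (T : ℝ) ^ (k + 1) * (Q * r) ≤ T ^ (k + 1) * (Q * ρ) :=
        mul_le_mul_of_nonneg_left (mul_le_mul_of_nonneg_left hrρ (by linarith)) (by positivity)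
      nlinarith
    · have h4 := hdec D hD x z v r M k hr1 hvS hv hzS hk3
      refine h4.trans (le_of_eq ?_)
      rw [pow_succ]
      field_simp

end DV
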