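import Pool.Agent.Helper97.DV.To
import Pool.Agent.Helper97.DV.Tq
import Pool.Agent.Helper74.AL.Out

/-!
# Project DV (MP_973bc8_pr): the results of block (3) without hypothesis
-/

open Finset RP4

namespace DV

/-- LOOP with `c ≤ 1` -/
theorem exists_LP1 : ∃ (c : ℝ) (K n0 : ℤ), 0 < c ∧ c ≤ 1 ∧ 1 ≤ K ∧ 1 ≤ n0 ∧ LP c K n0 := by
  obtain ⟨c, K, n0, hc, hK, hn0, h⟩ := AL.exists_LP
  exact ⟨min c 1, K, n0, lt_min hc one_pos, min_le_right _ _, hK, hn0, h.mono (min_le_left _ _)⟩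

/-- the input of block LG -/
theorem exists_Bq1 : ∃ M : ℕ, 1 ≤ M ∧ LG.Bq M := by
  obtain ⟨c, K, n0, hc, hc1, _, _, h⟩ := exists_LP1
  exact exists_Bq h hc (by linarith)

/-- logarithmic bound -/
theorem LGS1 : ∃ C : ℝ, 0 ≤ C ∧ ∀ (D : Finset V), LG.WC D → ∀ (x z : V) (n N : ℤ), 1 ≤ n → n ≤ N →
    z ∉ Sq x (n - 1) → (∃ v ∈ Sq x N, v ∉ D) →
    avg (Om D) (fun h => (h x : ℝ) * h z) ≤ C * (1 + Real.log ((N : ℝ) / n)) := by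
  obtain ⟨M, h1, h2⟩ := exists_Bq1
  exact LG.LGS h1 h2

/-- decay of the covariance near the boundary -/
theorem decay1 : ∃ C a : ℝ, 0 ≤ C ∧ 0 < a ∧ ∀ (D : Finset V), LG.SC D → ∀ x z v : V, v ∉ D →
    ∀ ρ m : ℝ, 1 ≤ ρ → ρ ≤ m → |((v.1 - x.1 : ℤ) : ℝ)| ≤ ρ → |((v.2 - x.2 : ℤ) : ℝ)| ≤ ρ →
    (m ≤ |((z.1 - x.1 : ℤ) : ℝ)| ∨ m ≤ |((z.2 - x.2 : ℤ) : ℝ)|) →
    MD.cv D x z ≤ C * (ρ / m) ^ a := by
  obtain ⟨c, K, n0, hc, _, _, _, h⟩ := exists_LP1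
  exact decay_form h hc

/-- (T2) next to a wall: for every `ε` there is a ratio `Q` -/
theorem nz_small {ε : ℝ} (hε : 0 < ε) : ∃ Q : ℤ, 1 ≤ Q ∧ ∀ (D Z : Finset V) (p : ℤ), bdry D ⊆ Z →
    Z ⊆ D → (∀ v ∈ Z, Even (par v + p)) → ∀ (x z z' : V) (r M : ℤ), 1 ≤ r → z ∈ Sq x r →
    z' ∉ Sq x M → KCon (OO D Z) z z' → Q * r ≤ M →
    pr (Zs D p Z) (fun h => ∃ u ∈ Sq x r, ∃ v, v ∉ Sq x M ∧ Con {w | h w ≠ 0} u v) ≤ ε := by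
  obtain ⟨c, K, n0, hc, hc1, _, _, hLP⟩ := exists_LP1
  obtain ⟨m, hm⟩ := exists_pow_small hc (by linarith) hε
  refine ⟨(|n0| + 5) * (2 * |K| + 6) ^ m, ?_, ?_⟩
  · have h1 : (0 : ℤ) < (|n0| + 5) * (2 * |K| + 6) ^ m := by positivity
    omega
  · intro D Z p hb hZD hZ x z z' r M hr hz hz' hzz hM
    exact (pr_nz2 hLP (by linarith) hb hZD hZ m hr hz hz' hzz hM).trans hm

/-- crossings of `|h ∓ 2| ≤ 1` in any zero environment: for every `ε` there is a ratio `Q` -/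
theorem CrE_small {ε : ℝ} (hε : 0 < ε) : ∃ Q : ℤ, 1 ≤ Q ∧ ∀ (D Z : Finset V) (p : ℤ), bdry D ⊆ Z →
    Z ⊆ D → (∀ v ∈ Z, Even (par v + p)) → ∀ (x : V) (r M : ℤ), 1 ≤ r → Q * r ≤ M →
    pr (Zs D p Z) (CrE D x r M) ≤ ε := by
  obtain ⟨c, K, n0, hc, hc1, _, _, hLP⟩ := exists_LP1
  obtain ⟨m, hm⟩ := exists_pow_small hc (by linarith) hε
  refine ⟨(|n0| + 5) * (2 * |K| + 6) ^ m, ?_, ?_⟩
  · have h1 : (0 : ℤ) < (|n0| + 5) * (2 * |K| + 6) ^ m := by positivity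
    omega
  · intro D Z p hb hZD hZ x r M hr hM
    exact (cross_sq_or hLP (by linarith) hb hZD hZ x m hr hM).trans hm

end DV
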