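import Pool.Agent.Helper97.DV.Gk

/-!
# Project DV (MP_973bc8_pr): corollaries of the general FKG inequality

Families of height functions given by their absolute values and a set of nonnegative sites, decreasing
and increasing events, correlation inequalities.
-/

open Finset RP4

namespace DV

/-- the finite set `A` consists of the height functions with absolute value in `T`, nonnegative on `B` -/
def Fam (D : Finset V) (p : ℤ) (B : Set V) (T : Set (V → ℤ)) (A : Finset (V → ℤ)) : Prop :=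
  ∀ g, g ∈ A ↔ IsHom D p g ∧ absf g ∈ T ∧ ∀ v ∈ B, 0 ≤ g v

/-- closed under infimum and supremum -/
def Lat (D : Finset V) (p : ℤ) (T : Set (V → ℤ)) : Prop :=
  ∀ ξ ∈ T, ∀ η ∈ T, IsHom D p ξ → IsHom D p η → (∀ v, 0 ≤ ξ v) → (∀ v, 0 ≤ η v) →
    ξ ⊓ η ∈ T ∧ ξ ⊔ η ∈ T

/-- decreasing event in the absolute value -/
structure Dec (E : (V → ℤ) → Prop) : Prop where
  abs : ∀ g, E (absf g) ↔ E g
  mono : ∀ g g' : V → ℤ, (∀ v, 0 ≤ g v) → (∀ v, g v ≤ g' v) → E g' → E g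

/-- increasing event in the absolute value -/
structure Inc (E : (V → ℤ) → Prop) : Prop where
  abs : ∀ g, E (absf g) ↔ E g
  mono : ∀ g g' : V → ℤ, (∀ v, 0 ≤ g v) → (∀ v, g v ≤ g' v) → E g → E g'

/-- increasing nonnegative function of the absolute value -/
structure IncF (F : (V → ℤ) → ℝ) : Prop where
  nonneg : ∀ g, 0 ≤ F g
  abs : ∀ g, F (absf g) = F g
  mono : ∀ g g' : V → ℤ, (∀ v, 0 ≤ g v) → (∀ v, g v ≤ g' v) → F g ≤ F g'

lemma Dec.not {E : (V → ℤ) → Prop} (h : Dec E) : Inc fun g => ¬ E g :=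
  ⟨fun g => not_congr (h.abs g), fun g g' h1 h2 h3 h4 => h3 (h.mono g g' h1 h2 h4)⟩

lemma Inc.not {E : (V → ℤ) → Prop} (h : Inc E) : Dec fun g => ¬ E g :=
  ⟨fun g => not_congr (h.abs g), fun g g' h1 h2 h3 h4 => h3 (h.mono g g' h1 h2 h4)⟩

lemma Dec.and {E E' : (V → ℤ) → Prop} (h : Dec E) (h' : Dec E') : Dec fun g => E g ∧ E' g :=
  ⟨fun g => and_congr (h.abs g) (h'.abs g), fun g g' h1 h2 h3 =>
    ⟨h.mono g g' h1 h2 h3.1, h'.mono g g' h1 h2 h3.2⟩⟩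

lemma Inc.and {E E' : (V → ℤ) → Prop} (h : Inc E) (h' : Inc E') : Inc fun g => E g ∧ E' g :=
  ⟨fun g => and_congr (h.abs g) (h'.abs g), fun g g' h1 h2 h3 =>
    ⟨h.mono g g' h1 h2 h3.1, h'.mono g g' h1 h2 h3.2⟩⟩

open Classical in
/-- probability of an event for the uniform measure on a finite set of functions -/
noncomputable def pr (A : Finset (V → ℤ)) (E : (V → ℤ) → Prop) : ℝ :=
  avg A fun g => if E g then 1 else 0

lemma pr_eq (A : Finset (V → ℤ)) (E : (V → ℤ) → Prop) [DecidablePred E] :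
    pr A E = ((A.filter E).card : ℝ) / A.card := by
  unfold pr avg
  have h : ∑ g ∈ A, (fun g => if E g then (1 : ℝ) else 0) g = ((A.filter E).card : ℝ) := by
    simp only [Finset.sum_boole]
  rw [← h]
  congr!

lemma pr_nonneg (A : Finset (V → ℤ)) (E : (V → ℤ) → Prop) : 0 ≤ pr A E := by
  classical
  rw [pr_eq]
  positivity

lemma pr_mono {A : Finset (V → ℤ)} {E E' : (V → ℤ) → Prop} (h : ∀ g ∈ A, E g → E' g) :
    pr A E ≤ pr A E' := by
  classical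
  rw [pr_eq, pr_eq]
  refine div_le_div_of_nonneg_right ?_ (Nat.cast_nonneg _)
  have h1 : A.filter E ⊆ A.filter E' := fun g hg => by
    rw [Finset.mem_filter] at hg ⊢
    exact ⟨hg.1, h g hg.1 hg.2⟩
  exact_mod_cast Finset.card_le_card h1

lemma pr_congr {A : Finset (V → ℤ)} {E E' : (V → ℤ) → Prop} (h : ∀ g ∈ A, E g ↔ E' g) :
    pr A E = pr A E' :=
  le_antisymm (pr_mono fun g hg => (h g hg).1) (pr_mono fun g hg => (h g hg).2)

lemma pr_le_one (A : Finset (V → ℤ)) (E : (V → ℤ) → Prop) : pr A E ≤ 1 := by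
  classical
  rw [pr_eq]
  refine div_le_one_of_le₀ ?_ (Nat.cast_nonneg _)
  exact_mod_cast Finset.card_filter_le _ _

lemma pr_not {A : Finset (V → ℤ)} (hA : A.Nonempty) (E : (V → ℤ) → Prop) :
    pr A (fun g => ¬ E g) = 1 - pr A E := by
  classical
  rw [pr_eq, pr_eq, eq_sub_iff_add_eq, ← add_div]
  have h1 := Finset.card_filter_add_card_filter_not (s := A) E
  have h2 : (0 : ℝ) < A.card := by exact_mod_cast hA.card_pos
  rw [div_eq_one_iff_eq h2.ne']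
  have h3 : ((A.filter E).card : ℝ) + ((A.filter fun g => ¬ E g).card : ℝ) = A.card := by
    exact_mod_cast h1
  linarith

/-- union bound -/
lemma pr_or_le (A : Finset (V → ℤ)) (E E' : (V → ℤ) → Prop) :
    pr A (fun g => E g ∨ E' g) ≤ pr A E + pr A E' := by
  classical
  rw [pr_eq, pr_eq, pr_eq, ← add_div]
  refine div_le_div_of_nonneg_right ?_ (Nat.cast_nonneg _)
  rw [Finset.filter_or]
  exact_mod_cast Finset.card_union_le _ _

open Classical in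
lemma Inc.incF {E : (V → ℤ) → Prop} (h : Inc E) :
    IncF fun g => if E g then 1 else 0 := by
  refine ⟨fun g => ?_, fun g => ?_, fun g g' h1 h2 => ?_⟩
  · split_ifs <;> norm_num
  · simp only [h.abs g]
  · by_cases h3 : E g
    · rw [if_pos h3, if_pos (h.mono g g' h1 h2 h3)]
    · rw [if_neg h3]
      split_ifs <;> norm_num

section cmp

variable {D : Finset V} {p : ℤ} {B B' : Set V} {T T' : Set (V → ℤ)} {A A' : Finset (V → ℤ)}

/-- comparison of two families, events -/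
theorem fam_inc (hA' : Fam D p B' T' A') (hA : Fam D p B T A)
    (hinf : ∀ ξ' ∈ T', ∀ ξ ∈ T, IsHom D p ξ' → IsHom D p ξ → (∀ v, 0 ≤ ξ' v) → (∀ v, 0 ≤ ξ v) →
      ξ' ⊓ ξ ∈ T')
    (hsup : ∀ ξ' ∈ T', ∀ ξ ∈ T, IsHom D p ξ' → IsHom D p ξ → (∀ v, 0 ≤ ξ' v) → (∀ v, 0 ≤ ξ v) →
      ξ' ⊔ ξ ∈ T)
    (hBB : B' ⊆ B) (hB : ∀ ξ' ∈ T', ∀ ξ ∈ T, ∀ v ∈ B, v ∉ B' → ξ v = 0 → ξ' v = 0)
    (hne' : A'.Nonempty) (hne : A.Nonempty) {E : (V → ℤ) → Prop} (hE : Inc E) :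
    pr A' E ≤ pr A E := by
  classical
  exact gfkg hA' hA hinf hsup hBB hB hne' hne _ hE.incF.nonneg hE.incF.abs hE.incF.mono

/-- comparison of two families, decreasing events -/
theorem fam_dec (hA' : Fam D p B' T' A') (hA : Fam D p B T A)
    (hinf : ∀ ξ' ∈ T', ∀ ξ ∈ T, IsHom D p ξ' → IsHom D p ξ → (∀ v, 0 ≤ ξ' v) → (∀ v, 0 ≤ ξ v) →
      ξ' ⊓ ξ ∈ T')
    (hsup : ∀ ξ' ∈ T', ∀ ξ ∈ T, IsHom D p ξ' → IsHom D p ξ → (∀ v, 0 ≤ ξ' v) → (∀ v, 0 ≤ ξ v) →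
      ξ' ⊔ ξ ∈ T)
    (hBB : B' ⊆ B) (hB : ∀ ξ' ∈ T', ∀ ξ ∈ T, ∀ v ∈ B, v ∉ B' → ξ v = 0 → ξ' v = 0)
    (hne' : A'.Nonempty) (hne : A.Nonempty) {E : (V → ℤ) → Prop} (hE : Dec E) :
    pr A E ≤ pr A' E := by
  have h := fam_inc hA' hA hinf hsup hBB hB hne' hne hE.not
  rw [pr_not hne', pr_not hne] at h
  linarith

/-- conditioning on a decreasing event decreases -/
theorem avg_filter_dec (hA : Fam D p B T A) (hT : Lat D p T) {E : (V → ℤ) → Prop} (hE : Dec E)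
    {A' : Finset (V → ℤ)} (hA' : ∀ g, g ∈ A' ↔ g ∈ A ∧ E g) (hne : A'.Nonempty)
    {F : (V → ℤ) → ℝ} (hF : IncF F) : avg A' F ≤ avg A F := by
  have hne0 : A.Nonempty := hne.imp fun g hg => ((hA' g).1 hg).1
  refine gfkg (T' := {ξ | ξ ∈ T ∧ E ξ}) (B' := B) (fun g => ?_) hA ?_ ?_ le_rfl
    (fun _ _ _ _ v hv hv' => absurd hv hv') hne hne0 F hF.nonneg hF.abs hF.mono
  · rw [hA', hA g]
    constructor
    · rintro ⟨⟨h1, h2, h3⟩, h4⟩
      exact ⟨h1, ⟨h2, (hE.abs g).2 h4⟩, h3⟩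
    · rintro ⟨h1, ⟨h2, h4⟩, h3⟩
      exact ⟨⟨h1, h2, h3⟩, (hE.abs g).1 h4⟩
  · rintro ξ' ⟨h1, h2⟩ ξ h3 i1 i2 n1 n2
    refine ⟨(hT ξ' h1 ξ h3 i1 i2 n1 n2).1, hE.mono _ ξ' (fun v => le_min (n1 v) (n2 v))
      (fun v => min_le_left _ _) h2⟩
  · rintro ξ' ⟨h1, h2⟩ ξ h3 i1 i2 n1 n2
    exact (hT ξ' h1 ξ h3 i1 i2 n1 n2).2

/-- conditioning on an increasing event increases -/
theorem avg_filter_inc (hA : Fam D p B T A) (hT : Lat D p T) {E : (V → ℤ) → Prop} (hE : Inc E)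
    {A' : Finset (V → ℤ)} (hA' : ∀ g, g ∈ A' ↔ g ∈ A ∧ E g) (hne : A'.Nonempty)
    {F : (V → ℤ) → ℝ} (hF : IncF F) : avg A F ≤ avg A' F := by
  have hne0 : A.Nonempty := hne.imp fun g hg => ((hA' g).1 hg).1
  refine gfkg (T := {ξ | ξ ∈ T ∧ E ξ}) (B := B) hA (fun g => ?_) ?_ ?_ le_rfl
    (fun _ _ _ _ v hv hv' => absurd hv hv') hne0 hne F hF.nonneg hF.abs hF.mono
  · rw [hA', hA g]
    constructor
    · rintro ⟨⟨h1, h2, h3⟩, h4⟩
      exact ⟨h1, ⟨h2, (hE.abs g).2 h4⟩, h3⟩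
    · rintro ⟨h1, ⟨h2, h4⟩, h3⟩
      exact ⟨⟨h1, h2, h3⟩, (hE.abs g).1 h4⟩
  · rintro ξ' h1 ξ ⟨h3, h2⟩ i1 i2 n1 n2
    exact (hT ξ' h1 ξ h3 i1 i2 n1 n2).1
  · rintro ξ' h1 ξ ⟨h3, h2⟩ i1 i2 n1 n2
    exact ⟨(hT ξ' h1 ξ h3 i1 i2 n1 n2).2, hE.mono ξ _ n2 (fun v => le_max_right _ _) h2⟩

lemma pr_filter {A A' : Finset (V → ℤ)} {E F : (V → ℤ) → Prop} (hA' : ∀ g, g ∈ A' ↔ g ∈ A ∧ E g) :
    pr A (fun g => E g ∧ F g) = pr A E * pr A' F := by
  classical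
  have h1 : A' = A.filter E := by
    ext g
    rw [hA' g, Finset.mem_filter]
  rw [pr_eq, pr_eq, pr_eq, h1, Finset.filter_filter]
  by_cases h : ((A.filter E).card : ℝ) = 0
  · have h2 : ((A.filter fun g => E g ∧ F g).card : ℝ) = 0 := by
      have h3 : (A.filter fun g => E g ∧ F g) ⊆ A.filter E := fun g hg => by
        rw [Finset.mem_filter] at hg ⊢
        exact ⟨hg.1, hg.2.1⟩
      have h4 := Finset.card_le_card h3
      have h5 : (A.filter E).card = 0 := by exact_mod_cast h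
      have h6 : (A.filter fun g => E g ∧ F g).card = 0 := by omega
      exact_mod_cast h6
    rw [h2, h, zero_div, zero_div, zero_mul]
  · rw [div_mul_div_comm, mul_comm (A.card : ℝ), mul_div_mul_left _ _ h]

/-- correlation inequality for two decreasing events -/
theorem pr_dec_dec (hA : Fam D p B T A) (hT : Lat D p T) {E E' : (V → ℤ) → Prop} (hE : Dec E)
    (hE' : Dec E') : pr A E * pr A E' ≤ pr A fun g => E g ∧ E' g := by
  classical
  obtain ⟨A', hA'⟩ : ∃ A' : Finset (V → ℤ), ∀ g, g ∈ A' ↔ g ∈ A ∧ E g :=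
    ⟨A.filter E, fun g => Finset.mem_filter⟩
  rw [pr_filter hA']
  rcases A'.eq_empty_or_nonempty with h | h
  · have h1 : pr A E = 0 := by
      rw [pr_eq, show A.filter E = ∅ by
        ext g
        rw [Finset.mem_filter, ← hA' g, h]]
      simp
    rw [h1, zero_mul, zero_mul]
  · refine mul_le_mul_of_nonneg_left ?_ (pr_nonneg _ _)
    have hne0 : A.Nonempty := h.imp fun g hg => ((hA' g).1 hg).1
    have h1 := avg_filter_dec hA hT hE hA' h hE'.not.incF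
    have h2 : pr A' (fun g => ¬ E' g) ≤ pr A (fun g => ¬ E' g) := h1
    rw [pr_not h, pr_not hne0] at h2
    linarith

/-- correlation inequality for two increasing events -/
theorem pr_inc_inc (hA : Fam D p B T A) (hT : Lat D p T) {E E' : (V → ℤ) → Prop} (hE : Inc E)
    (hE' : Inc E') : pr A E * pr A E' ≤ pr A fun g => E g ∧ E' g := by
  classical
  obtain ⟨A', hA'⟩ : ∃ A' : Finset (V → ℤ), ∀ g, g ∈ A' ↔ g ∈ A ∧ E g :=
    ⟨A.filter E, fun g => Finset.mem_filter⟩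
  rw [pr_filter hA']
  rcases A'.eq_empty_or_nonempty with h | h
  · have h1 : pr A E = 0 := by
      rw [pr_eq, show A.filter E = ∅ by
        ext g
        rw [Finset.mem_filter, ← hA' g, h]]
      simp
    rw [h1, zero_mul, zero_mul]
  · refine mul_le_mul_of_nonneg_left ?_ (pr_nonneg _ _)
    exact avg_filter_inc hA hT hE hA' h hE'.incF

end cmp

/-- absolute values of boundary value `β` on `Z` -/
def Tb (Z : Set V) (β : V → ℤ) : Set (V → ℤ) := {ξ | ∀ v ∈ Z, ξ v = β v}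

lemma lat_Tb (D : Finset V) (p : ℤ) (Z : Set V) (β : V → ℤ) : Lat D p (Tb Z β) := by
  intro ξ hξ η hη _ _ _ _
  constructor
  · intro v hv
    rw [Pi.inf_apply, hξ v hv, hη v hv, min_self]
  · intro v hv
    rw [Pi.sup_apply, hξ v hv, hη v hv, max_self]

/-- `Zs D p Z` is such a family -/
lemma fam_Zs {D : Finset V} {p : ℤ} {Z : Finset V} (hZ : bdry D ⊆ Z) :
    Fam D p ∅ (Tb (Z : Set V) 0) (Zs D p Z) := by
  intro g
  rw [mem_Zs hZ]
  constructor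
  · rintro ⟨h1, h2⟩
    refine ⟨h1, fun v hv => ?_, fun v hv => absurd hv (Set.notMem_empty v)⟩
    show |g v| = 0
    rw [h2 v hv, abs_zero]
  · rintro ⟨h1, h2, -⟩
    refine ⟨h1, fun v hv => ?_⟩
    have h3 : |g v| = 0 := h2 v hv
    exact abs_eq_zero.1 h3

/-- nonnegative boundary values `β` on `Z` -/
lemma fam_bdv {D : Finset V} {p : ℤ} {Z : Set V} {β : V → ℤ} (hβ : ∀ v ∈ Z, 0 ≤ β v)
    {A : Finset (V → ℤ)} (hA : ∀ g, g ∈ A ↔ IsHom D p g ∧ ∀ v ∈ Z, g v = β v) :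
    Fam D p Z (Tb Z β) A := by
  intro g
  rw [hA]
  constructor
  · rintro ⟨h1, h2⟩
    refine ⟨h1, fun v hv => ?_, fun v hv => ?_⟩
    · show |g v| = β v
      rw [h2 v hv, abs_of_nonneg (hβ v hv)]
    · rw [h2 v hv]
      exact hβ v hv
  · rintro ⟨h1, h2, h3⟩
    refine ⟨h1, fun v hv => ?_⟩
    have h4 : |g v| = β v := h2 v hv
    rwa [abs_of_nonneg (h3 v hv)] at h4

/-- raising nonnegative boundary values and adding constraints: `0 ≤ β' ≤ β` on `Z`, more zeros in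
the smaller family -/
theorem bdv_inc {D : Finset V} {p : ℤ} {Z : Set V} {β β' : V → ℤ} (hβ' : ∀ v ∈ Z, 0 ≤ β' v)
    (hββ : ∀ v ∈ Z, β' v ≤ β v) {A A' : Finset (V → ℤ)}
    (hA' : ∀ g, g ∈ A' ↔ IsHom D p g ∧ ∀ v ∈ Z, g v = β' v)
    (hA : ∀ g, g ∈ A ↔ IsHom D p g ∧ ∀ v ∈ Z, g v = β v) (hne' : A'.Nonempty) (hne : A.Nonempty)
    {F : (V → ℤ) → ℝ} (hF : IncF F) : avg A' F ≤ avg A F := by
  refine gfkg (fam_bdv hβ' hA') (fam_bdv (fun v hv => (hβ' v hv).trans (hββ v hv)) hA) ?_ ?_ le_rfl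
    (fun _ _ _ _ v hv hv' => absurd hv hv') hne' hne F hF.nonneg hF.abs hF.mono
  · intro ξ' h1 ξ h2 _ _ _ _ v hv
    rw [Pi.inf_apply, h1 v hv, h2 v hv, min_eq_left (hββ v hv)]
  · intro ξ' h1 ξ h2 _ _ _ _ v hv
    rw [Pi.sup_apply, h1 v hv, h2 v hv, max_eq_right (hββ v hv)]

end DV
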