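import Pool.Agent.Helper97.DV.Sl

/-!
# Project DV (MP_973bc8_pr): (S') for paths from a small square to the outside of a large square
-/

open Finset RP4

namespace DV

variable {D Z : Finset V} {p : ℤ} {x : V}

theorem cross_sq {c : ℝ} {K n0 : ℤ} (hLP : LP c K n0) (hc1 : c ≤ 2) (hb : bdry D ⊆ Z)
    (hZD : Z ⊆ D) (hZ : ∀ v ∈ Z, Even (par v + p)) (x : V) (m : ℕ) {r M : ℤ} (hr : 1 ≤ r)
    (hM : (|n0| + 5) * (2 * |K| + 6) ^ m * r ≤ M) :
    pr (Zs D p Z) (fun h => ∃ u v, u ∈ Sq x r ∧ v ∉ Sq x M ∧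
      Con {w | w ∈ D ∧ |h w - 2| ≤ 1} u v) ≤ (1 - c / 2) ^ m := by
  obtain ⟨N, hN⟩ : ∃ N : ℕ → ℤ, N = fun i => (|n0| + 2 * r + 3) * (2 * |K| + 6) ^ i := ⟨_, rfl⟩
  have hn0 := abs_nonneg n0
  have hn0' := le_abs_self n0
  have hK := abs_nonneg K
  have hN0 : N 0 = |n0| + 2 * r + 3 := by
    rw [hN]
    simp
  have hNs : ∀ i, N (i + 1) = 2 * (|K| * N i) + 6 * N i := fun i => by
    rw [hN]
    simp only [pow_succ]
    ring
  have hNp : ∀ i, |n0| + 2 * r + 3 ≤ N i := by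
    intro i
    induction i with
    | zero => rw [hN0]
    | succ i ih =>
      rw [hNs]
      have h1 : 0 ≤ |K| * N i := mul_nonneg hK (by omega)
      omega
  have hNm : N m ≤ M := by
    refine le_trans ?_ hM
    rw [hN]
    simp only
    have h1 : (0 : ℤ) ≤ (2 * |K| + 6) ^ m := pow_nonneg (by omega) m
    have h2 : |n0| + 2 * r + 3 ≤ (|n0| + 5) * r := by nlinarith
    calc (|n0| + 2 * r + 3) * (2 * |K| + 6) ^ m ≤ ((|n0| + 5) * r) * (2 * |K| + 6) ^ m :=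
          mul_le_mul_of_nonneg_right h2 h1
      _ = (|n0| + 5) * (2 * |K| + 6) ^ m * r := by ring
  have hKN : ∀ i, K * N i ≤ |K| * N i := fun i =>
    mul_le_mul_of_nonneg_right (le_abs_self K) (by have := hNp i; omega)
  have hKN0 : ∀ i, 0 ≤ |K| * N i := fun i => mul_nonneg hK (by have := hNp i; omega)
  obtain ⟨R, hR⟩ : ∃ R : ℕ → ℤ, ∀ i, R i = N i - 1 - (N i - 1 + par x + p) % 2 := ⟨_, fun i => rfl⟩
  obtain ⟨R', hR'⟩ : ∃ R' : ℕ → ℤ, ∀ i, R' i = 2 * (|K| * N i) + N i + 1 +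
    (2 * (|K| * N i) + N i + 1 + par x + p) % 2 := ⟨_, fun i => rfl⟩
  have hrad : Radii R R' := by
    refine ⟨fun i => ?_, fun i => ?_⟩
    · have h1 := hNp i
      have h2 := hKN0 i
      rw [hR, hR']
      omega
    · have h1 := hNp i
      have h2 := hKN0 i
      rw [hR, hR', hNs]
      omega
  have hRle : ∀ i, R' i ≤ N (i + 1) := fun i => by
    have h1 := hNp i
    rw [hR', hNs]
    omega
  have hNmono : ∀ i j, i ≤ j → N i ≤ N j := by
    intro i j hij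
    induction j with
    | zero =>
      have : i = 0 := by omega
      rw [this]
    | succ j ih =>
      rcases Nat.lt_or_ge i (j + 1) with h1 | h1
      · have h2 := ih (by omega)
        have h3 := hKN0 j
        have h4 := hNp j
        rw [hNs]
        omega
      · have : i = j + 1 := by omega
        rw [this]
  refine le_trans (pr_mono fun h _ => ?_) (pr_cross (x := x) hLP hc1 hb hZD hZ hrad (n := N)
    (fun i => ?_) (fun i => ?_) (fun i => ?_) (fun i => ?_) (fun i => ?_) (fun i => ?_) m)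
  · rintro ⟨u, v, hu, hv, huv⟩ i hi
    refine crs_of_con huv (hrad.lt i).le ?_ ?_
    · have h1 := nr_le_of_Sq hu
      have h2 := hNp i
      rw [hR]
      omega
    · have h1 : M < nr x v := by
        by_contra h1
        exact hv (Sq_of_nr_le (not_lt.1 h1))
      have h2 := hRle i
      have h3 := hNmono (i + 1) m (by omega)
      omega
  · rw [hR, Int.even_iff]
    omega
  · rw [hR', Int.even_iff]
    omega
  · have h1 := hNp i
    omega
  · have h1 := hNp i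
    rw [hR]
    omega
  · rw [hR]
    omega
  · have h1 := hNp i
    have h2 := hKN i
    rw [hR']
    omega

/-- the same for `h + 2` -/
theorem cross_sq' {c : ℝ} {K n0 : ℤ} (hLP : LP c K n0) (hc1 : c ≤ 2) (hb : bdry D ⊆ Z)
    (hZD : Z ⊆ D) (hZ : ∀ v ∈ Z, Even (par v + p)) (x : V) (m : ℕ) {r M : ℤ} (hr : 1 ≤ r)
    (hM : (|n0| + 5) * (2 * |K| + 6) ^ m * r ≤ M) :
    pr (Zs D p Z) (fun h => ∃ u v, u ∈ Sq x r ∧ v ∉ Sq x M ∧
      Con {w | w ∈ D ∧ |h w + 2| ≤ 1} u v) ≤ (1 - c / 2) ^ m := by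
  refine le_trans (le_of_eq ?_) (cross_sq hLP hc1 hb hZD hZ x m hr hM)
  rw [← pr_neg_Zs hb]
  refine pr_congr fun h _ => exists₂_congr fun u v => and_congr_right fun _ => and_congr_right
    fun _ => ?_
  have h1 : {w : V | w ∈ D ∧ |(-h) w + 2| ≤ 1} = {w | w ∈ D ∧ |h w - 2| ≤ 1} := by
    ext w
    show (w ∈ D ∧ |-(h w) + 2| ≤ 1) ↔ (w ∈ D ∧ |h w - 2| ≤ 1)
    rw [show -(h w) + 2 = -(h w - 2) by ring, abs_neg]
  rw [h1]

/-- both signs -/
theorem cross_sq_or {c : ℝ} {K n0 : ℤ} (hLP : LP c K n0) (hc1 : c ≤ 2) (hb : bdry D ⊆ Z)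
    (hZD : Z ⊆ D) (hZ : ∀ v ∈ Z, Even (par v + p)) (x : V) (m : ℕ) {r M : ℤ} (hr : 1 ≤ r)
    (hM : (|n0| + 5) * (2 * |K| + 6) ^ m * r ≤ M) :
    pr (Zs D p Z) (fun h => (∃ u v, u ∈ Sq x r ∧ v ∉ Sq x M ∧
      Con {w | w ∈ D ∧ |h w - 2| ≤ 1} u v) ∨ ∃ u v, u ∈ Sq x r ∧ v ∉ Sq x M ∧
      Con {w | w ∈ D ∧ |h w + 2| ≤ 1} u v) ≤ 2 * (1 - c / 2) ^ m := by
  have h1 := cross_sq hLP hc1 hb hZD hZ x m hr hM
  have h2 := cross_sq' hLP hc1 hb hZD hZ x m hr hM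
  have h3 := pr_or_le (Zs D p Z) (fun h => ∃ u v, u ∈ Sq x r ∧ v ∉ Sq x M ∧
      Con {w | w ∈ D ∧ |h w - 2| ≤ 1} u v) (fun h => ∃ u v, u ∈ Sq x r ∧ v ∉ Sq x M ∧
      Con {w | w ∈ D ∧ |h w + 2| ≤ 1} u v)
  linarith

end DV
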