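import Pool.Agent.Helper97.DV.Fl

/-!
# Project DV (MP_973bc8_pr): the boundary of a component is diagonally connected

If `U` is nn connected, its boundary sites have one parity and its complement is king connected, then the
boundary sites of `U` are joined by diagonal paths of boundary sites.
-/

open Relation RP4

namespace DV

lemma adj_cases' {u v : V} (h : Adj u v) : (v.1 = u.1 + 1 ∧ v.2 = u.2) ∨
    (v.1 = u.1 - 1 ∧ v.2 = u.2) ∨ (v.1 = u.1 ∧ v.2 = u.2 + 1) ∨ (v.1 = u.1 ∧ v.2 = u.2 - 1) := by
  rcases adj_cases h with h | h | h | h <;> subst h <;> simp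

/-- two different common neighbours of two different sites are diagonal -/
lemma dia_of_two {z b c d : V} (h1 : Adj z b) (h2 : Adj z d) (h3 : Adj b c) (h4 : Adj d c)
    (hcz : c ≠ z) (hbd : b ≠ d) : Dia b d := by
  have e1 := adj_cases' h1
  have e2 := adj_cases' h2
  have e3 := adj_cases' h3
  have e4 := adj_cases' h4
  have e5 : ¬ (c.1 = z.1 ∧ c.2 = z.2) := fun h => hcz (Prod.ext h.1 h.2)
  have e6 : ¬ (b.1 = d.1 ∧ b.2 = d.2) := fun h => hbd (Prod.ext h.1 h.2)
  unfold Dia
  rw [abs_eq (by norm_num), abs_eq (by norm_num)]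
  rcases e1 with e1 | e1 | e1 | e1 <;> rcases e2 with e2 | e2 | e2 | e2 <;> omega

/-- the boundary of `U` is diagonally connected -/
theorem bd_xcon {U : Set V} (hpar : ∀ u ∈ Bd U, ∀ v ∈ Bd U, ¬ Adj u v) (hU : Cnn U)
    (hc : ∀ z ∉ U, ∀ z' ∉ U, KCon Uᶜ z z') {u u' : V} (hu : u ∈ Bd U) (hu' : u' ∈ Bd U) :
    XCon (Bd U) u u' := by
  have key := label_const' (s := fun v => {w | XCon (Bd U) v w}) hpar hU hc (by
    intro z b c d hz hb hc' hd h1 h2 h3 h4 h5
    by_cases hbd : b = d
    · rw [hbd]
    have hbB : b ∈ Bd U := ⟨hb, z, adj_symm h1, hz⟩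
    have hdB : d ∈ Bd U := ⟨hd, z, adj_symm h2, hz⟩
    have hdia := dia_of_two h1 h2 h3 h4 h5 hbd
    ext w
    constructor
    · intro hw
      exact Jn.trans (Jn.single (dia_symm hdia) hdB hbB) hw
    · intro hw
      exact Jn.trans (Jn.single hdia hbB hdB) hw) hu hu'
  have h1 : u' ∈ {w | XCon (Bd U) u' w} := Jn.refl hu'
  rw [← key] at h1
  exact h1

/-- the complement of a component of a set with connected complement is connected -/
theorem compl_comp_cnn {D : Set V} {x : V} (hD : Cnn Dᶜ) (hne : Dᶜ.Nonempty) :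
    Cnn (comp D x)ᶜ := by
  obtain ⟨o, ho⟩ := hne
  have hoC : o ∈ (comp D x)ᶜ := fun h => ho (comp_sub D x h)
  -- every point of the complement is joined to `o`
  have key : ∀ u, u ∈ (comp D x)ᶜ → Con (comp D x)ᶜ u o := by
    intro u hu
    by_cases huD : u ∈ D
    · have huniv : Con (Set.univ : Set V) u o := by
        obtain ⟨u1, u2⟩ := u
        obtain ⟨o1, o2⟩ := o
        exact Jn.trans (v := (o1, u2)) (con_row' fun _ _ _ => trivial)
          (con_col' fun _ _ _ => trivial)
      have hself : u ∈ comp D u := mem_comp_self huD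
      obtain ⟨a, b, h1, h2, -, h3, -, h4⟩ := huniv.exit (A := comp D u) hself
        (fun h => ho (comp_sub D u h))
      have hb : b ∉ D := fun hb => h4 (comp_step h3 h2 hb)
      have hdisj : comp D u ⊆ (comp D x)ᶜ := by
        intro w hw hw'
        have e1 : comp D w = comp D u := comp_eq_of_mem hw
        have e2 : comp D w = comp D x := comp_eq_of_mem hw'
        apply hu
        show u ∈ comp D x
        rw [← e2, e1]
        exact hself
      have h5 : Con (comp D x)ᶜ u a := by
        refine (h1.mono (fun _ _ h => h) ?_)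
        rintro w ⟨_, hw⟩
        exact hdisj hw
      have hbC : b ∈ (comp D x)ᶜ := fun h => hb (comp_sub D x h)
      have h6 : Con (comp D x)ᶜ b o := (hD b hb o ho).mono (fun _ _ h => h)
        (Set.compl_subset_compl.2 (comp_sub D x))
      exact (h5.step h2 hbC).trans h6
    · exact (hD u huD o ho).mono (fun _ _ h => h) (Set.compl_subset_compl.2 (comp_sub D x))
  intro u hu v hv
  exact (key u hu).trans (key v hv).symm'

/-- a connected set that contains `x` but not all of the square of radius `n` about `x` has a boundary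
site in this square -/
lemma exists_bd_in {U : Set V} {x z : V} {n : ℤ} (hx : x ∈ U) (hn : 0 ≤ n) (hz : z ∈ Sq x n)
    (hz' : z ∉ U) : ∃ u ∈ Bd U, u ∈ Sq x n := by
  have hxS : x ∈ Sq x n := ⟨by simpa using hn, by simpa using hn⟩
  obtain ⟨a, b, -, h2, h3, h4, -, h6⟩ := (Sq_cnn x n x hxS z hz).exit (A := U) hx hz'
  exact ⟨a, ⟨h4, b, h2, h6⟩, h3⟩

/-- a finite (bounded) set with a point outside the square of radius `m` about `x` has a boundary site
outside this square -/
lemma exists_bd_out {U : Set V} (hU : Bdd U) {x y : V} {m : ℤ} (hy : y ∈ U) (hy' : y ∉ Sq x m) :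
    ∃ u ∈ Bd U, u ∉ Sq x m := by
  obtain ⟨n, hn⟩ := hU
  obtain ⟨y1, y2⟩ := y
  -- a far point in the direction of `y`, and a straight path outside the square
  obtain ⟨w, hw, hw'⟩ : ∃ w : V, w ∉ U ∧ Con (Sq x m)ᶜ (y1, y2) w := by
    have far : ∀ v : V, v ∉ Sq 0 n → v ∉ U := fun v hv h => hv (hn h)
    rw [not_mem_Sq] at hy'
    simp only at hy'
    have hn' := le_abs_self n
    have h1 := le_abs_self y1
    have h2 := le_abs_self y2
    have h3 := neg_abs_le y1
    have h4 := neg_abs_le y2
    have h5 := abs_nonneg n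
    rcases hy' with h | h | h | h
    · refine ⟨(|y1| + |n| + 1, y2), far _ ?_, con_row' fun t ht _ => ?_⟩
      · rw [not_mem_Sq]
        left
        simp only [Prod.fst_zero, zero_add]
        omega
      · rw [Set.mem_compl_iff, not_mem_Sq]
        left
        simp only
        omega
    · refine ⟨(-(|y1| + |n| + 1), y2), far _ ?_, con_row' fun t _ ht => ?_⟩
      · rw [not_mem_Sq]
        right; left
        simp only [Prod.fst_zero, zero_sub]
        omega
      · rw [Set.mem_compl_iff, not_mem_Sq]
        right; left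
        simp only
        omega
    · refine ⟨(y1, |y2| + |n| + 1), far _ ?_, con_col' fun t ht _ => ?_⟩
      · rw [not_mem_Sq]
        right; right; left
        simp only [Prod.snd_zero, zero_add]
        omega
      · rw [Set.mem_compl_iff, not_mem_Sq]
        right; right; left
        simp only
        omega
    · refine ⟨(y1, -(|y2| + |n| + 1)), far _ ?_, con_col' fun t _ ht => ?_⟩
      · rw [not_mem_Sq]
        right; right; right
        simp only [Prod.snd_zero, zero_sub]
        omega
      · rw [Set.mem_compl_iff, not_mem_Sq]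
        right; right; right
        simp only
        omega
  obtain ⟨a, b, -, h2, h3, h4, -, h6⟩ := hw'.exit (A := U) hy hw
  exact ⟨a, ⟨h4, b, h2, h6⟩, h3⟩

/-- planar half of the Beurling estimate: if `x ∈ U`, the square of radius `n` about `x` is not contained
in `U`, and `U` leaves the square of radius `m`, then a diagonal path of boundary sites of `U` joins the
square of radius `n` to the outside of the square of radius `m` -/
theorem bd_arm {U : Set V} (hb : Bdd U) (hpar : ∀ u ∈ Bd U, ∀ v ∈ Bd U, ¬ Adj u v) (hU : Cnn U)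
    (hc : ∀ z ∉ U, ∀ z' ∉ U, KCon Uᶜ z z') {x y z : V} {n m : ℤ} (hn : 0 ≤ n) (hx : x ∈ U)
    (hz : z ∈ Sq x n) (hz' : z ∉ U) (hy : y ∈ U) (hy' : y ∉ Sq x m) :
    ∃ u u', u ∈ Sq x n ∧ u' ∉ Sq x m ∧ XCon (Bd U) u u' := by
  obtain ⟨u, hu, hu1⟩ := exists_bd_in hx hn hz hz'
  obtain ⟨u', hu', hu1'⟩ := exists_bd_out hb hy hy'
  exact ⟨u, u', hu1, hu1', bd_xcon hpar hU hc hu hu'⟩

end DV
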