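import Pool.Agent.Helper97.DV.Cr

/-!
# Project DV (MP_973bc8_pr): frames

TOP-0 (a path that leaves a square crosses one of four rectangles), TOP-4 (four hard crossings block),
and: four nn crossings of the rectangles of a frame lie in one component.
-/

open Relation RP4

namespace DV

/-- the first piece of a path up to the level `n` of a function with steps at most one -/
lemma Jn.level {r : V → V → Prop} {φ : V → ℤ} (hφ : ∀ a b, r a b → |φ a - φ b| ≤ 1) {T : Set V}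
    {a u : V} (h : Jn r T a u) {n : ℤ} (ha : n ≤ φ a) (hu : φ u ≤ n) :
    ∃ p, Jn r (T ∩ {v | n ≤ φ v}) a p ∧ φ p = n := by
  rcases ha.eq_or_lt with ha' | ha'
  · exact ⟨a, Jn.refl ⟨h.left, ha⟩, ha'.symm⟩
  · obtain ⟨b, c, h1, h2, h3, h4, h5, h6⟩ := h.exit (A := {v | n < φ v}) ha'
      (by simpa using hu)
    have h7 := hφ b c h2
    simp only [Set.mem_ofPred_eq, not_lt] at h4 h6
    rw [abs_le] at h7
    have h8 : φ c = n := by omega
    refine ⟨c, ?_, h8⟩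
    have h9 : Jn r (T ∩ {v | n ≤ φ v}) a b := by
      refine h1.mono (fun _ _ h => h) ?_
      rintro v ⟨hv, hv'⟩
      refine ⟨hv, ?_⟩
      show n ≤ φ v
      exact le_of_lt hv'
    exact h9.step h2 ⟨h5, h8.ge⟩

section frames

variable (r : V → V → Prop) (Q : Set V) (x : V) (n m : ℤ)

/-- hard crossing of the top rectangle of the frame -/
def XT : Prop := ∃ q q', Jn r (Q ∩ Rec (x.1 - m) (x.1 + m) (x.2 + n) (x.2 + m)) q q' ∧
  q.1 = x.1 - m ∧ q'.1 = x.1 + m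

/-- hard crossing of the bottom rectangle of the frame -/
def XB : Prop := ∃ q q', Jn r (Q ∩ Rec (x.1 - m) (x.1 + m) (x.2 - m) (x.2 - n)) q q' ∧
  q.1 = x.1 - m ∧ q'.1 = x.1 + m

/-- hard crossing of the left rectangle of the frame -/
def XL : Prop := ∃ q q', Jn r (Q ∩ Rec (x.1 - m) (x.1 - n) (x.2 - m) (x.2 + m)) q q' ∧
  q.2 = x.2 - m ∧ q'.2 = x.2 + m

/-- hard crossing of the right rectangle of the frame -/
def XR : Prop := ∃ q q', Jn r (Q ∩ Rec (x.1 + n) (x.1 + m) (x.2 - m) (x.2 + m)) q q' ∧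
  q.2 = x.2 - m ∧ q'.2 = x.2 + m

/-- hard crossings of the four rectangles of the frame between the squares of radius `n` and `m` -/
structure Frm : Prop where
  top : XT r Q x n m
  bot : XB r Q x n m
  lft : XL r Q x n m
  rgt : XR r Q x n m

end frames

lemma Frm.mono {r r' : V → V → Prop} {Q Q' : Set V} {x : V} {n m : ℤ} (hr : ∀ a b, r a b → r' a b)
    (hQ : Q ⊆ Q') (h : Frm r Q x n m) : Frm r' Q' x n m := by
  have key : ∀ R : Set V, Q ∩ R ⊆ Q' ∩ R := fun R => Set.inter_subset_inter_left R hQ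
  refine ⟨?_, ?_, ?_, ?_⟩
  · obtain ⟨q, q', h1, h2⟩ := h.top
    exact ⟨q, q', h1.mono hr (key _), h2⟩
  · obtain ⟨q, q', h1, h2⟩ := h.bot
    exact ⟨q, q', h1.mono hr (key _), h2⟩
  · obtain ⟨q, q', h1, h2⟩ := h.lft
    exact ⟨q, q', h1.mono hr (key _), h2⟩
  · obtain ⟨q, q', h1, h2⟩ := h.rgt
    exact ⟨q, q', h1.mono hr (key _), h2⟩

lemma kng_fst {u v : V} (h : Kng u v) (c : ℤ) : |(u.1 - c) - (v.1 - c)| ≤ 1 := by
  have := h.1
  rwa [sub_sub_sub_cancel_right]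

lemma kng_snd {u v : V} (h : Kng u v) (c : ℤ) : |(u.2 - c) - (v.2 - c)| ≤ 1 := by
  have := h.2
  rwa [sub_sub_sub_cancel_right]

lemma kng_fst' {u v : V} (h : Kng u v) (c : ℤ) : |(c - u.1) - (c - v.1)| ≤ 1 := by
  have := h.1
  rw [abs_sub_comm] at this
  rwa [sub_sub_sub_cancel_left]

lemma kng_snd' {u v : V} (h : Kng u v) (c : ℤ) : |(c - u.2) - (c - v.2)| ≤ 1 := by
  have := h.2
  rw [abs_sub_comm] at this
  rwa [sub_sub_sub_cancel_left]

/-- TOP-0: a path from the square of radius `n` to the outside of the square of radius `m` crosses one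
of the four rectangles of the frame between its long sides -/
theorem exit_frame {r : V → V → Prop} (hr : ∀ a b, r a b → Kng a b) (hs : ∀ a b, r a b → r b a)
    {S : Set V} {x : V} {n m : ℤ} (hnm : n ≤ m) {u v : V} (h : Jn r S u v) (hu : u ∈ Sq x n)
    (hv : v ∉ Sq x m) :
    (∃ p p', Jn r (S ∩ Rec (x.1 - m) (x.1 + m) (x.2 + n) (x.2 + m)) p p' ∧
      p.2 = x.2 + n ∧ p'.2 = x.2 + m) ∨
    (∃ p p', Jn r (S ∩ Rec (x.1 - m) (x.1 + m) (x.2 - m) (x.2 - n)) p p' ∧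
      p.2 = x.2 - m ∧ p'.2 = x.2 - n) ∨
    (∃ p p', Jn r (S ∩ Rec (x.1 - m) (x.1 - n) (x.2 - m) (x.2 + m)) p p' ∧
      p.1 = x.1 - m ∧ p'.1 = x.1 - n) ∨
    (∃ p p', Jn r (S ∩ Rec (x.1 + n) (x.1 + m) (x.2 - m) (x.2 + m)) p p' ∧
      p.1 = x.1 + n ∧ p'.1 = x.1 + m) := by
  have hu' : u ∈ Sq x m := ⟨hu.1.trans hnm, hu.2.trans hnm⟩
  obtain ⟨a, b, h1, h2, h3, h4, h5, h6⟩ := h.exit (A := Sq x m) hu' hv
  have hk := hr a b h2
  have hback : Jn r (S ∩ Sq x m) a u := h1.symm hs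
  have hu1 := hu.1
  have hu2 := hu.2
  have ha1 := h4.1
  have ha2 := h4.2
  have hk1 := hk.1
  have hk2 := hk.2
  rw [abs_le] at hu1 hu2 ha1 ha2 hk1 hk2
  have hb : x.1 + m < b.1 ∨ b.1 < x.1 - m ∨ x.2 + m < b.2 ∨ b.2 < x.2 - m := by
    by_contra hcon
    push Not at hcon
    refine h6 ⟨abs_le.2 ⟨by omega, by omega⟩, abs_le.2 ⟨by omega, by omega⟩⟩
  rcases hb with hb | hb | hb | hb
  · right; right; right
    have e : a.1 = x.1 + m := by omega
    obtain ⟨p, hp, hpn⟩ := hback.level (φ := fun v => v.1 - x.1)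
      (fun a b h => kng_fst (hr a b h) x.1) (n := n) (by omega) (by omega)
    refine ⟨p, a, (hp.symm hs).mono (fun _ _ h => h) ?_, by omega, e⟩
    rintro w ⟨⟨hw, hw'⟩, hw''⟩
    have w1 := abs_le.1 hw'.1
    have w2 := abs_le.1 hw'.2
    simp only [Set.mem_ofPred_eq] at hw''
    exact ⟨hw, by omega, by omega, by omega, by omega⟩
  · right; right; left
    have e : a.1 = x.1 - m := by omega
    obtain ⟨p, hp, hpn⟩ := hback.level (φ := fun v => x.1 - v.1)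
      (fun a b h => kng_fst' (hr a b h) x.1) (n := n) (by omega) (by omega)
    refine ⟨a, p, hp.mono (fun _ _ h => h) ?_, e, by omega⟩
    rintro w ⟨⟨hw, hw'⟩, hw''⟩
    have w1 := abs_le.1 hw'.1
    have w2 := abs_le.1 hw'.2
    simp only [Set.mem_ofPred_eq] at hw''
    exact ⟨hw, by omega, by omega, by omega, by omega⟩
  · left
    have e : a.2 = x.2 + m := by omega
    obtain ⟨p, hp, hpn⟩ := hback.level (φ := fun v => v.2 - x.2)
      (fun a b h => kng_snd (hr a b h) x.2) (n := n) (by omega) (by omega)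
    refine ⟨p, a, (hp.symm hs).mono (fun _ _ h => h) ?_, by omega, e⟩
    rintro w ⟨⟨hw, hw'⟩, hw''⟩
    have w1 := abs_le.1 hw'.1
    have w2 := abs_le.1 hw'.2
    simp only [Set.mem_ofPred_eq] at hw''
    exact ⟨hw, by omega, by omega, by omega, by omega⟩
  · right; left
    have e : a.2 = x.2 - m := by omega
    obtain ⟨p, hp, hpn⟩ := hback.level (φ := fun v => x.2 - v.2)
      (fun a b h => kng_snd' (hr a b h) x.2) (n := n) (by omega) (by omega)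
    refine ⟨a, p, hp.mono (fun _ _ h => h) ?_, e, by omega⟩
    rintro w ⟨⟨hw, hw'⟩, hw''⟩
    have w1 := abs_le.1 hw'.1
    have w2 := abs_le.1 hw'.2
    simp only [Set.mem_ofPred_eq] at hw''
    exact ⟨hw, by omega, by omega, by omega, by omega⟩

/-- TOP-4: a king frame blocks nn paths -/
theorem block_nn {P Q : Set V} {x : V} {n m : ℤ} (hnm : n ≤ m) (hQ : Frm Kng Q x n m) {u v : V}
    (h : Con P u v) (hu : u ∈ Sq x n) (hv : v ∉ Sq x m) : ∃ w, w ∈ P ∧ w ∈ Q := by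
  rcases exit_frame (fun _ _ => adj_kng) (fun _ _ => adj_symm) hnm h hu hv with
    ⟨p, p', h1, h2, h3⟩ | ⟨p, p', h1, h2, h3⟩ | ⟨p, p', h1, h2, h3⟩ | ⟨p, p', h1, h2, h3⟩
  · obtain ⟨q, q', g1, g2, g3⟩ := hQ.top
    exact cross h1 h2 h3 g1 g2 g3
  · obtain ⟨q, q', g1, g2, g3⟩ := hQ.bot
    exact cross h1 h2 h3 g1 g2 g3
  · obtain ⟨q, q', g1, g2, g3⟩ := hQ.lft
    obtain ⟨w, hw, hw'⟩ := cross' g1 g2 g3 h1 h2 h3
    exact ⟨w, hw', hw⟩
  · obtain ⟨q, q', g1, g2, g3⟩ := hQ.rgt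
    obtain ⟨w, hw, hw'⟩ := cross' g1 g2 g3 h1 h2 h3
    exact ⟨w, hw', hw⟩

/-- TOP-4: an nn frame blocks king paths -/
theorem block_king {P Q : Set V} {x : V} {n m : ℤ} (hnm : n ≤ m) (hQ : Frm Adj Q x n m) {u v : V}
    (h : KCon P u v) (hu : u ∈ Sq x n) (hv : v ∉ Sq x m) : ∃ w, w ∈ P ∧ w ∈ Q := by
  rcases exit_frame (fun _ _ h => h) (fun _ _ => kng_symm) hnm h hu hv with
    ⟨p, p', h1, h2, h3⟩ | ⟨p, p', h1, h2, h3⟩ | ⟨p, p', h1, h2, h3⟩ | ⟨p, p', h1, h2, h3⟩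
  · obtain ⟨q, q', g1, g2, g3⟩ := hQ.top
    exact cross' h1 h2 h3 g1 g2 g3
  · obtain ⟨q, q', g1, g2, g3⟩ := hQ.bot
    exact cross' h1 h2 h3 g1 g2 g3
  · obtain ⟨q, q', g1, g2, g3⟩ := hQ.lft
    obtain ⟨w, hw, hw'⟩ := cross g1 g2 g3 h1 h2 h3
    exact ⟨w, hw', hw⟩
  · obtain ⟨q, q', g1, g2, g3⟩ := hQ.rgt
    obtain ⟨w, hw, hw'⟩ := cross g1 g2 g3 h1 h2 h3
    exact ⟨w, hw', hw⟩

/-- a path lies in the component of its starting point -/
lemma con_in_comp {S Q : Set V} {u v : V} (h : Con S u v) (hS : S ⊆ Q) :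
    Con (comp Q u ∩ S) u v := by
  obtain ⟨hu, h⟩ := h
  refine ⟨⟨mem_comp_self (hS hu), hu⟩, ?_⟩
  induction h with
  | refl => exact ReflTransGen.refl
  | @tail b c hb hc ih =>
    have hb' : b ∈ comp Q u ∩ S :=
      Jn.right (r := Adj) ⟨⟨mem_comp_self (hS hu), hu⟩, ih⟩
    exact ih.tail ⟨hc.1, hb', ⟨comp_step hb'.1 hc.1 (hS hc.2.2), hc.2.2⟩⟩

/-- two crossings of one rectangle are connected -/
lemma con_of_cross {a b c d : ℤ} {Q : Set V} {p p' q q' : V}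
    (hp : Con (Q ∩ Rec a b c d) p p') (h1 : p.2 = c) (h2 : p'.2 = d)
    (hq : Con (Q ∩ Rec a b c d) q q') (h3 : q.1 = a) (h4 : q'.1 = b) : Con Q p q := by
  have g1 : Con (comp Q p ∩ Rec a b c d) p p' := by
    refine (con_in_comp hp Set.inter_subset_left).mono (fun _ _ h => h) ?_
    rintro v ⟨hv, _, hv'⟩
    exact ⟨hv, hv'⟩
  have g2 : Con (comp Q q ∩ Rec a b c d) q q' := by
    refine (con_in_comp hq Set.inter_subset_left).mono (fun _ _ h => h) ?_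
    rintro v ⟨hv, _, hv'⟩
    exact ⟨hv, hv'⟩
  obtain ⟨v, hv, hv'⟩ := cross g1 h1 h2 (g2.mono (fun _ _ => adj_kng) le_rfl) h3 h4
  exact Jn.trans hv (Con.symm' hv')

section corners

variable {Q : Set V} {x : V} {n m : ℤ}

lemma corner_tl {q q' l l' : V} (hn : 0 ≤ n) (hnm : n ≤ m)
    (hT : Con (Q ∩ Rec (x.1 - m) (x.1 + m) (x.2 + n) (x.2 + m)) q q') (h1 : q.1 = x.1 - m)
    (h2 : q'.1 = x.1 + m) (hL : Con (Q ∩ Rec (x.1 - m) (x.1 - n) (x.2 - m) (x.2 + m)) l l')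
    (h3 : l.2 = x.2 - m) (h4 : l'.2 = x.2 + m) : Con Q q l := by
  obtain ⟨p, hp, hpn⟩ := hT.level (φ := fun v => x.1 - v.1)
    (fun a b h => kng_fst' (adj_kng h) x.1) (n := n) (by omega) (by omega)
  obtain ⟨s, hs, hsn⟩ := hL.symm'.level (φ := fun v => v.2 - x.2)
    (fun a b h => kng_snd (adj_kng h) x.2) (n := n) (by omega) (by omega)
  have g1 : Con (Q ∩ Rec (x.1 - m) (x.1 - n) (x.2 + n) (x.2 + m)) q p := by
    refine hp.mono (fun _ _ h => h) ?_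
    rintro v ⟨⟨hv, a1, a2, a3, a4⟩, a5⟩
    simp only [Set.mem_ofPred_eq] at a5
    exact ⟨hv, by omega, by omega, by omega, by omega⟩
  have g2 : Con (Q ∩ Rec (x.1 - m) (x.1 - n) (x.2 + n) (x.2 + m)) l' s := by
    refine hs.mono (fun _ _ h => h) ?_
    rintro v ⟨⟨hv, a1, a2, a3, a4⟩, a5⟩
    simp only [Set.mem_ofPred_eq] at a5
    exact ⟨hv, by omega, by omega, by omega, by omega⟩
  have g3 := con_of_cross g2.symm' (by omega) h4 g1 h1 (by omega)
  have g4 : Con Q s l' := Con.symm' (g2.mono (fun _ _ h => h) Set.inter_subset_left)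
  have g5 : Con Q l l' := hL.mono (fun _ _ h => h) Set.inter_subset_left
  exact (g3.symm'.trans g4).trans g5.symm'

lemma corner_bl {q q' l l' : V} (hn : 0 ≤ n) (hnm : n ≤ m)
    (hB : Con (Q ∩ Rec (x.1 - m) (x.1 + m) (x.2 - m) (x.2 - n)) q q') (h1 : q.1 = x.1 - m)
    (h2 : q'.1 = x.1 + m) (hL : Con (Q ∩ Rec (x.1 - m) (x.1 - n) (x.2 - m) (x.2 + m)) l l')
    (h3 : l.2 = x.2 - m) (h4 : l'.2 = x.2 + m) : Con Q q l := by
  obtain ⟨p, hp, hpn⟩ := hB.level (φ := fun v => x.1 - v.1)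
    (fun a b h => kng_fst' (adj_kng h) x.1) (n := n) (by omega) (by omega)
  obtain ⟨s, hs, hsn⟩ := hL.level (φ := fun v => x.2 - v.2)
    (fun a b h => kng_snd' (adj_kng h) x.2) (n := n) (by omega) (by omega)
  have g1 : Con (Q ∩ Rec (x.1 - m) (x.1 - n) (x.2 - m) (x.2 - n)) q p := by
    refine hp.mono (fun _ _ h => h) ?_
    rintro v ⟨⟨hv, a1, a2, a3, a4⟩, a5⟩
    simp only [Set.mem_ofPred_eq] at a5
    exact ⟨hv, by omega, by omega, by omega, by omega⟩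
  have g2 : Con (Q ∩ Rec (x.1 - m) (x.1 - n) (x.2 - m) (x.2 - n)) l s := by
    refine hs.mono (fun _ _ h => h) ?_
    rintro v ⟨⟨hv, a1, a2, a3, a4⟩, a5⟩
    simp only [Set.mem_ofPred_eq] at a5
    exact ⟨hv, by omega, by omega, by omega, by omega⟩
  exact (con_of_cross g2 h3 (by omega) g1 h1 (by omega)).symm'

lemma corner_tr {q q' l l' : V} (hn : 0 ≤ n) (hnm : n ≤ m)
    (hT : Con (Q ∩ Rec (x.1 - m) (x.1 + m) (x.2 + n) (x.2 + m)) q q') (h1 : q.1 = x.1 - m)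
    (h2 : q'.1 = x.1 + m) (hR : Con (Q ∩ Rec (x.1 + n) (x.1 + m) (x.2 - m) (x.2 + m)) l l')
    (h3 : l.2 = x.2 - m) (h4 : l'.2 = x.2 + m) : Con Q q l := by
  obtain ⟨p, hp, hpn⟩ := hT.symm'.level (φ := fun v => v.1 - x.1)
    (fun a b h => kng_fst (adj_kng h) x.1) (n := n) (by omega) (by omega)
  obtain ⟨s, hs, hsn⟩ := hR.symm'.level (φ := fun v => v.2 - x.2)
    (fun a b h => kng_snd (adj_kng h) x.2) (n := n) (by omega) (by omega)
  have g1 : Con (Q ∩ Rec (x.1 + n) (x.1 + m) (x.2 + n) (x.2 + m)) q' p := by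
    refine hp.mono (fun _ _ h => h) ?_
    rintro v ⟨⟨hv, a1, a2, a3, a4⟩, a5⟩
    simp only [Set.mem_ofPred_eq] at a5
    exact ⟨hv, by omega, by omega, by omega, by omega⟩
  have g2 : Con (Q ∩ Rec (x.1 + n) (x.1 + m) (x.2 + n) (x.2 + m)) l' s := by
    refine hs.mono (fun _ _ h => h) ?_
    rintro v ⟨⟨hv, a1, a2, a3, a4⟩, a5⟩
    simp only [Set.mem_ofPred_eq] at a5
    exact ⟨hv, by omega, by omega, by omega, by omega⟩
  have g3 := con_of_cross g2.symm' (by omega) h4 g1.symm' (by omega) h2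
  have g4 : Con Q s l' := Con.symm' (g2.mono (fun _ _ h => h) Set.inter_subset_left)
  have g5 : Con Q l l' := hR.mono (fun _ _ h => h) Set.inter_subset_left
  have g6 : Con Q p q' := Con.symm' (g1.mono (fun _ _ h => h) Set.inter_subset_left)
  have g7 : Con Q q q' := hT.mono (fun _ _ h => h) Set.inter_subset_left
  -- `q, q', p, s, l', l`
  exact g7.trans (g6.symm'.trans (g3.symm'.trans (g4.trans g5.symm')))

/-- four nn crossings of the rectangles of a frame lie in one component -/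
theorem frame_one (hn : 0 ≤ n) (hnm : n ≤ m) (hQ : Frm Adj Q x n m) :
    ∃ q ∈ Q, Frm Adj (comp Q q) x n m := by
  obtain ⟨⟨q, q', t1, t2, t3⟩, ⟨b, b', b1, b2, b3⟩, ⟨l, l', l1, l2, l3⟩, ⟨s, s', s1, s2, s3⟩⟩ := hQ
  have e1 : Con Q q l := corner_tl hn hnm t1 t2 t3 l1 l2 l3
  have e2 : Con Q b l := corner_bl hn hnm b1 b2 b3 l1 l2 l3
  have e3 : Con Q q s := corner_tr hn hnm t1 t2 t3 s1 s2 s3
  have e4 : Con Q q b := e1.trans e2.symm'
  have key : ∀ {R : Set V} {u v : V}, Con Q q u → Con (Q ∩ R) u v → Con (comp Q q ∩ R) u v := by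
    intro R u v h1 h2
    have h3 := con_in_comp h2 Set.inter_subset_left
    rw [comp_eq_of_mem (u := q) (v := u) h1] at h3
    refine h3.mono (fun _ _ h => h) ?_
    rintro w ⟨hw, _, hw'⟩
    exact ⟨hw, hw'⟩
  refine ⟨q, t1.left.1, ⟨q, q', key (Jn.refl t1.left.1) t1, t2, t3⟩, ⟨b, b', key e4 b1, b2, b3⟩,
    ⟨l, l', key e1 l1, l2, l3⟩, ⟨s, s', key e3 s1, s2, s3⟩⟩

end corners

end DV
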