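import Pool.Agent.Helper63.RP4.Defs

/-!
# Project DV (MP_973bc8_pr): connections in the square lattice

nn connection and king connection inside a set, clusters, rectangles.
-/

open Relation RP4

namespace DV

lemma adj_symm {u v : V} (h : Adj u v) : Adj v u := by
  unfold Adj at *
  rw [abs_sub_comm v.1, abs_sub_comm v.2]
  exact h

lemma adj_comm {u v : V} : Adj u v ↔ Adj v u := ⟨adj_symm, adj_symm⟩

/-- king adjacency (nearest or diagonal neighbours, or equal) -/
def Kng (u v : V) : Prop := |u.1 - v.1| ≤ 1 ∧ |u.2 - v.2| ≤ 1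

/-- diagonal adjacency -/
def Dia (u v : V) : Prop := |u.1 - v.1| = 1 ∧ |u.2 - v.2| = 1

lemma kng_symm {u v : V} (h : Kng u v) : Kng v u := by
  unfold Kng at *
  rw [abs_sub_comm v.1, abs_sub_comm v.2]
  exact h

lemma dia_symm {u v : V} (h : Dia u v) : Dia v u := by
  unfold Dia at *
  rw [abs_sub_comm v.1, abs_sub_comm v.2]
  exact h

lemma adj_kng {u v : V} (h : Adj u v) : Kng u v := by
  unfold Adj at h
  unfold Kng
  have h1 := abs_nonneg (u.1 - v.1)
  have h2 := abs_nonneg (u.2 - v.2)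
  constructor <;> linarith

lemma dia_kng {u v : V} (h : Dia u v) : Kng u v := ⟨h.1.le, h.2.le⟩

/-- a step of the relation `r` inside the set `S` -/
def Stp (r : V → V → Prop) (S : Set V) (u v : V) : Prop := r u v ∧ u ∈ S ∧ v ∈ S

/-- `u` and `v` are joined by a path of steps of `r` inside `S` -/
def Jn (r : V → V → Prop) (S : Set V) (u v : V) : Prop := u ∈ S ∧ ReflTransGen (Stp r S) u v

/-- nn connection inside `S` -/
abbrev Con (S : Set V) (u v : V) : Prop := Jn Adj S u v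

/-- king connection inside `S` -/
abbrev KCon (S : Set V) (u v : V) : Prop := Jn Kng S u v

/-- diagonal connection inside `S` -/
abbrev XCon (S : Set V) (u v : V) : Prop := Jn Dia S u v

variable {r r' : V → V → Prop} {S T : Set V} {u v w : V}

lemma Jn.left (h : Jn r S u v) : u ∈ S := h.1

lemma Jn.right (h : Jn r S u v) : v ∈ S := by
  obtain ⟨hu, h⟩ := h
  induction h with
  | refl => exact hu
  | tail _ h _ => exact h.2.2

lemma Jn.refl (h : u ∈ S) : Jn r S u u := ⟨h, ReflTransGen.refl⟩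

lemma Jn.trans (h : Jn r S u v) (h' : Jn r S v w) : Jn r S u w := ⟨h.1, h.2.trans h'.2⟩

lemma Jn.symm (hr : ∀ a b, r a b → r b a) (h : Jn r S u v) : Jn r S v u := by
  refine ⟨h.right, ?_⟩
  obtain ⟨hu, h⟩ := h
  induction h with
  | refl => exact ReflTransGen.refl
  | tail _ h ih => exact ReflTransGen.head ⟨hr _ _ h.1, h.2.2, h.2.1⟩ ih

lemma Con.symm' (h : Con S u v) : Con S v u := Jn.symm (fun _ _ => adj_symm) h

lemma KCon.symm' (h : KCon S u v) : KCon S v u := Jn.symm (fun _ _ => kng_symm) h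

lemma XCon.symm' (h : XCon S u v) : XCon S v u := Jn.symm (fun _ _ => dia_symm) h

lemma Jn.mono (hr : ∀ a b, r a b → r' a b) (hST : S ⊆ T) (h : Jn r S u v) : Jn r' T u v :=
  ⟨hST h.1, ReflTransGen.mono (fun _ _ h' => ⟨hr _ _ h'.1, hST h'.2.1, hST h'.2.2⟩) _ _ h.2⟩

lemma Jn.single (h : r u v) (hu : u ∈ S) (hv : v ∈ S) : Jn r S u v :=
  ⟨hu, ReflTransGen.single ⟨h, hu, hv⟩⟩

lemma Jn.step (h : Jn r S u v) (h' : r v w) (hw : w ∈ S) : Jn r S u w :=
  h.trans (Jn.single h' h.right hw)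

/-- a property that passes along the steps holds at the end -/
lemma Jn.prop {P : V → Prop} (h : Jn r S u v) (hu : P u)
    (hs : ∀ a b, r a b → a ∈ S → b ∈ S → P a → P b) : P v := by
  obtain ⟨_, h⟩ := h
  induction h with
  | refl => exact hu
  | tail _ h ih => exact hs _ _ h.1 h.2.1 h.2.2 ih

/-- a path from inside `A` to outside `A` has a last point in `A` before it leaves -/
lemma Jn.exit {A : Set V} (h : Jn r S u v) (hu : u ∈ A) (hv : v ∉ A) :
    ∃ a b, Jn r (S ∩ A) u a ∧ r a b ∧ a ∈ S ∧ a ∈ A ∧ b ∈ S ∧ b ∉ A := by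
  by_contra hcon
  push Not at hcon
  have key : Jn r (S ∩ A) u v := by
    obtain ⟨hu', h⟩ := h
    refine ⟨⟨hu', hu⟩, ?_⟩
    clear hv
    induction h with
    | refl => exact ReflTransGen.refl
    | @tail b c hb hc ih =>
      have hb' : Jn r (S ∩ A) u b := ⟨⟨hu', hu⟩, ih⟩
      have hbA : b ∈ S ∩ A := hb'.right
      have hcA : c ∈ A := by
        by_contra hcA
        exact hcA (by
          by_contra h2
          exact h2 (hcon b c hb' hc.1 hbA.1 hbA.2 hc.2.2))
      exact ih.tail ⟨hc.1, hbA, ⟨hc.2.2, hcA⟩⟩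
  exact hv key.right.2

/-- the cluster of the set `A` in `S` (nn connection) -/
def clus (S A : Set V) : Set V := {v | ∃ u ∈ A, Con S u v}

lemma mem_clus {S A : Set V} {v : V} : v ∈ clus S A ↔ ∃ u ∈ A, Con S u v := Iff.rfl

lemma clus_sub (S A : Set V) : clus S A ⊆ S := by
  rintro v ⟨u, _, h⟩
  exact h.right

lemma sub_clus {S A : Set V} {u : V} (hu : u ∈ A) (hS : u ∈ S) : u ∈ clus S A := ⟨u, hu, Jn.refl hS⟩

lemma clus_step {S A : Set V} {u v : V} (hu : u ∈ clus S A) (h : Adj u v) (hv : v ∈ S) :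
    v ∈ clus S A := by
  obtain ⟨a, ha, h'⟩ := hu
  exact ⟨a, ha, h'.step h hv⟩

lemma clus_mono {S T A B : Set V} (hS : S ⊆ T) (hA : A ⊆ B) : clus S A ⊆ clus T B := by
  rintro v ⟨u, hu, h⟩
  exact ⟨u, hA hu, h.mono (fun _ _ h => h) hS⟩

/-- a path inside `S` that starts in the cluster stays in the cluster -/
lemma clus_con {S A : Set V} {u v : V} (hu : u ∈ clus S A) (h : Con S u v) : Con (clus S A) u v := by
  refine ⟨hu, ?_⟩
  obtain ⟨hu', h⟩ := h
  induction h with
  | refl => exact ReflTransGen.refl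
  | @tail b c hb hc ih =>
    have hb' : b ∈ clus S A := Jn.right (r := Adj) ⟨hu, ih⟩
    exact ih.tail ⟨hc.1, hb', clus_step hb' hc.1 hc.2.2⟩

/-- the set is nn connected -/
def Cnn (U : Set V) : Prop := ∀ u ∈ U, ∀ v ∈ U, Con U u v

/-- the nn component of `u` in `U` -/
def comp (U : Set V) (u : V) : Set V := {v | Con U u v}

lemma comp_sub (U : Set V) (u : V) : comp U u ⊆ U := fun _ h => Jn.right h

lemma mem_comp_self {U : Set V} {u : V} (h : u ∈ U) : u ∈ comp U u := Jn.refl h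

lemma comp_step {U : Set V} {u v w : V} (hv : v ∈ comp U u) (h : Adj v w) (hw : w ∈ U) :
    w ∈ comp U u := Jn.step hv h hw

lemma comp_eq_clus (U : Set V) (u : V) : comp U u = clus U {u} := by
  ext v
  simp [comp, clus]

lemma comp_cnn (U : Set V) (u : V) : Cnn (comp U u) := by
  intro a ha b hb
  rw [comp_eq_clus] at ha hb ⊢
  obtain ⟨_, rfl, ha'⟩ := ha
  obtain ⟨_, rfl, hb'⟩ := hb
  exact clus_con ⟨_, rfl, ha'⟩ (ha'.symm'.trans hb')

lemma comp_eq_of_mem {U : Set V} {u v : V} (h : v ∈ comp U u) : comp U v = comp U u := by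
  ext w
  exact ⟨fun h' => Jn.trans h h', fun h' => Jn.trans (Con.symm' h) h'⟩

/-- the closed rectangle `[a, b] × [c, d]` -/
def Rec (a b c d : ℤ) : Set V := {v | a ≤ v.1 ∧ v.1 ≤ b ∧ c ≤ v.2 ∧ v.2 ≤ d}

/-- the square of radius `n` about `x` -/
def Sq (x : V) (n : ℤ) : Set V := {v | |v.1 - x.1| ≤ n ∧ |v.2 - x.2| ≤ n}

/-- boundary sites of `U`: sites of `U` with a neighbour outside `U` -/
def Bd (U : Set V) : Set V := {v | v ∈ U ∧ ∃ z, Adj v z ∧ z ∉ U}

lemma mem_Bd {U : Set V} {v : V} : v ∈ Bd U ↔ v ∈ U ∧ ∃ z, Adj v z ∧ z ∉ U := Iff.rfl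

lemma Bd_coe (D : Finset V) : Bd (D : Set V) = (bdry D : Set V) := by
  ext v
  rw [Finset.mem_coe, mem_bdry, mem_Bd]
  constructor
  · rintro ⟨h, z, hz, hz'⟩
    exact ⟨h, z, adj_symm hz, hz'⟩
  · rintro ⟨h, z, hz, hz'⟩
    exact ⟨h, z, adj_symm hz, hz'⟩

end DV
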