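import Pool.Agent.Helper63.RP4.A05
import Pool.Agent.Helper97.DV.Tp

/-!
# Project DV (MP_973bc8_pr): general FKG inequality for absolute values

GFKG: height functions `g` on `D` with `|g| ∈ T` and `g ≥ 0` on `B`, against `|g| ∈ T'` and `g ≥ 0` on
`B'`, where `T' ⊓ T ⊆ T'` and `T' ⊔ T ⊆ T`.
-/

open Finset RP4

namespace DV

/-- sign patterns compatible with the absolute value `ξ`, positive on `B` -/
def GB (D : Finset V) (B : Set V) (ξ : V → ℤ) : Submodule (ZMod 2) (D → ZMod 2) where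
  carrier := {σ | (∀ u v : D, Adj u.1 v.1 → ξ u.1 ≠ 0 → ξ v.1 ≠ 0 → σ u = σ v) ∧
    ∀ v : D, v.1 ∈ B → ξ v.1 ≠ 0 → σ v = 0}
  add_mem' := fun {a b} ha hb => ⟨fun u v h1 h2 h3 => by
    simp only [Pi.add_apply, ha.1 u v h1 h2 h3, hb.1 u v h1 h2 h3], fun v h1 h2 => by
    simp only [Pi.add_apply, ha.2 v h1 h2, hb.2 v h1 h2, add_zero]⟩
  zero_mem' := ⟨fun u v _ _ _ => rfl, fun v _ _ => rfl⟩
  smul_mem' := fun c a ha => ⟨fun u v h1 h2 h3 => by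
    simp only [Pi.smul_apply, ha.1 u v h1 h2 h3], fun v h1 h2 => by
    simp only [Pi.smul_apply, ha.2 v h1 h2, smul_zero]⟩

lemma GB_le (D : Finset V) (B : Set V) (ξ : V → ℤ) : GB D B ξ ≤ A04_G D ξ := fun _ h => h.1

/-- the set of height functions with absolute value `ξ`, nonnegative on `B` -/
def SgSet (D : Finset V) (p : ℤ) (B : Set V) (ξ : V → ℤ) : Set (V → ℤ) :=
  {g | IsHom D p g ∧ (fun v => |g v|) = ξ ∧ ∀ v ∈ B, 0 ≤ g v}

open Classical in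
/-- the bijection -/
noncomputable def GB_equiv {D : Finset V} {p : ℤ} {B : Set V} {ξ : V → ℤ} (h : IsHom D p ξ)
    (h0 : ∀ v, 0 ≤ ξ v) {M : Finset (V → ℤ)} (hM : ∀ g, g ∈ M ↔ g ∈ SgSet D p B ξ) :
    GB D B ξ ≃ {g // g ∈ M} × ({v : D // ξ v.1 = 0} → ZMod 2) where
  toFun σ := (⟨A04_app D ξ σ.1, by
    rw [hM]
    refine ⟨A04_app_hom h h0 σ.2.1, A04_app_abs h h0 σ.1, fun v hv => ?_⟩
    by_cases hvD : v ∈ D
    · simp only [A04_app, dif_pos hvD]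
      by_cases hz : ξ v = 0
      · rw [hz]
        simp
      · have h1 : σ.1 ⟨v, hvD⟩ = 0 := σ.2.2 ⟨v, hvD⟩ hv hz
        rw [h1, if_neg (by decide)]
        exact h0 v
    · simp only [A04_app, dif_neg hvD]
      exact le_rfl⟩, fun v => σ.1 v.1)
  invFun x := ⟨A04_sg D ξ x.1.1 x.2, by
    have h1 := (hM _).1 x.1.2
    refine ⟨A04_sg_mem h1.1 h1.2.1 x.2, fun v hv hz => ?_⟩
    simp only [A04_sg, dif_neg hz]
    rw [if_neg (not_lt.2 (h1.2.2 v.1 hv))]⟩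
  left_inv σ := by
    apply Subtype.ext
    funext v
    simp only [A04_sg]
    split_ifs with h1 h2
    · rfl
    · simp only [A04_app, dif_pos v.2] at h2
      rcases A04_zmod (σ.1 v) with h3 | h3
      · exfalso
        have h4 : σ.1 ⟨v.1, v.2⟩ = 0 := h3
        rw [h4, if_neg (by decide)] at h2
        have := h0 v.1
        omega
      · exact h3.symm
    · simp only [A04_app, dif_pos v.2] at h2
      rcases A04_zmod (σ.1 v) with h3 | h3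
      · exact h3.symm
      · exfalso
        have h4 : σ.1 ⟨v.1, v.2⟩ = 1 := h3
        rw [h4, if_pos rfl] at h2
        have := h0 v.1
        omega
  right_inv x := by
    have hx := (hM _).1 x.1.2
    obtain ⟨hx1, hx2, -⟩ := hx
    apply Prod.ext
    · apply Subtype.ext
      funext v
      simp only [A04_app]
      have h5 := congrFun hx2 v
      by_cases hv : v ∈ D
      · rw [dif_pos hv]
        simp only [A04_sg]
        by_cases h1 : ξ v = 0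
        · have h6 : ∀ c : Prop, [Decidable c] → (if c then -ξ v else ξ v) = 0 := by
            intro c _
            rw [h1, neg_zero, ite_self]
          rw [h6]
          rw [h1, abs_eq_zero] at h5
          exact h5.symm
        · rw [dif_neg h1]
          by_cases h2 : x.1.1 v < 0
          · rw [if_pos h2, if_pos rfl, ← h5, abs_of_neg h2, neg_neg]
          · rw [if_neg h2, if_neg (by decide), ← h5, abs_of_nonneg (not_lt.1 h2)]
      · rw [dif_neg hv, hx1.off v hv]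
    · funext v
      simp only [A04_sg]
      rw [dif_pos v.2]

lemma GB_card {D : Finset V} {p : ℤ} {B : Set V} {ξ : V → ℤ} (h : IsHom D p ξ)
    (h0 : ∀ v, 0 ≤ ξ v) {M : Finset (V → ℤ)} (hM : ∀ g, g ∈ M ↔ g ∈ SgSet D p B ξ) :
    Nat.card (GB D B ξ) = M.card * 2 ^ (D.filter (fun v => ξ v = 0)).card := by
  classical
  rw [Nat.card_congr (GB_equiv h h0 hM), Nat.card_prod, Nat.card_eq_fintype_card,
    Fintype.card_coe, Nat.card_eq_fintype_card, Fintype.card_fun, ZMod.card]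
  congr 2
  rw [Fintype.card_subtype]
  rw [← card_image_of_injective _ Subtype.val_injective]
  congr 1
  ext v
  simp only [mem_image, mem_filter, mem_univ, true_and, Subtype.exists, exists_and_left,
    exists_prop, and_comm]
  constructor
  · rintro ⟨a, rfl, ha⟩
    exact ha
  · intro ha
    exact ⟨v, rfl, ha⟩

lemma GB_inf {D : Finset V} {p : ℤ} {B B' : Set V} {ξ' ξ : V → ℤ} (h' : IsHom D p ξ')
    (h : IsHom D p ξ) (h0' : ∀ v, 0 ≤ ξ' v) (h0 : ∀ v, 0 ≤ ξ v)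
    (hB : ∀ v ∈ B, v ∉ B' → ξ v = 0 → ξ' v = 0) :
    GB D B' ξ' ⊓ GB D B ξ ≤ GB D B (ξ' ⊔ ξ) := by
  rintro σ ⟨h1, h2⟩
  refine ⟨A04_inf h' h h0' h0 ⟨h1.1, h2.1⟩, fun v hv hz => ?_⟩
  by_cases hz' : ξ v.1 = 0
  · by_cases hv' : v.1 ∈ B'
    · refine h1.2 v hv' fun hz1 => hz ?_
      rw [Pi.sup_apply, hz', hz1, max_self]
    · exfalso
      apply hz
      rw [Pi.sup_apply, hz', hB v.1 hv hv' hz', max_self]
  · exact h2.2 v hv hz'

lemma GB_sup {D : Finset V} {B B' : Set V} {ξ' ξ : V → ℤ} (h0' : ∀ v, 0 ≤ ξ' v)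
    (h0 : ∀ v, 0 ≤ ξ v) (hBB : B' ⊆ B) : GB D B' ξ' ⊔ GB D B ξ ≤ GB D B' (ξ' ⊓ ξ) := by
  apply sup_le
  · intro σ h1
    refine ⟨A04_sup h0' h0 (Submodule.mem_sup_left h1.1), fun v hv hz => h1.2 v hv fun hc => hz ?_⟩
    rw [Pi.inf_apply, hc, min_eq_left (h0 _)]
  · intro σ h1
    refine ⟨A04_sup h0' h0 (Submodule.mem_sup_right h1.1), fun v hv hz =>
      h1.2 v (hBB hv) fun hc => hz ?_⟩
    rw [Pi.inf_apply, hc, min_eq_right (h0' _)]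

lemma GB_main {D : Finset V} {p : ℤ} {B B' : Set V} {ξ' ξ : V → ℤ} (h' : IsHom D p ξ')
    (h : IsHom D p ξ) (h0' : ∀ v, 0 ≤ ξ' v) (h0 : ∀ v, 0 ≤ ξ v) (hBB : B' ⊆ B)
    (hB : ∀ v ∈ B, v ∉ B' → ξ v = 0 → ξ' v = 0) :
    Nat.card (GB D B' ξ') * Nat.card (GB D B ξ) ≤
      Nat.card (GB D B' (ξ' ⊓ ξ)) * Nat.card (GB D B (ξ' ⊔ ξ)) := by
  simp only [A04_natcard, ← pow_add]
  apply Nat.pow_le_pow_right (by norm_num)
  rw [← Submodule.finrank_sup_add_finrank_inf_eq]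
  exact add_le_add (Submodule.finrank_mono (GB_sup h0' h0 hBB))
    (Submodule.finrank_mono (GB_inf h' h h0' h0 hB))

/-- supermodularity of the number of sign choices -/
lemma sg_supermodular {D : Finset V} {p : ℤ} {B B' : Set V} {ξ' ξ : V → ℤ} (h' : IsHom D p ξ')
    (h : IsHom D p ξ) (h0' : ∀ v, 0 ≤ ξ' v) (h0 : ∀ v, 0 ≤ ξ v) (hBB : B' ⊆ B)
    (hB : ∀ v ∈ B, v ∉ B' → ξ v = 0 → ξ' v = 0) {M₁ M₂ M₃ M₄ : Finset (V → ℤ)}
    (h1 : ∀ g, g ∈ M₁ ↔ g ∈ SgSet D p B' ξ') (h2 : ∀ g, g ∈ M₂ ↔ g ∈ SgSet D p B ξ)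
    (h3 : ∀ g, g ∈ M₃ ↔ g ∈ SgSet D p B' (ξ' ⊓ ξ)) (h4 : ∀ g, g ∈ M₄ ↔ g ∈ SgSet D p B (ξ' ⊔ ξ)) :
    M₁.card * M₂.card ≤ M₃.card * M₄.card := by
  classical
  have key := GB_main h' h h0' h0 hBB hB
  rw [GB_card h' h0' h1, GB_card h h0 h2,
    GB_card (h'.inf h) (fun v => le_inf (h0' v) (h0 v)) h3,
    GB_card (h'.sup h) (fun v => (h0' v).trans le_sup_left) h4,
    mul_mul_mul_comm M₁.card, mul_mul_mul_comm M₃.card, ← pow_add, ← pow_add,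
    A04_zeros D h0' h0] at key
  exact Nat.le_of_mul_le_mul_right key (by positivity)

/-- the absolute value of a function -/
def absf (g : V → ℤ) : V → ℤ := fun v => |g v|

lemma absf_nonneg (g : V → ℤ) (v : V) : 0 ≤ absf g v := abs_nonneg _

lemma absf_absf (g : V → ℤ) : absf (absf g) = absf g := by
  funext v
  exact abs_abs _

lemma absf_of_nonneg {g : V → ℤ} (h : ∀ v, 0 ≤ g v) : absf g = g := by
  funext v
  exact abs_of_nonneg (h v)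

open Classical in
/-- sums over functions with absolute value in a set -/
lemma sum_absf {D : Finset V} {p : ℤ} {B : Set V} {T : Set (V → ℤ)} {A : Finset (V → ℤ)}
    (hA : ∀ g, g ∈ A ↔ IsHom D p g ∧ absf g ∈ T ∧ ∀ v ∈ B, 0 ≤ g v) (F : (V → ℤ) → ℝ)
    (habs : ∀ g, F (absf g) = F g) :
    ∑ g ∈ A, F g = ∑ ξ ∈ A.image absf, ((A.filter fun g => absf g = ξ).card : ℝ) * F ξ := by
  rw [← Finset.sum_fiberwise_of_maps_to (s := A) (t := A.image absf) (g := absf)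
    (fun g hg => Finset.mem_image_of_mem _ hg)]
  refine Finset.sum_congr rfl fun ξ _ => ?_
  have hsum : ∑ g ∈ A.filter (fun g => absf g = ξ), F g =
      ∑ g ∈ A.filter (fun g => absf g = ξ), F ξ := by
    refine Finset.sum_congr rfl fun g hg => ?_
    rw [← habs g, (Finset.mem_filter.1 hg).2]
  rw [hsum, Finset.sum_const, nsmul_eq_mul]

open Classical in
lemma mem_image_absf {D : Finset V} {p : ℤ} {B : Set V} {T : Set (V → ℤ)} {A : Finset (V → ℤ)}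
    (hA : ∀ g, g ∈ A ↔ IsHom D p g ∧ absf g ∈ T ∧ ∀ v ∈ B, 0 ≤ g v) {ξ : V → ℤ} :
    ξ ∈ A.image absf ↔ IsHom D p ξ ∧ ξ ∈ T ∧ ∀ v, 0 ≤ ξ v := by
  constructor
  · intro h
    obtain ⟨g, hg, rfl⟩ := Finset.mem_image.1 h
    obtain ⟨h1, h2, h3⟩ := (hA g).1 hg
    exact ⟨h1.abs, h2, absf_nonneg g⟩
  · rintro ⟨h1, h2, h3⟩
    refine Finset.mem_image.2 ⟨ξ, (hA ξ).2 ⟨h1, ?_, fun v _ => h3 v⟩, absf_of_nonneg h3⟩
    rw [absf_of_nonneg h3]
    exact h2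

open Classical in
lemma fiber_iff {D : Finset V} {p : ℤ} {B : Set V} {T : Set (V → ℤ)} {A : Finset (V → ℤ)}
    (hA : ∀ g, g ∈ A ↔ IsHom D p g ∧ absf g ∈ T ∧ ∀ v ∈ B, 0 ≤ g v) {ξ : V → ℤ}
    (hξ : ξ ∈ A.image absf) (g : V → ℤ) :
    g ∈ A.filter (fun g => absf g = ξ) ↔ g ∈ SgSet D p B ξ := by
  obtain ⟨-, h2, -⟩ := (mem_image_absf hA).1 hξ
  rw [Finset.mem_filter, hA]
  constructor
  · rintro ⟨⟨g1, g2, g3⟩, g4⟩
    exact ⟨g1, g4, g3⟩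
  · rintro ⟨g1, g4, g3⟩
    have g4' : absf g = ξ := g4
    exact ⟨⟨g1, g4' ▸ h2, g3⟩, g4'⟩

/-- GFKG -/
theorem gfkg {D : Finset V} {p : ℤ} {B B' : Set V} {T T' : Set (V → ℤ)} {A A' : Finset (V → ℤ)}
    (hA' : ∀ g, g ∈ A' ↔ IsHom D p g ∧ absf g ∈ T' ∧ ∀ v ∈ B', 0 ≤ g v)
    (hA : ∀ g, g ∈ A ↔ IsHom D p g ∧ absf g ∈ T ∧ ∀ v ∈ B, 0 ≤ g v)
    (hinf : ∀ ξ' ∈ T', ∀ ξ ∈ T, IsHom D p ξ' → IsHom D p ξ → (∀ v, 0 ≤ ξ' v) → (∀ v, 0 ≤ ξ v) →
      ξ' ⊓ ξ ∈ T')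
    (hsup : ∀ ξ' ∈ T', ∀ ξ ∈ T, IsHom D p ξ' → IsHom D p ξ → (∀ v, 0 ≤ ξ' v) → (∀ v, 0 ≤ ξ v) →
      ξ' ⊔ ξ ∈ T)
    (hBB : B' ⊆ B) (hB : ∀ ξ' ∈ T', ∀ ξ ∈ T, ∀ v ∈ B, v ∉ B' → ξ v = 0 → ξ' v = 0)
    (hne' : A'.Nonempty) (hne : A.Nonempty) (F : (V → ℤ) → ℝ) (hF0 : ∀ g, 0 ≤ F g)
    (habs : ∀ g : V → ℤ, F (absf g) = F g)
    (hF : ∀ g g' : V → ℤ, (∀ v, 0 ≤ g v) → (∀ v, g v ≤ g' v) → F g ≤ F g') :
    avg A' F ≤ avg A F := by
  classical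
  have hN : (0 : ℝ) < (A.card : ℝ) := by exact_mod_cast hne.card_pos
  have hN' : (0 : ℝ) < (A'.card : ℝ) := by exact_mod_cast hne'.card_pos
  obtain ⟨S, hS⟩ : ∃ S : Finset (V → ℤ), S = A.image absf := ⟨_, rfl⟩
  obtain ⟨S', hS'⟩ : ∃ S : Finset (V → ℤ), S = A'.image absf := ⟨_, rfl⟩
  obtain ⟨m, hm⟩ : ∃ m : (V → ℤ) → ℝ, m = fun ξ => ((A.filter fun g => absf g = ξ).card : ℝ) :=
    ⟨_, rfl⟩
  obtain ⟨m', hm'⟩ : ∃ m : (V → ℤ) → ℝ,
      m = fun ξ => ((A'.filter fun g => absf g = ξ).card : ℝ) := ⟨_, rfl⟩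
  have hm0 : ∀ ξ, 0 ≤ m ξ := fun ξ => by rw [hm]; exact Nat.cast_nonneg _
  have hm0' : ∀ ξ, 0 ≤ m' ξ := fun ξ => by rw [hm']; exact Nat.cast_nonneg _
  have hmem : ∀ ξ, ξ ∈ S ↔ IsHom D p ξ ∧ ξ ∈ T ∧ ∀ v, 0 ≤ ξ v := by
    intro ξ
    rw [hS]
    exact mem_image_absf hA
  have hmem' : ∀ ξ, ξ ∈ S' ↔ IsHom D p ξ ∧ ξ ∈ T' ∧ ∀ v, 0 ≤ ξ v := by
    intro ξ
    rw [hS']
    exact mem_image_absf hA'
  -- the sums
  have e1 : ∑ g ∈ A, F g = ∑ ξ ∈ S, m ξ * F ξ := by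
    rw [hS, hm]
    exact sum_absf hA F habs
  have e1' : ∑ g ∈ A', F g = ∑ ξ ∈ S', m' ξ * F ξ := by
    rw [hS', hm']
    exact sum_absf hA' F habs
  have e2 : (A.card : ℝ) = ∑ ξ ∈ S, m ξ := by
    have h := sum_absf hA (fun _ => (1 : ℝ)) (fun _ => rfl)
    simp only [Finset.sum_const, nsmul_eq_mul, mul_one] at h
    rw [hS, hm]
    exact h
  have e2' : (A'.card : ℝ) = ∑ ξ ∈ S', m' ξ := by
    have h := sum_absf hA' (fun _ => (1 : ℝ)) (fun _ => rfl)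
    simp only [Finset.sum_const, nsmul_eq_mul, mul_one] at h
    rw [hS', hm']
    exact h
  -- the four functions
  obtain ⟨f₁, hf₁⟩ : ∃ f : (V → ℤ) → ℝ, f = fun a => if a ∈ S' then m' a * F a else 0 := ⟨_, rfl⟩
  obtain ⟨f₂, hf₂⟩ : ∃ f : (V → ℤ) → ℝ, f = fun a => if a ∈ S then m a else 0 := ⟨_, rfl⟩
  obtain ⟨f₃, hf₃⟩ : ∃ f : (V → ℤ) → ℝ, f = fun a => if a ∈ S' then m' a else 0 := ⟨_, rfl⟩
  obtain ⟨f₄, hf₄⟩ : ∃ f : (V → ℤ) → ℝ, f = fun a => if a ∈ S then m a * F a else 0 := ⟨_, rfl⟩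
  have p1 : 0 ≤ f₁ := by
    intro a
    rw [hf₁]
    show 0 ≤ (if a ∈ S' then m' a * F a else 0)
    split_ifs with h
    · exact mul_nonneg (hm0' _) (hF0 _)
    · exact le_rfl
  have p2 : 0 ≤ f₂ := by
    intro a
    rw [hf₂]
    show 0 ≤ (if a ∈ S then m a else 0)
    split_ifs
    · exact hm0 _
    · exact le_rfl
  have p3 : 0 ≤ f₃ := by
    intro a
    rw [hf₃]
    show 0 ≤ (if a ∈ S' then m' a else 0)
    split_ifs
    · exact hm0' _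
    · exact le_rfl
  have p4 : 0 ≤ f₄ := by
    intro a
    rw [hf₄]
    show 0 ≤ (if a ∈ S then m a * F a else 0)
    split_ifs with h
    · exact mul_nonneg (hm0 _) (hF0 _)
    · exact le_rfl
  have hkey : ∀ a b, f₁ a * f₂ b ≤ f₃ (a ⊓ b) * f₄ (a ⊔ b) := by
    intro a b
    by_cases ha : a ∈ S'
    · by_cases hb : b ∈ S
      · obtain ⟨a1, a2, a3⟩ := (hmem' a).1 ha
        obtain ⟨b1, b2, b3⟩ := (hmem b).1 hb
        have hinf' : a ⊓ b ∈ S' :=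
          (hmem' _).2 ⟨a1.inf b1, hinf a a2 b b2 a1 b1 a3 b3, fun v => le_min (a3 v) (b3 v)⟩
        have hsup' : a ⊔ b ∈ S :=
          (hmem _).2 ⟨a1.sup b1, hsup a a2 b b2 a1 b1 a3 b3, fun v => le_max_of_le_left (a3 v)⟩
        have h1 : f₁ a = m' a * F a := by rw [hf₁]; exact if_pos ha
        have h2 : f₂ b = m b := by rw [hf₂]; exact if_pos hb
        have h3 : f₃ (a ⊓ b) = m' (a ⊓ b) := by rw [hf₃]; exact if_pos hinf'
        have h4 : f₄ (a ⊔ b) = m (a ⊔ b) * F (a ⊔ b) := by rw [hf₄]; exact if_pos hsup'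
        rw [h1, h2, h3, h4]
        have hmm1 : m' a * m b ≤ m' (a ⊓ b) * m (a ⊔ b) := by
          have hsm := sg_supermodular a1 b1 a3 b3 hBB (hB a a2 b b2)
            (fun g => fiber_iff hA' (hS' ▸ ha) g) (fun g => fiber_iff hA (hS ▸ hb) g)
            (fun g => fiber_iff hA' (hS' ▸ hinf') g) (fun g => fiber_iff hA (hS ▸ hsup') g)
          rw [hm, hm']
          simp only
          exact_mod_cast hsm
        have hle : F a ≤ F (a ⊔ b) := hF a (a ⊔ b) a3 fun v => le_max_left (a v) (b v)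
        have h0 : 0 ≤ F a := hF0 a
        have hmm : (0 : ℝ) ≤ m' (a ⊓ b) * m (a ⊔ b) := mul_nonneg (hm0' _) (hm0 _)
        calc m' a * F a * m b = (m' a * m b) * F a := by ring
          _ ≤ (m' (a ⊓ b) * m (a ⊔ b)) * F a := mul_le_mul_of_nonneg_right hmm1 h0
          _ ≤ (m' (a ⊓ b) * m (a ⊔ b)) * F (a ⊔ b) := mul_le_mul_of_nonneg_left hle hmm
          _ = m' (a ⊓ b) * (m (a ⊔ b) * F (a ⊔ b)) := by ring
      · have h2 : f₂ b = 0 := by rw [hf₂]; exact if_neg hb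
        rw [h2, mul_zero]
        exact mul_nonneg (p3 _) (p4 _)
    · have h1 : f₁ a = 0 := by rw [hf₁]; exact if_neg ha
      rw [h1, zero_mul]
      exact mul_nonneg (p3 _) (p4 _)
  have hfour := four_functions_theorem f₁ f₂ f₃ f₄ p1 p2 p3 p4 hkey S' S
  have s1 : ∑ a ∈ S', f₁ a = ∑ ξ ∈ S', m' ξ * F ξ := by
    refine Finset.sum_congr rfl fun a ha => ?_
    rw [hf₁]
    exact if_pos ha
  have s2 : ∑ a ∈ S, f₂ a = ∑ ξ ∈ S, m ξ := by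
    refine Finset.sum_congr rfl fun a ha => ?_
    rw [hf₂]
    exact if_pos ha
  have s3 : ∀ R : Finset (V → ℤ), ∑ a ∈ R, f₃ a ≤ ∑ ξ ∈ S', m' ξ := by
    intro R
    rw [hf₃, ← Finset.sum_filter]
    exact Finset.sum_le_sum_of_subset_of_nonneg (fun a ha => (Finset.mem_filter.1 ha).2)
      (fun a _ _ => hm0' _)
  have s4 : ∀ R : Finset (V → ℤ), ∑ a ∈ R, f₄ a ≤ ∑ ξ ∈ S, m ξ * F ξ := by
    intro R
    rw [hf₄, ← Finset.sum_filter]
    exact Finset.sum_le_sum_of_subset_of_nonneg (fun a ha => (Finset.mem_filter.1 ha).2)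
      (fun a ha _ => mul_nonneg (hm0 _) (hF0 _))
  have hfin : (∑ g ∈ A', F g) * (A.card : ℝ) ≤ (A'.card : ℝ) * ∑ g ∈ A, F g := by
    rw [e1, e1', e2, e2', ← s1, ← s2]
    refine hfour.trans ?_
    refine mul_le_mul (s3 _) (s4 _) (Finset.sum_nonneg fun a _ => p4 a)
      (Finset.sum_nonneg fun a _ => hm0' _)
  unfold avg
  rw [div_le_div_iff₀ hN' hN]
  nlinarith [hfin]

end DV
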