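import Pool.Agent.Helper97.DV.Lb

/-!
# Project DV (MP_973bc8_pr): crossings of a rectangle

TOP-2.  In a rectangle an nn connected set joining two opposite sides meets every king connected set
joining the two other sides.
-/

open Relation RP4

namespace DV

/-- contribution of the step from `b` to `c`: it passes below `v` between the columns `v.1` and
`v.1 + 1` -/
def chi (b c v : V) : ZMod 2 :=
  (if b.1 = v.1 ∧ c.1 = v.1 + 1 ∧ b.2 < v.2 then 1 else 0) +
    (if c.1 = v.1 ∧ b.1 = v.1 + 1 ∧ c.2 < v.2 then 1 else 0)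

/-- `b` is below `v` in the same column -/
def hcol (b v : V) : ZMod 2 := if b.1 = v.1 ∧ b.2 < v.2 then 1 else 0

/-- `b` is not to the right of `v` -/
def lcol (b v : V) : ZMod 2 := if b.1 ≤ v.1 then 1 else 0

lemma z2aa (a : ZMod 2) : a + a = 0 := zmod2_add_self a

lemma chi_up {b c v : V} (hb : b ≠ v) (hc : c ≠ v) : chi b c (v.1, v.2 + 1) = chi b c v := by
  obtain ⟨b1, b2⟩ := b
  obtain ⟨c1, c2⟩ := c
  obtain ⟨v1, v2⟩ := v
  simp only [ne_eq, Prod.mk.injEq, not_and] at hb hc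
  unfold chi
  simp only
  congr 1 <;> congr 1 <;> simp only [eq_iff_iff] <;> constructor <;> rintro ⟨h1, h2, h3⟩ <;>
    refine ⟨h1, h2, ?_⟩
  · have := hb h1
    omega
  · omega
  · have := hc h1
    omega
  · omega

lemma chi_side {b c v : V} (h : Kng b c) (hb : b ≠ v) (hc : c ≠ v) (hb' : b ≠ (v.1 + 1, v.2))
    (hc' : c ≠ (v.1 + 1, v.2)) :
    chi b c v + chi b c (v.1 + 1, v.2) = hcol b (v.1 + 1, v.2) + hcol c (v.1 + 1, v.2) := by
  obtain ⟨b1, b2⟩ := b
  obtain ⟨c1, c2⟩ := c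
  obtain ⟨v1, v2⟩ := v
  obtain ⟨h1, h2⟩ := h
  rw [abs_le] at h1 h2
  simp only [ne_eq, Prod.mk.injEq, not_and] at hb hc hb' hc' h1 h2
  unfold chi hcol
  simp only
  have k : ∀ x : ZMod 2, x + x = 0 := z2aa
  by_cases e1 : b1 = v1 + 1
  · by_cases e2 : c1 = v1 + 1
    · -- both in the column of the right point
      have hiff : (b2 < v2) ↔ (c2 < v2) := by
        have := hb' e1
        have := hc' e2
        omega
      have n1 : ¬ (b1 = v1 ∧ c1 = v1 + 1 ∧ b2 < v2) := by omega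
      have n2 : ¬ (c1 = v1 ∧ b1 = v1 + 1 ∧ c2 < v2) := by omega
      have n3 : ¬ (b1 = v1 + 1 ∧ c1 = v1 + 1 + 1 ∧ b2 < v2) := by omega
      have n4 : ¬ (c1 = v1 + 1 ∧ b1 = v1 + 1 + 1 ∧ c2 < v2) := by omega
      rw [if_neg n1, if_neg n2, if_neg n3, if_neg n4]
      by_cases hlt : b2 < v2
      · rw [if_pos ⟨e1, hlt⟩, if_pos ⟨e2, hiff.1 hlt⟩]
        decide
      · rw [if_neg (fun h => hlt h.2), if_neg (fun h => hlt (hiff.2 h.2))]
        decide
    · by_cases e3 : c1 = v1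
      · have hiff : (b2 < v2) ↔ (c2 < v2) := by
          have := hb' e1
          have := hc e3
          omega
        have n1 : ¬ (b1 = v1 ∧ c1 = v1 + 1 ∧ b2 < v2) := by omega
        have n3 : ¬ (b1 = v1 + 1 ∧ c1 = v1 + 1 + 1 ∧ b2 < v2) := by omega
        have n4 : ¬ (c1 = v1 + 1 ∧ b1 = v1 + 1 + 1 ∧ c2 < v2) := by omega
        have n5 : ¬ (c1 = v1 + 1 ∧ c2 < v2) := by omega
        rw [if_neg n1, if_neg n3, if_neg n4, if_neg n5]
        by_cases hlt : b2 < v2
        · rw [if_pos ⟨e3, e1, hiff.1 hlt⟩, if_pos ⟨e1, hlt⟩]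
          decide
        · rw [if_neg (fun h => hlt (hiff.2 h.2.2)), if_neg (fun h => hlt h.2)]
          decide
      · have n1 : ¬ (b1 = v1 ∧ c1 = v1 + 1 ∧ b2 < v2) := by omega
        have n2 : ¬ (c1 = v1 ∧ b1 = v1 + 1 ∧ c2 < v2) := by omega
        have n4 : ¬ (c1 = v1 + 1 ∧ b1 = v1 + 1 + 1 ∧ c2 < v2) := by omega
        have n5 : ¬ (c1 = v1 + 1 ∧ c2 < v2) := by omega
        rw [if_neg n1, if_neg n2, if_neg n4, if_neg n5]
        have e4 : c1 = v1 + 1 + 1 := by omega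
        by_cases hlt : b2 < v2
        · rw [if_pos ⟨e1, e4, hlt⟩, if_pos ⟨e1, hlt⟩]
          decide
        · rw [if_neg (fun h => hlt h.2.2), if_neg (fun h => hlt h.2)]
          decide
  · by_cases e2 : c1 = v1 + 1
    · by_cases e3 : b1 = v1
      · have hiff : (b2 < v2) ↔ (c2 < v2) := by
          have := hc' e2
          have := hb e3
          omega
        have n2 : ¬ (c1 = v1 ∧ b1 = v1 + 1 ∧ c2 < v2) := by omega
        have n3 : ¬ (b1 = v1 + 1 ∧ c1 = v1 + 1 + 1 ∧ b2 < v2) := by omega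
        have n4 : ¬ (c1 = v1 + 1 ∧ b1 = v1 + 1 + 1 ∧ c2 < v2) := by omega
        have n5 : ¬ (b1 = v1 + 1 ∧ b2 < v2) := by omega
        rw [if_neg n2, if_neg n3, if_neg n4, if_neg n5]
        by_cases hlt : b2 < v2
        · rw [if_pos ⟨e3, e2, hlt⟩, if_pos ⟨e2, hiff.1 hlt⟩]
          decide
        · rw [if_neg (fun h => hlt h.2.2), if_neg (fun h => hlt (hiff.2 h.2))]
          decide
      · have n1 : ¬ (b1 = v1 ∧ c1 = v1 + 1 ∧ b2 < v2) := by omega
        have n2 : ¬ (c1 = v1 ∧ b1 = v1 + 1 ∧ c2 < v2) := by omega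
        have n3 : ¬ (b1 = v1 + 1 ∧ c1 = v1 + 1 + 1 ∧ b2 < v2) := by omega
        have n5 : ¬ (b1 = v1 + 1 ∧ b2 < v2) := by omega
        rw [if_neg n1, if_neg n2, if_neg n3, if_neg n5]
        have e4 : b1 = v1 + 1 + 1 := by omega
        by_cases hlt : c2 < v2
        · rw [if_pos ⟨e2, e4, hlt⟩, if_pos ⟨e2, hlt⟩]
          decide
        · rw [if_neg (fun h => hlt h.2.2), if_neg (fun h => hlt h.2)]
          decide
    · have n1 : ¬ (b1 = v1 ∧ c1 = v1 + 1 ∧ b2 < v2) := by omega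
      have n2 : ¬ (c1 = v1 ∧ b1 = v1 + 1 ∧ c2 < v2) := by omega
      have n3 : ¬ (b1 = v1 + 1 ∧ c1 = v1 + 1 + 1 ∧ b2 < v2) := by omega
      have n4 : ¬ (c1 = v1 + 1 ∧ b1 = v1 + 1 + 1 ∧ c2 < v2) := by omega
      have n5 : ¬ (b1 = v1 + 1 ∧ b2 < v2) := by omega
      have n6 : ¬ (c1 = v1 + 1 ∧ c2 < v2) := by omega
      rw [if_neg n1, if_neg n2, if_neg n3, if_neg n4, if_neg n5, if_neg n6]
      decide

lemma chi_low {b c v : V} (hb : v.2 ≤ b.2) (hc : v.2 ≤ c.2) : chi b c v = 0 := by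
  unfold chi
  rw [if_neg (by omega), if_neg (by omega), add_zero]

lemma chi_high {b c v : V} (h : Kng b c) (hb : b.2 ≤ v.2) (hc : c.2 ≤ v.2) (hbv : b ≠ v)
    (hcv : c ≠ v) : chi b c v = lcol b v + lcol c v := by
  obtain ⟨b1, b2⟩ := b
  obtain ⟨c1, c2⟩ := c
  obtain ⟨v1, v2⟩ := v
  obtain ⟨h1, h2⟩ := h
  rw [abs_le] at h1 h2
  simp only [ne_eq, Prod.mk.injEq, not_and] at hb hc hbv hcv h1 h2
  unfold chi lcol
  simp only
  by_cases e1 : b1 ≤ v1
  · by_cases e2 : c1 ≤ v1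
    · rw [if_neg (by omega), if_neg (by omega), if_pos e1, if_pos e2]
      decide
    · have e3 : b1 = v1 := by omega
      have e4 := hbv e3
      rw [if_pos ⟨e3, by omega, by omega⟩, if_neg (by omega), if_pos e1, if_neg e2]
  · by_cases e2 : c1 ≤ v1
    · have e3 : c1 = v1 := by omega
      have e4 := hcv e3
      rw [if_neg (by omega), if_pos ⟨e3, by omega, by omega⟩, if_neg e1, if_pos e2]
    · rw [if_neg (by omega), if_neg (by omega), if_neg e1, if_neg e2]

/-- the counting function of a king path -/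
lemma exists_count {S : Set V} {c d : ℤ} (hS : ∀ v ∈ S, c ≤ v.2 ∧ v.2 ≤ d) {q q' : V}
    (h : KCon S q q') : ∃ N : V → ZMod 2,
      (∀ v, v ∉ S → N (v.1, v.2 + 1) = N v) ∧
      (∀ v, v ∉ S → (v.1 + 1, v.2) ∉ S →
        N v + N (v.1 + 1, v.2) = hcol q (v.1 + 1, v.2) + hcol q' (v.1 + 1, v.2)) ∧
      (∀ v, v.2 ≤ c → N v = 0) ∧
      (∀ v, v ∉ S → d ≤ v.2 → N v = lcol q v + lcol q' v) := by
  obtain ⟨hq, h⟩ := h
  have k : ∀ x : ZMod 2, x + x = 0 := z2aa
  induction h with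
  | refl =>
    refine ⟨fun _ => 0, fun _ _ => rfl, fun v _ _ => ?_, fun _ _ => rfl, fun v _ _ => ?_⟩
    · show (0 : ZMod 2) + 0 = _
      rw [add_zero, k]
    · rw [k]
  | @tail b e hb he ih =>
    obtain ⟨N, h1, h2, h3, h4⟩ := ih
    obtain ⟨hbe, hbS, heS⟩ := he
    have ne : ∀ x ∈ S, ∀ v, v ∉ S → x ≠ v := fun x hx v hv h => hv (h ▸ hx)
    refine ⟨fun v => N v + chi b e v, fun v hv => ?_, fun v hv hv' => ?_, fun v hv => ?_,
      fun v hv hd => ?_⟩
    · show N (v.1, v.2 + 1) + chi b e (v.1, v.2 + 1) = N v + chi b e v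
      rw [h1 v hv, chi_up (ne b hbS v hv) (ne e heS v hv)]
    · show N v + chi b e v + (N (v.1 + 1, v.2) + chi b e (v.1 + 1, v.2)) = _
      have e1 := h2 v hv hv'
      have e2 := chi_side hbe (ne b hbS v hv) (ne e heS v hv) (ne b hbS _ hv') (ne e heS _ hv')
      have e3 : ∀ A B C D x y z : ZMod 2, A + B = x + y → C + D = y + z →
          A + C + (B + D) = x + z := by decide
      exact e3 _ _ _ _ _ _ _ e1 e2
    · show N v + chi b e v = 0
      rw [h3 v hv, chi_low (hv.trans (hS b hbS).1) (hv.trans (hS e heS).1), add_zero]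
    · show N v + chi b e v = _
      have e1 := h4 v hv hd
      have e2 := chi_high (v := v) hbe ((hS b hbS).2.trans hd) ((hS e heS).2.trans hd)
        (ne b hbS v hv) (ne e heS v hv)
      rw [e1, e2]
      have e3 : ∀ x y z : ZMod 2, x + y + (y + z) = x + z := by decide
      exact e3 _ _ _

/-- TOP-2 -/
theorem cross {a b c d : ℤ} {P Q : Set V} {p p' q q' : V}
    (hp : Con (P ∩ Rec a b c d) p p') (h1 : p.2 = c) (h2 : p'.2 = d)
    (hq : KCon (Q ∩ Rec a b c d) q q') (h3 : q.1 = a) (h4 : q'.1 = b) : ∃ v, v ∈ P ∧ v ∈ Q := by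
  by_contra hcon
  push Not at hcon
  have hqR := hq.left.2
  have hqR' := hq.right.2
  -- the extended path
  set S : Set V := (Q ∩ Rec a b c d) ∪ {((a - 1, q.2) : V), ((b + 1, q'.2) : V)} with hSd
  have hS : ∀ v ∈ S, c ≤ v.2 ∧ v.2 ≤ d := by
    rintro v (hv | hv)
    · exact ⟨hv.2.2.2.1, hv.2.2.2.2⟩
    · rcases hv with rfl | rfl
      · exact ⟨hqR.2.2.1, hqR.2.2.2⟩
      · exact ⟨hqR'.2.2.1, hqR'.2.2.2⟩
  have hsub : Q ∩ Rec a b c d ⊆ S := Set.subset_union_left
  have m1 : ((a - 1, q.2) : V) ∈ S := Or.inr (Or.inl rfl)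
  have m2 : ((b + 1, q'.2) : V) ∈ S := Or.inr (Or.inr rfl)
  have path : KCon S (a - 1, q.2) (b + 1, q'.2) := by
    have s1 : KCon S (a - 1, q.2) q := by
      refine Jn.single ?_ m1 (hsub hq.left)
      unfold Kng
      simp [h3]
    have s2 : KCon S q' (b + 1, q'.2) := by
      refine Jn.single ?_ (hsub hq.right) m2
      unfold Kng
      simp [h4]
    exact (s1.trans (hq.mono (fun _ _ h => h) hsub)).trans s2
  obtain ⟨N, n1, n2, n3, n4⟩ := exists_count hS path
  have out : ∀ v, v ∈ P ∩ Rec a b c d → v ∉ S := by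
    rintro v ⟨hv, hvR⟩ (hv' | hv')
    · exact hcon v hv hv'.1
    · have ha := hvR.1
      have hb := hvR.2.1
      rcases hv' with rfl | rfl
      · simp only at ha
        omega
      · simp only at hb
        omega
  have side : ∀ v, v ∈ P ∩ Rec a b c d → (v.1 + 1, v.2) ∈ P ∩ Rec a b c d →
      N v = N (v.1 + 1, v.2) := by
    intro v hv hv'
    have e := n2 v (out v hv) (out _ hv')
    have ha := hv'.2.1
    have hb := hv'.2.2.1
    simp only at ha hb
    have z1 : hcol ((a - 1, q.2) : V) (v.1 + 1, v.2) = 0 := by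
      unfold hcol
      simp only
      rw [if_neg (by omega)]
    have z2 : hcol ((b + 1, q'.2) : V) (v.1 + 1, v.2) = 0 := by
      unfold hcol
      simp only
      rw [if_neg (by omega)]
    rw [z1, z2] at e
    have e3 : ∀ x y : ZMod 2, x + y = 0 + 0 → x = y := by decide
    exact e3 _ _ e
  have hconst : N p' = N p := by
    refine hp.prop (P := fun v => N v = N p) rfl ?_
    intro u v huv hu hv h
    obtain ⟨u1, u2⟩ := u
    rcases adj_cases huv with h' | h' | h' | h' <;> subst h'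
    · rw [← side (u1, u2) hu hv]
      exact h
    · have e := side (u1 - 1, u2) hv (by simpa using hu)
      simp only [sub_add_cancel] at e
      rw [e]
      exact h
    · rw [n1 (u1, u2) (out _ hu)]
      exact h
    · have e := n1 (u1, u2 - 1) (out _ hv)
      simp only [sub_add_cancel] at e
      rw [← e]
      exact h
  have e0 : N p = 0 := n3 p h1.le
  have e1 := n4 p' (out _ hp.right) h2.ge
  have ha := hp.right.2.1
  have hb := hp.right.2.2.1
  have l1 : lcol ((a - 1, q.2) : V) p' = 1 := by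
    unfold lcol
    simp only
    rw [if_pos (by omega)]
  have l2 : lcol ((b + 1, q'.2) : V) p' = 0 := by
    unfold lcol
    simp only
    rw [if_neg (by omega)]
  rw [hconst, e0, l1, l2] at e1
  exact absurd e1 (by decide)

/-- exchange of the coordinates -/
def swp (v : V) : V := (v.2, v.1)

lemma swp_swp (v : V) : swp (swp v) = v := rfl

lemma kng_swp {u v : V} (h : Kng u v) : Kng (swp u) (swp v) := ⟨h.2, h.1⟩

lemma adj_swp {u v : V} (h : Adj u v) : Adj (swp u) (swp v) := by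
  unfold Adj swp at *
  simp only
  rw [add_comm]
  exact h

lemma Jn.map {r r' : V → V → Prop} {S T : Set V} {u v : V} (f : V → V)
    (hr : ∀ a b, r a b → r' (f a) (f b)) (hf : ∀ a ∈ S, f a ∈ T) (h : Jn r S u v) :
    Jn r' T (f u) (f v) := by
  refine ⟨hf _ h.1, ?_⟩
  obtain ⟨_, h⟩ := h
  induction h with
  | refl => exact ReflTransGen.refl
  | tail _ h ih => exact ih.tail ⟨hr _ _ h.1, hf _ h.2.1, hf _ h.2.2⟩

/-- TOP-2 with the roles exchanged -/
theorem cross' {a b c d : ℤ} {P Q : Set V} {p p' q q' : V}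
    (hp : KCon (P ∩ Rec a b c d) p p') (h1 : p.2 = c) (h2 : p'.2 = d)
    (hq : Con (Q ∩ Rec a b c d) q q') (h3 : q.1 = a) (h4 : q'.1 = b) : ∃ v, v ∈ P ∧ v ∈ Q := by
  have hR : ∀ v, v ∈ Rec a b c d → swp v ∈ Rec c d a b := fun v hv =>
    ⟨hv.2.2.1, hv.2.2.2, hv.1, hv.2.1⟩
  have hp' : KCon (swp ⁻¹' P ∩ Rec c d a b) (swp p) (swp p') :=
    hp.map swp (fun _ _ => kng_swp) fun v hv => ⟨hv.1, hR v hv.2⟩
  have hq' : Con (swp ⁻¹' Q ∩ Rec c d a b) (swp q) (swp q') :=
    hq.map swp (fun _ _ => adj_swp) fun v hv => ⟨hv.1, hR v hv.2⟩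
  obtain ⟨v, hv, hv'⟩ := cross hq' h3 h4 hp' h1 h2
  exact ⟨swp v, hv', hv⟩

end DV
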