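import Pool.Agent.Helper97.DV.Tp

/-!
# Project DV (MP_973bc8_pr): labels along the boundary of a connected set

TOP-1.  If `U` is nn connected, all its boundary sites have one parity, and the label `s` takes the same
value at the two neighbours (in `U`) of a site outside `U` in one plaquette whose fourth site is in `U`,
then `s` is constant along the part of the boundary of `U` that faces one king connected piece of the
complement.
-/

open Relation RP4

namespace DV

/-- antidifference on the integers -/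
lemma exists_antidiff {G : Type*} [AddCommGroup G] (f : ℤ → G) :
    ∃ F : ℤ → G, F 0 = 0 ∧ ∀ n, F (n + 1) - F n = f n := by
  refine ⟨fun n => match n with
    | Int.ofNat n => ∑ i ∈ Finset.range n, f i
    | Int.negSucc n => -∑ i ∈ Finset.range (n + 1), f (-((i : ℤ) + 1)), ?_, ?_⟩
  · simp
  · intro n
    match n with
    | Int.ofNat n =>
      have h1 : (Int.ofNat n + 1 : ℤ) = Int.ofNat (n + 1) := rfl
      simp only [h1]
      rw [Finset.sum_range_succ]
      simp
    | Int.negSucc 0 =>
      have h1 : (Int.negSucc 0 + 1 : ℤ) = Int.ofNat 0 := rfl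
      simp only [h1]
      simp
    | Int.negSucc (n + 1) =>
      have h1 : (Int.negSucc (n + 1) + 1 : ℤ) = Int.negSucc n := rfl
      simp only [h1]
      rw [Finset.sum_range_succ _ (n + 1)]
      have h2 : (-(((n + 1 : ℕ) : ℤ) + 1) : ℤ) = Int.negSucc (n + 1) := by
        rw [Int.negSucc_eq]
      rw [h2]
      abel

/-- a closed one form on the square lattice is exact -/
theorem exact_of_closed {G : Type*} [AddCommGroup G] (ex ey : ℤ → ℤ → G)
    (h : ∀ x y, ex x y + ey (x + 1) y = ey x y + ex x (y + 1)) :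
    ∃ w : ℤ → ℤ → G, (∀ x y, w (x + 1) y - w x y = ex x y) ∧ ∀ x y, w x (y + 1) - w x y = ey x y := by
  obtain ⟨A, _, hA⟩ := exists_antidiff fun x => ex x 0
  choose B hB0 hB using fun x => exists_antidiff (ey x)
  refine ⟨fun x y => A x + B x y, fun x y => ?_, fun x y => ?_⟩
  · have key : ∀ y, B (x + 1) y - B x y = ex x y - ex x 0 := by
      intro y
      induction y using Int.induction_on with
      | zero => rw [hB0, hB0]; simp
      | succ i ih =>
        have h1 := hB (x + 1) i
        have h2 := hB x i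
        have h3 := h x i
        have e1 : B (x + 1) (i + 1) = ey (x + 1) i + B (x + 1) i := by rw [← h1]; abel
        have e2 : B x (i + 1) = ey x i + B x i := by rw [← h2]; abel
        have e3 : ex x (i + 1) = ex x i + ey (x + 1) i - ey x i := by rw [h3]; abel
        have e4 : B (x + 1) i = ex x i - ex x 0 + B x i := by rw [← ih]; abel
        rw [e1, e2, e3, e4]
        abel
      | pred i ih =>
        have h1 := hB (x + 1) (-i - 1)
        have h2 := hB x (-i - 1)
        have h3 := h x (-i - 1)
        have h4 : (-(i : ℤ) - 1 + 1) = -i := by ring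
        rw [h4] at h1 h2 h3
        have e1 : B (x + 1) (-i - 1) = B (x + 1) (-i) - ey (x + 1) (-i - 1) := by rw [← h1]; abel
        have e2 : B x (-i - 1) = B x (-i) - ey x (-i - 1) := by rw [← h2]; abel
        have e3 : ex x (-i - 1) = ey x (-i - 1) + ex x (-i) - ey (x + 1) (-i - 1) := by
          rw [← h3]; abel
        have e4 : B (x + 1) (-i) = ex x (-i) - ex x 0 + B x (-i) := by rw [← ih]; abel
        rw [e1, e2, e3, e4]
        abel
    have h1 := hA x
    have h2 := key y
    show A (x + 1) + B (x + 1) y - (A x + B x y) = ex x y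
    have e1 : A (x + 1) = ex x 0 + A x := by rw [← h1]; abel
    have e2 : B (x + 1) y = ex x y - ex x 0 + B x y := by rw [← h2]; abel
    rw [e1, e2]
    abel
  · show A x + B x (y + 1) - (A x + B x y) = ey x y
    rw [← hB x y]
    abel

lemma adj_cases {u v : V} (h : Adj u v) :
    v = (u.1 + 1, u.2) ∨ v = (u.1 - 1, u.2) ∨ v = (u.1, u.2 + 1) ∨ v = (u.1, u.2 - 1) := by
  obtain ⟨a, b⟩ := u
  obtain ⟨c, d⟩ := v
  unfold Adj at h
  simp only [Prod.mk.injEq] at h ⊢
  rcases abs_cases (a - c) with h1 | h1 <;> rcases abs_cases (b - d) with h2 | h2 <;> omega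

lemma adj_r (u : V) : Adj u (u.1 + 1, u.2) := by simp [Adj]

lemma adj_l (u : V) : Adj u (u.1 - 1, u.2) := by simp [Adj]

lemma adj_u (u : V) : Adj u (u.1, u.2 + 1) := by simp [Adj]

lemma adj_d (u : V) : Adj u (u.1, u.2 - 1) := by simp [Adj]

lemma adj_par' {u v : V} (h : Adj u v) : ¬ Even (par u - par v) := by
  rcases adj_cases h with h | h | h | h <;> subst h <;> unfold par <;> simp only [Int.even_iff] <;> omega

open Classical in
/-- the form of the cut edges of `U` whose end in `U` has the label `a` -/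
noncomputable def cutf {α : Type*} (U : Set V) (s : V → α) (a : α) (p q : V) : ZMod 2 :=
  (if p ∈ U ∧ q ∉ U ∧ s p = a then 1 else 0) + (if q ∈ U ∧ p ∉ U ∧ s q = a then 1 else 0)

lemma zmod2_add_self (a : ZMod 2) : a + a = 0 := by
  have : (2 : ZMod 2) = 0 := rfl
  rw [← two_mul, this, zero_mul]

lemma cutf_comm {α : Type*} (U : Set V) (s : V → α) (a : α) (p q : V) :
    cutf U s a p q = cutf U s a q p := by
  unfold cutf
  rw [add_comm]

lemma cutf_in {α : Type*} {U : Set V} (s : V → α) (a : α) {p q : V} (hp : p ∈ U) (hq : q ∈ U) :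
    cutf U s a p q = 0 := by
  unfold cutf
  simp [hp, hq]

lemma cutf_out {α : Type*} {U : Set V} (s : V → α) (a : α) {p q : V} (hp : p ∉ U) (hq : q ∉ U) :
    cutf U s a p q = 0 := by
  unfold cutf
  simp [hp, hq]

open Classical in
lemma cutf_io {α : Type*} {U : Set V} (s : V → α) (a : α) {p q : V} (hp : p ∈ U) (hq : q ∉ U) :
    cutf U s a p q = if s p = a then 1 else 0 := by
  unfold cutf
  simp [hp, hq]

/-- the plaquette identity -/
lemma cutf_closed {α : Type*} {U : Set V} {s : V → α} (a : α)
    (hpar : ∀ u ∈ Bd U, ∀ v ∈ Bd U, ¬ Adj u v)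
    (hs : ∀ z b c d, z ∉ U → b ∈ U → c ∈ U → d ∈ U → Adj z b → Adj z d → Adj b c → Adj d c → c ≠ z →
      s b = s d) {p q r t : V} (h1 : Adj p q) (h2 : Adj q r) (h3 : Adj r t) (h4 : Adj t p)
    (hpr : p ≠ r) (hqt : q ≠ t) :
    cutf U s a p q + cutf U s a q r + (cutf U s a r t + cutf U s a t p) = 0 := by
  classical
  have z2 := zmod2_add_self
  by_cases hp : p ∈ U <;> by_cases hq : q ∈ U <;> by_cases hr : r ∈ U <;> by_cases ht : t ∈ U
  · rw [cutf_in s a hp hq, cutf_in s a hq hr, cutf_in s a hr ht, cutf_in s a ht hp]; simp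
  · -- t out
    have e := hs t p q r ht hp hq hr h4 (adj_symm h3) h1 (adj_symm h2) hqt
    rw [cutf_in s a hp hq, cutf_in s a hq hr, cutf_io s a hr ht, cutf_comm U s a t p,
      cutf_io s a hp ht, e]
    simp only [add_zero, zero_add]
    exact z2 _
  · -- r out
    have e := hs r t p q hr ht hp hq h3 (adj_symm h2) h4 (adj_symm h1) hpr
    rw [cutf_in s a hp hq, cutf_io s a hq hr, cutf_comm U s a r t, cutf_io s a ht hr,
      cutf_in s a ht hp, e]
    simp [z2]
  · exact absurd h1 (hpar p ⟨hp, t, adj_symm h4, ht⟩ q ⟨hq, r, h2, hr⟩)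
  · -- q out
    have e := hs q p t r hq hp ht hr (adj_symm h1) h2 (adj_symm h4) h3 hqt.symm
    rw [cutf_io s a hp hq, cutf_comm U s a q r, cutf_io s a hr hq, cutf_in s a hr ht,
      cutf_in s a ht hp, e]
    simp [z2]
  · rw [cutf_io s a hp hq, cutf_comm U s a q r, cutf_io s a hr hq, cutf_io s a hr ht,
      cutf_comm U s a t p, cutf_io s a hp ht]
    have : ∀ x y : ZMod 2, x + y + (y + x) = 0 := fun x y => by
      rw [add_comm y x, z2]
    exact this _ _
  · exact absurd h4 (hpar t ⟨ht, r, adj_symm h3, hr⟩ p ⟨hp, q, h1, hq⟩)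
  · rw [cutf_io s a hp hq, cutf_out s a hq hr, cutf_out s a hr ht, cutf_comm U s a t p,
      cutf_io s a hp ht]
    simp [z2]
  · -- p out
    have e := hs p q r t hp hq hr ht h1 (adj_symm h4) h2 (adj_symm h3) hpr.symm
    rw [cutf_comm U s a p q, cutf_io s a hq hp, cutf_in s a hq hr, cutf_in s a hr ht,
      cutf_io s a ht hp, e]
    simp [z2]
  · exact absurd h2 (hpar q ⟨hq, p, adj_symm h1, hp⟩ r ⟨hr, t, h3, ht⟩)
  · rw [cutf_comm U s a p q, cutf_io s a hq hp, cutf_io s a hq hr, cutf_comm U s a r t,
      cutf_io s a ht hr, cutf_io s a ht hp, z2, z2]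
    simp
  · rw [cutf_comm U s a p q, cutf_io s a hq hp, cutf_io s a hq hr, cutf_out s a hr ht,
      cutf_out s a ht hp, z2]
    simp
  · exact absurd h3 (hpar r ⟨hr, q, adj_symm h2, hq⟩ t ⟨ht, p, h4, hp⟩)
  · rw [cutf_out s a hp hq, cutf_comm U s a q r, cutf_io s a hr hq, cutf_io s a hr ht,
      cutf_out s a ht hp]
    simp [z2]
  · rw [cutf_out s a hp hq, cutf_out s a hq hr, cutf_comm U s a r t, cutf_io s a ht hr,
      cutf_io s a ht hp]
    simp only [add_zero, zero_add]
    exact z2 _
  · rw [cutf_out s a hp hq, cutf_out s a hq hr, cutf_out s a hr ht, cutf_out s a ht hp]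
    simp

/-- TOP-1: the label is constant along the part of the boundary that faces one king connected piece of
the complement -/
theorem label_const {α : Type*} {U : Set V} {s : V → α}
    (hpar : ∀ u ∈ Bd U, ∀ v ∈ Bd U, ¬ Adj u v) (hU : Cnn U)
    (hs : ∀ z b c d, z ∉ U → b ∈ U → c ∈ U → d ∈ U → Adj z b → Adj z d → Adj b c → Adj d c → c ≠ z →
      s b = s d) {u u' z z' : V} (hu : u ∈ U) (hz : z ∉ U) (huz : Adj u z) (hu' : u' ∈ U)
    (hz' : z' ∉ U) (huz' : Adj u' z') (hzz : KCon Uᶜ z z') : s u = s u' := by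
  classical
  set a := s u with ha
  obtain ⟨w, hw1, hw2⟩ := exact_of_closed (fun x y => cutf U s a (x, y) (x + 1, y))
    (fun x y => cutf U s a (x, y) (x, y + 1)) (by
      intro x y
      have h := cutf_closed a hpar hs (p := (x, y)) (q := (x + 1, y)) (r := (x + 1, y + 1))
        (t := (x, y + 1)) (by simp [Adj]) (by simp [Adj]) (by simp [Adj]) (by simp [Adj])
        (by simp) (by simp)
      rw [cutf_comm U s a (x + 1, y + 1), cutf_comm U s a (x, y + 1) (x, y)] at h
      have h' : ∀ A B C D : ZMod 2, A + B + (C + D) = 0 → A + B = D + C := by decide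
      exact h' _ _ _ _ h)
  -- the potential
  have hw : ∀ p q : V, Adj p q → w q.1 q.2 = w p.1 p.2 + cutf U s a p q := by
    have neg2 : ∀ x y e : ZMod 2, x - y = e → y = x + e := by decide
    have pos2 : ∀ x y e : ZMod 2, x - y = e → x = y + e := by decide
    intro p q hpq
    obtain ⟨p1, p2⟩ := p
    rcases adj_cases hpq with h | h | h | h <;> subst h
    · exact pos2 _ _ _ (hw1 p1 p2)
    · have h := hw1 (p1 - 1) p2
      rw [sub_add_cancel] at h
      show w (p1 - 1) p2 = w p1 p2 + cutf U s a (p1, p2) (p1 - 1, p2)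
      rw [cutf_comm]
      exact neg2 _ _ _ h
    · exact pos2 _ _ _ (hw2 p1 p2)
    · have h := hw2 p1 (p2 - 1)
      rw [sub_add_cancel] at h
      show w p1 (p2 - 1) = w p1 p2 + cutf U s a (p1, p2) (p1, p2 - 1)
      rw [cutf_comm]
      exact neg2 _ _ _ h
  -- it is constant on `U`
  have hin : w u'.1 u'.2 = w u.1 u.2 := by
    refine (hU u hu u' hu').prop (P := fun v => w v.1 v.2 = w u.1 u.2) rfl ?_
    intro b c hbc hb hc h
    rw [hw b c hbc, cutf_in s a hb hc, add_zero]
    exact h
  -- it is constant along king steps outside `U`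
  have hout : w z'.1 z'.2 = w z.1 z.2 := by
    refine hzz.prop (P := fun v => w v.1 v.2 = w z.1 z.2) rfl ?_
    intro b c hbc hb hc h
    rw [← h]
    -- the case of a path of two steps
    have two : ∀ m : V, Adj b m → Adj m c → w c.1 c.2 = w b.1 b.2 := by
      intro m h1 h2
      rw [hw m c h2, hw b m h1]
      by_cases hm : m ∈ U
      · rw [cutf_comm U s a b m, cutf_io s a hm hb, cutf_io s a hm hc, add_assoc,
          zmod2_add_self, add_zero]
      · rw [cutf_out s a hb hm, cutf_out s a hm hc]
        simp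
    obtain ⟨b1, b2⟩ := b
    obtain ⟨c1, c2⟩ := c
    obtain ⟨h1, h2⟩ := hbc
    simp only at h1 h2
    rw [abs_le] at h1 h2
    by_cases e1 : b1 = c1
    · by_cases e2 : b2 = c2
      · subst e1 e2
        rfl
      · have hadj : Adj (b1, b2) (c1, c2) := by
          unfold Adj
          subst e1
          simp only [sub_self, abs_zero, zero_add]
          rcases abs_cases (b2 - c2) with h | h <;> omega
        rw [hw _ _ hadj, cutf_out s a hb hc, add_zero]
    · by_cases e2 : b2 = c2
      · have hadj : Adj (b1, b2) (c1, c2) := by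
          unfold Adj
          subst e2
          simp only [sub_self, abs_zero, add_zero]
          rcases abs_cases (b1 - c1) with h | h <;> omega
        rw [hw _ _ hadj, cutf_out s a hb hc, add_zero]
      · refine two (c1, b2) ?_ ?_
        · unfold Adj
          simp only [sub_self, abs_zero, add_zero]
          rcases abs_cases (b1 - c1) with h | h <;> omega
        · unfold Adj
          simp only [sub_self, abs_zero, zero_add]
          rcases abs_cases (b2 - c2) with h | h <;> omega
  -- compare the two cut edges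
  have h1 := hw u z huz
  have h2 := hw u' z' huz'
  rw [cutf_io s a hu hz, if_pos rfl] at h1
  rw [cutf_io s a hu' hz', hout, hin, h1] at h2
  by_contra hne
  rw [if_neg (fun h => hne h.symm), add_zero] at h2
  have h3 : ∀ x : ZMod 2, x + 1 ≠ x := by decide
  exact h3 _ h2

/-- TOP-1 for a set with king connected complement: all boundary sites have the same label -/
theorem label_const' {α : Type*} {U : Set V} {s : V → α}
    (hpar : ∀ u ∈ Bd U, ∀ v ∈ Bd U, ¬ Adj u v) (hU : Cnn U)
    (hc : ∀ z ∉ U, ∀ z' ∉ U, KCon Uᶜ z z')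
    (hs : ∀ z b c d, z ∉ U → b ∈ U → c ∈ U → d ∈ U → Adj z b → Adj z d → Adj b c → Adj d c → c ≠ z →
      s b = s d) {u u' : V} (hu : u ∈ Bd U) (hu' : u' ∈ Bd U) : s u = s u' := by
  obtain ⟨h1, z, h2, h3⟩ := hu
  obtain ⟨h1', z', h2', h3'⟩ := hu'
  exact label_const hpar hU hs h1 h3 h2 h1' h3' h2' (hc z h3 z' h3')

/-- boundary sites of one parity are not adjacent -/
lemma not_adj_of_par {U : Set V} {q : ℤ} (h : ∀ b ∈ Bd U, Even (par b - q)) :
    ∀ u ∈ Bd U, ∀ v ∈ Bd U, ¬ Adj u v := by
  intro u hu v hv hadj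
  refine adj_par' hadj ?_
  have h1 := (h u hu).sub (h v hv)
  have h2 : par u - q - (par v - q) = par u - par v := by ring
  rwa [h2] at h1

end DV
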