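import Pool.Agent.Helper97.DV.Gc

/-!
# Project DV (MP_973bc8_pr): mixing two height functions, independence, restriction

`mix U a b` is `a` on `U` and `b` off `U`.  `Hb D p Z β` are the height functions on `D` with the values
`β` on `Z`.
-/

open Finset RP4

namespace DV

open Classical in
/-- `a` on `U` and `b` off `U` -/
noncomputable def mix (U : Set V) (a b : V → ℤ) : V → ℤ := fun v => if v ∈ U then a v else b v

lemma mix_in {U : Set V} {a b : V → ℤ} {v : V} (h : v ∈ U) : mix U a b v = a v := by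
  unfold mix
  rw [if_pos h]

lemma mix_out {U : Set V} {a b : V → ℤ} {v : V} (h : v ∉ U) : mix U a b v = b v := by
  unfold mix
  rw [if_neg h]

lemma mix_mix (U : Set V) (a b : V → ℤ) : mix U (mix U a b) (mix U b a) = a := by
  funext v
  by_cases h : v ∈ U
  · rw [mix_in h, mix_in h]
  · rw [mix_out h, mix_out h]

/-- two families with the same restrictions to `U`, both closed under mixing -/
theorem avg_swap2 {A B : Finset (V → ℤ)} {U : Set V} (hA : A.Nonempty) (hB : B.Nonempty)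
    (h1 : ∀ a ∈ A, ∀ b ∈ B, mix U b a ∈ A) (h2 : ∀ a ∈ A, ∀ b ∈ B, mix U a b ∈ B)
    {F : (V → ℤ) → ℝ} (hF : ∀ a b, F (mix U a b) = F a) : avg A F = avg B F := by
  classical
  have hcA : (0 : ℝ) < A.card := by exact_mod_cast hA.card_pos
  have hcB : (0 : ℝ) < B.card := by exact_mod_cast hB.card_pos
  have key : ∑ q ∈ A ×ˢ B, F q.1 = ∑ q ∈ A ×ˢ B, F q.2 := by
    refine Finset.sum_nbij' (fun q => (mix U q.2 q.1, mix U q.1 q.2))
      (fun q => (mix U q.2 q.1, mix U q.1 q.2)) ?_ ?_ ?_ ?_ ?_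
    · intro q hq
      rw [Finset.mem_product] at hq ⊢
      exact ⟨h1 _ hq.1 _ hq.2, h2 _ hq.1 _ hq.2⟩
    · intro q hq
      rw [Finset.mem_product] at hq ⊢
      exact ⟨h1 _ hq.1 _ hq.2, h2 _ hq.1 _ hq.2⟩
    · intro q _
      simp only [mix_mix]
    · intro q _
      simp only [mix_mix]
    · intro q _
      simp only [hF]
  rw [Finset.sum_product, Finset.sum_product_right] at key
  simp only [Finset.sum_const, nsmul_eq_mul] at key
  rw [← Finset.mul_sum, ← Finset.mul_sum] at key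
  unfold avg
  rw [div_eq_div_iff hcA.ne' hcB.ne']
  linarith

/-- independence of the parts inside and outside `U` -/
theorem avg_mul {A : Finset (V → ℤ)} {U : Set V} (hA : A.Nonempty)
    (h : ∀ a ∈ A, ∀ b ∈ A, mix U a b ∈ A)
    {F G : (V → ℤ) → ℝ} (hF : ∀ a b, F (mix U a b) = F a) (hG : ∀ a b, G (mix U a b) = G b) :
    avg A (fun g => F g * G g) = avg A F * avg A G := by
  classical
  have hcA : (0 : ℝ) < A.card := by exact_mod_cast hA.card_pos
  have key : ∑ q ∈ A ×ˢ A, F q.1 * G q.2 = ∑ q ∈ A ×ˢ A, F q.1 * G q.1 := by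
    symm
    refine Finset.sum_nbij' (fun q => (mix U q.1 q.2, mix U q.2 q.1))
      (fun q => (mix U q.1 q.2, mix U q.2 q.1)) ?_ ?_ ?_ ?_ ?_
    · intro q hq
      rw [Finset.mem_product] at hq ⊢
      exact ⟨h _ hq.1 _ hq.2, h _ hq.2 _ hq.1⟩
    · intro q hq
      rw [Finset.mem_product] at hq ⊢
      exact ⟨h _ hq.1 _ hq.2, h _ hq.2 _ hq.1⟩
    · intro q _
      simp only [mix_mix]
    · intro q _
      simp only [mix_mix]
    · intro q _
      simp only [hF, hG]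
  rw [Finset.sum_product, Finset.sum_product] at key
  simp only [Finset.sum_const, nsmul_eq_mul] at key
  rw [← Finset.mul_sum] at key
  have h3 : ∑ a ∈ A, ∑ b ∈ A, F a * G b = (∑ a ∈ A, F a) * ∑ b ∈ A, G b := by
    rw [Finset.sum_mul_sum]
  rw [h3] at key
  unfold avg
  rw [div_mul_div_comm, key]
  field_simp

theorem pr_swap {A B : Finset (V → ℤ)} {U : Set V} (hA : A.Nonempty) (hB : B.Nonempty)
    (h1 : ∀ a ∈ A, ∀ b ∈ B, mix U b a ∈ A) (h2 : ∀ a ∈ A, ∀ b ∈ B, mix U a b ∈ B)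
    {E : (V → ℤ) → Prop} (hE : ∀ a b, E (mix U a b) ↔ E a) : pr A E = pr B E := by
  classical
  refine avg_swap2 hA hB h1 h2 fun a b => ?_
  simp only [hE a b]

theorem pr_mul {A : Finset (V → ℤ)} {U : Set V} (hA : A.Nonempty)
    (h : ∀ a ∈ A, ∀ b ∈ A, mix U a b ∈ A)
    {E F : (V → ℤ) → Prop} (hE : ∀ a b, E (mix U a b) ↔ E a) (hF : ∀ a b, F (mix U a b) ↔ F b) :
    pr A (fun g => E g ∧ F g) = pr A E * pr A F := by
  classical
  have h1 := avg_mul hA h (F := fun g => if E g then 1 else 0) (G := fun g => if F g then 1 else 0)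
    (fun a b => by simp only [hE a b]) (fun a b => by simp only [hF a b])
  unfold pr
  rw [← h1]
  congr 1
  funext g
  by_cases h2 : E g <;> by_cases h3 : F g <;> simp [h2, h3]

/-- height functions on `D` with values `β` on `Z` -/
def hbSet (D : Finset V) (p : ℤ) (Z : Set V) (β : V → ℤ) : Set (V → ℤ) :=
  {g | IsHom D p g ∧ ∀ v ∈ Z, g v = β v}

open Classical in
/-- `hbSet` as a finite set -/
noncomputable def Hb (D : Finset V) (p : ℤ) (Z : Set V) (β : V → ℤ) : Finset (V → ℤ) :=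
  if h : (hbSet D p Z β).Finite then h.toFinset else ∅

lemma hbSet_finite {D : Finset V} {p : ℤ} {Z : Set V} {β : V → ℤ} (hZ : (bdry D : Set V) ⊆ Z) :
    (hbSet D p Z β).Finite := by
  apply (A02_fin D (D.card + ∑ b ∈ bdry D, |β b|)).subset
  rintro g ⟨hg, hg0⟩
  refine ⟨hg.off, fun v hv => ?_⟩
  obtain ⟨b, hb, hbv⟩ := hg.bound_bdry hv
  rw [hg0 b (hZ hb)] at hbv
  have h1 := abs_add_le (g v - β b) (β b)
  rw [sub_add_cancel] at h1
  have h2 : |β b| ≤ ∑ b ∈ bdry D, |β b| :=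
    Finset.single_le_sum (f := fun b => |β b|) (fun _ _ => abs_nonneg _) hb
  linarith

lemma mem_Hb {D : Finset V} {p : ℤ} {Z : Set V} {β : V → ℤ} (hZ : (bdry D : Set V) ⊆ Z)
    {g : V → ℤ} : g ∈ Hb D p Z β ↔ IsHom D p g ∧ ∀ v ∈ Z, g v = β v := by
  unfold Hb
  rw [dif_pos (hbSet_finite hZ), Set.Finite.mem_toFinset]
  rfl

lemma Zs_eq_Hb {D : Finset V} {p : ℤ} {Z : Finset V} (hZ : bdry D ⊆ Z) :
    Zs D p Z = Hb D p (Z : Set V) 0 := by
  ext g
  rw [mem_Zs hZ, mem_Hb (by exact_mod_cast hZ)]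
  rfl

/-- average over the image under an injective map -/
lemma avg_image {A B : Finset (V → ℤ)} {φ : (V → ℤ) → (V → ℤ)} (h1 : ∀ a ∈ A, φ a ∈ B)
    {ψ : (V → ℤ) → (V → ℤ)} (h2 : ∀ b ∈ B, ψ b ∈ A) (h3 : ∀ a ∈ A, ψ (φ a) = a)
    (h4 : ∀ b ∈ B, φ (ψ b) = b) (F : (V → ℤ) → ℝ) : avg A (fun g => F (φ g)) = avg B F := by
  have hc : A.card = B.card := Finset.card_nbij' φ ψ h1 h2 h3 h4
  unfold avg
  rw [hc]
  congr 1
  exact Finset.sum_nbij' φ ψ h1 h2 h3 h4 fun _ _ => rfl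

lemma pr_image {A B : Finset (V → ℤ)} {φ : (V → ℤ) → (V → ℤ)} (h1 : ∀ a ∈ A, φ a ∈ B)
    {ψ : (V → ℤ) → (V → ℤ)} (h2 : ∀ b ∈ B, ψ b ∈ A) (h3 : ∀ a ∈ A, ψ (φ a) = a)
    (h4 : ∀ b ∈ B, φ (ψ b) = b) (E : (V → ℤ) → Prop) : pr A (fun g => E (φ g)) = pr B E := by
  classical
  exact avg_image h1 h2 h3 h4 fun g => if E g then 1 else 0

open Classical in
/-- `s - g` on `D`, zero off `D` -/
noncomputable def rfc (D : Finset V) (s : ℤ) (g : V → ℤ) : V → ℤ := fun v => if v ∈ D then s - g v else 0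

lemma rfc_in {D : Finset V} {s : ℤ} {g : V → ℤ} {v : V} (h : v ∈ D) : rfc D s g v = s - g v := by
  unfold rfc
  rw [if_pos h]

lemma rfc_out {D : Finset V} {s : ℤ} {g : V → ℤ} {v : V} (h : v ∉ D) : rfc D s g v = 0 := by
  unfold rfc
  rw [if_neg h]

lemma rfc_rfc {D : Finset V} {s : ℤ} {p : ℤ} {g : V → ℤ} (h : IsHom D p g) :
    rfc D s (rfc D s g) = g := by
  funext v
  by_cases hv : v ∈ D
  · rw [rfc_in hv, rfc_in hv]
    ring
  · rw [rfc_out hv, h.off v hv]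

lemma rfc_hom {D : Finset V} {s : ℤ} {p : ℤ} {g : V → ℤ} (h : IsHom D p g) :
    IsHom D (p + s) (rfc D s g) := by
  refine ⟨fun v hv => rfc_out hv, fun v hv => ?_, fun u hu v hv ha => ?_⟩
  · rw [rfc_in hv]
    have h1 := h.par v hv
    rw [Int.even_iff] at h1 ⊢
    omega
  · rw [rfc_in hu, rfc_in hv, show s - g u - (s - g v) = g v - g u by ring, abs_sub_comm]
    exact h.step u hu v hv ha

/-- the parity class only matters modulo two -/
lemma hom_congr {D : Finset V} {p q : ℤ} {g : V → ℤ} (h : IsHom D p g) (hpq : Even (p - q)) :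
    IsHom D q g := by
  refine ⟨h.off, fun v hv => ?_, h.step⟩
  have h1 := h.par v hv
  rw [Int.even_iff] at h1 hpq ⊢
  omega

/-- reflection of a family -/
theorem pr_rfc {D : Finset V} {p s : ℤ} (hs : Even s) {Z : Set V} {β : V → ℤ}
    (hZ : (bdry D : Set V) ⊆ Z) (hZD : Z ⊆ (D : Set V)) (E : (V → ℤ) → Prop) :
    pr (Hb D p Z β) (fun g => E (rfc D s g)) = pr (Hb D p Z fun v => s - β v) E := by
  have key : ∀ β' : V → ℤ, ∀ a ∈ Hb D p Z β', rfc D s a ∈ Hb D p Z fun v => s - β' v := by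
    intro β' a ha
    rw [mem_Hb hZ] at ha ⊢
    refine ⟨hom_congr (rfc_hom ha.1) (by rwa [add_sub_cancel_left]), fun v hv => ?_⟩
    rw [rfc_in (hZD hv), ha.2 v hv]
  have h2 : (fun v => s - (s - β v)) = β := by
    funext v
    ring
  refine pr_image (ψ := rfc D s) (key β) ?_ ?_ ?_ E
  · intro b hb
    have h3 := key _ b hb
    rwa [h2] at h3
  · intro a ha
    exact rfc_rfc ((mem_Hb hZ).1 ha).1
  · intro b hb
    exact rfc_rfc ((mem_Hb hZ).1 hb).1

end DV
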