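import Pool.Agent.Helper97.DV.Mk
import Pool.Agent.Helper97.DV.Bx
import Pool.Agent.Helper97.DV.Fl
import Pool.Agent.Helper97.DV.Fr

/-!
# Project DV (MP_973bc8_pr): annuli in the `L¹` distance

Spheres in the `L¹` distance consist of sites of one parity; an annulus with zero boundary values in
which no path of `|h| ≤ 1` crosses is blocked for `h ≤ 1` or for `-1 ≤ h`.
-/

open Finset RP4

namespace DV

/-- `L¹` distance -/
def nr (x v : V) : ℤ := |v.1 - x.1| + |v.2 - x.2|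

lemma nr_adj {x u v : V} (h : Adj u v) : |nr x u - nr x v| = 1 := by
  have e := adj_cases' h
  unfold nr
  rcases abs_cases (u.1 - x.1) with h1 | h1 <;> rcases abs_cases (u.2 - x.2) with h2 | h2 <;>
    rcases abs_cases (v.1 - x.1) with h3 | h3 <;> rcases abs_cases (v.2 - x.2) with h4 | h4 <;>
    rw [h1.1, h2.1, h3.1, h4.1, abs_eq (by norm_num)] <;> omega

lemma nr_par (x v : V) : Even (nr x v - par v - par x) := by
  unfold nr par
  rw [Int.even_iff]
  rcases abs_cases (v.1 - x.1) with h3 | h3 <;> rcases abs_cases (v.2 - x.2) with h4 | h4 <;>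
    rw [h3.1, h4.1] <;> omega

lemma nr_nonneg (x v : V) : 0 ≤ nr x v := add_nonneg (abs_nonneg _) (abs_nonneg _)

lemma nr_self (x : V) : nr x x = 0 := by simp [nr]

lemma nr_le_of_Sq {x v : V} {n : ℤ} (h : v ∈ Sq x n) : nr x v ≤ 2 * n := by
  have h1 : |v.1 - x.1| ≤ n := h.1
  have h2 : |v.2 - x.2| ≤ n := h.2
  unfold nr
  omega

lemma Sq_of_nr_le {x v : V} {n : ℤ} (h : nr x v ≤ n) : v ∈ Sq x n := by
  unfold nr at h
  have h1 := abs_nonneg (v.1 - x.1)
  have h2 := abs_nonneg (v.2 - x.2)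
  exact ⟨by omega, by omega⟩

open Classical in
/-- the annulus `R ≤ |v - x| ≤ R'` -/
noncomputable def Ann (x : V) (R R' : ℤ) : Finset V :=
  ((Finset.Icc (x.1 - R') (x.1 + R')) ×ˢ (Finset.Icc (x.2 - R') (x.2 + R'))).filter
    fun v => R ≤ nr x v ∧ nr x v ≤ R'

lemma mem_Ann {x v : V} {R R' : ℤ} : v ∈ Ann x R R' ↔ R ≤ nr x v ∧ nr x v ≤ R' := by
  unfold Ann
  rw [Finset.mem_filter, Finset.mem_product, Finset.mem_Icc, Finset.mem_Icc]
  constructor
  · exact fun h => h.2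
  · intro h
    refine ⟨?_, h⟩
    obtain ⟨h1, h2⟩ := Sq_of_nr_le h.2
    rw [abs_le] at h1 h2
    exact ⟨⟨by omega, by omega⟩, by omega, by omega⟩

lemma bdry_Ann {x v : V} {R R' : ℤ} (h : v ∈ bdry (Ann x R R')) :
    v ∈ Ann x R R' ∧ (nr x v = R ∨ nr x v = R') := by
  obtain ⟨h1, u, h2, h3⟩ := mem_bdry.1 h
  refine ⟨h1, ?_⟩
  rw [mem_Ann] at h1 h3
  have h4 := nr_adj (x := x) h2
  rw [abs_eq (by norm_num)] at h4
  omega

/-- going outwards -/
lemma ray_ext {C : Set V} {x b : V} {R : ℤ} (hC : ∀ v ∈ C, nr x v < R) (hb : R ≤ nr x b) :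
    b ∈ ext C := by
  intro n
  obtain ⟨b1, b2⟩ := b
  rcases le_total x.1 b1 with h | h
  · refine ⟨(b1 + (|n| + |b1| + 1), b2), ?_, ?_⟩
    · rw [not_mem_Sq]
      left
      have h1 := neg_abs_le b1
      have h2 := le_abs_self n
      simp only [Prod.fst_zero]
      omega
    · refine con_row (by have := abs_nonneg n; have := abs_nonneg b1; omega) fun t h1 h2 h3 => ?_
      have h4 := hC _ h3
      unfold nr at h4 hb
      simp only at h4 hb
      rw [abs_of_nonneg (by omega : (0 : ℤ) ≤ t - x.1)] at h4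
      rw [abs_of_nonneg (by omega : (0 : ℤ) ≤ b1 - x.1)] at hb
      omega
  · refine ⟨(b1 - (|n| + |b1| + 1), b2), ?_, ?_⟩
    · rw [not_mem_Sq]
      right
      left
      have h1 := le_abs_self b1
      have h2 := le_abs_self n
      simp only [Prod.fst_zero]
      omega
    · refine Con.symm' (con_row (S := Cᶜ) (y := b2) (a := b1 - (|n| + |b1| + 1)) (b := b1)
        (by have := abs_nonneg n; have := abs_nonneg b1; omega) fun t h1 h2 h3 => ?_)
      have h4 := hC _ h3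
      unfold nr at h4 hb
      simp only at h4 hb
      rw [abs_of_nonpos (by omega : t - x.1 ≤ 0)] at h4
      rw [abs_of_nonpos (by omega : b1 - x.1 ≤ 0)] at hb
      omega

/-- a ball is connected -/
lemma ball_con {x v : V} {R : ℤ} (h : nr x v < R) : Con {w | nr x w < R} v x := by
  obtain ⟨v1, v2⟩ := v
  obtain ⟨x1, x2⟩ := x
  unfold nr at h
  simp only at h
  have h1 : Con {w : V | nr (x1, x2) w < R} (v1, v2) (x1, v2) := by
    refine con_row' fun t h1 h2 => ?_
    show nr (x1, x2) (t, v2) < R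
    unfold nr
    simp only
    rcases abs_cases (t - x1) with h3 | h3 <;> rcases abs_cases (v1 - x1) with h4 | h4 <;>
      rw [h4.1] at h <;> rw [h3.1] <;> omega
  have h2 : Con {w : V | nr (x1, x2) w < R} (x1, v2) (x1, x2) := by
    refine con_col' fun t h1 h2 => ?_
    show nr (x1, x2) (x1, t) < R
    unfold nr
    simp only [sub_self, abs_zero, zero_add]
    have h5 := abs_nonneg (v1 - x1)
    rcases abs_cases (t - x2) with h3 | h3 <;> rcases abs_cases (v2 - x2) with h4 | h4 <;>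
      rw [h4.1] at h <;> rw [h3.1] <;> omega
  exact h1.trans h2

/-- a path in `P` crosses the annulus -/
def Crs (x : V) (R R' : ℤ) (P : Set V) : Prop :=
  ∃ a b, nr x a = R ∧ nr x b = R' ∧ Con {w | w ∈ P ∧ R ≤ nr x w ∧ nr x w ≤ R'} a b

lemma Crs.mono {x : V} {R R' : ℤ} {P P' : Set V}
    (h : ∀ w, R ≤ nr x w → nr x w ≤ R' → w ∈ P → w ∈ P') (hc : Crs x R R' P) : Crs x R R' P' := by
  obtain ⟨a, b, h1, h2, h3⟩ := hc
  exact ⟨a, b, h1, h2, h3.mono (fun _ _ h => h) fun w hw => ⟨h w hw.2.1 hw.2.2 hw.1, hw.2⟩⟩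

lemma Crs.congr {x : V} {R R' : ℤ} {P P' : Set V}
    (h : ∀ w, R ≤ nr x w → nr x w ≤ R' → (w ∈ P ↔ w ∈ P')) : Crs x R R' P ↔ Crs x R R' P' :=
  ⟨Crs.mono fun w h1 h2 => (h w h1 h2).1, Crs.mono fun w h1 h2 => (h w h1 h2).2⟩

/-- a long path crosses the annulus -/
lemma crs_of_con {x : V} {R R' : ℤ} {P : Set V} {u v : V} (h : Con P u v) (hRR : R ≤ R')
    (hu : nr x u ≤ R) (hv : R' ≤ nr x v) : Crs x R R' P := by
  have hφ : ∀ a b : V, Adj a b → |nr x a - nr x b| ≤ 1 := fun a b hab => (nr_adj hab).le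
  have hφ' : ∀ a b : V, Adj a b → |-nr x a - -nr x b| ≤ 1 := fun a b hab => by
    rw [show -nr x a - -nr x b = -(nr x a - nr x b) by ring, abs_neg]
    exact (nr_adj hab).le
  obtain ⟨b, h1, h2⟩ := h.level (φ := fun v => -nr x v) hφ' (n := -R') (by omega) (by omega)
  have h2' : nr x b = R' := by omega
  obtain ⟨a, h3, h4⟩ := (Con.symm' h1).level (φ := nr x) hφ (n := R) (by omega) hu
  refine ⟨a, b, h4, h2', (Con.symm' h3).mono (fun _ _ h => h) ?_⟩
  rintro w ⟨⟨h5, h6⟩, h7⟩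
  have h6' : -R' ≤ -nr x w := h6
  have h7' : R ≤ nr x w := h7
  exact ⟨h5, h7', by omega⟩

end DV
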