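import Pool.Agent.Helper97.DV.Lq

/-!
# Project DV (MP_973bc8_pr): (S'), the key estimate

In every zero environment, paths of `|h - 2| ≤ 1` that cross `m` disjoint annuli have probability at
most `(1 - c / 2) ^ m`.
-/

open Finset RP4

namespace DV

open Classical in
/-- the values `e` on the sites of the parity of `p`, the value `1` on the other sites -/
noncomputable def flt (D : Finset V) (p : ℤ) (e : V → ℤ) : V → ℤ :=
  fun v => if v ∈ D then (if Even (par v + p) then e v else 1) else 0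

lemma flt_even {D : Finset V} {p : ℤ} {e : V → ℤ} {v : V} (h : v ∈ D) (h' : Even (par v + p)) :
    flt D p e v = e v := by
  unfold flt
  rw [if_pos h, if_pos h']

lemma flt_odd {D : Finset V} {p : ℤ} {e : V → ℤ} {v : V} (h : v ∈ D) (h' : ¬ Even (par v + p)) :
    flt D p e v = 1 := by
  unfold flt
  rw [if_pos h, if_neg h']

lemma flt_out {D : Finset V} {p : ℤ} {e : V → ℤ} {v : V} (h : v ∉ D) : flt D p e v = 0 := by
  unfold flt
  rw [if_neg h]

lemma adj_parity {u v : V} (h : Adj u v) (p : ℤ) : Even (par u + p) ↔ ¬ Even (par v + p) := by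
  have h1 := adj_par' h
  rw [Int.even_iff] at h1 ⊢
  rw [Int.even_iff]
  omega

lemma flt_hom (D : Finset V) (p : ℤ) {e : V → ℤ} (he : ∀ v, e v = 0 ∨ e v = 2) :
    IsHom D p (flt D p e) := by
  refine ⟨fun v hv => flt_out hv, fun v hv => ?_, fun u hu v hv ha => ?_⟩
  · by_cases h : Even (par v + p)
    · rw [flt_even hv h]
      rw [Int.even_iff] at h ⊢
      rcases he v with h1 | h1 <;> rw [h1] <;> omega
    · rw [flt_odd hv h]
      rw [Int.even_iff] at h ⊢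
      omega
  · have h1 := adj_parity ha p
    by_cases h : Even (par v + p)
    · rw [flt_even hv h, flt_odd hu (fun h2 => h1.1 h2 h)]
      rcases he v with h2 | h2 <;> rw [h2] <;> norm_num
    · rw [flt_odd hv h, flt_even hu (h1.2 h)]
      rcases he u with h2 | h2 <;> rw [h2] <;> norm_num

section one

variable {D Z : Finset V} {p : ℤ} {x : V} {Rad : Set ℤ}

/-- the sites with prescribed values -/
def ZC (D Z : Finset V) (x : V) (Rad : Set ℤ) : Set V := (Z : Set V) ∪ {v | v ∈ D ∧ nr x v ∈ Rad}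

open Classical in
/-- the values: `0` on `Z` and `2` elsewhere -/
noncomputable def gam (Z : Finset V) : V → ℤ := fun v => if v ∈ Z then 0 else 2

lemma gam_in {v : V} (h : v ∈ Z) : gam Z v = 0 := by
  unfold gam
  rw [if_pos h]

lemma gam_out {v : V} (h : v ∉ Z) : gam Z v = 2 := by
  unfold gam
  rw [if_neg h]

lemma gam_cases (Z : Finset V) (v : V) : gam Z v = 0 ∨ gam Z v = 2 := by
  by_cases h : v ∈ Z
  · exact Or.inl (gam_in h)
  · exact Or.inr (gam_out h)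

lemma ZC_bdry (hb : bdry D ⊆ Z) : (bdry D : Set V) ⊆ ZC D Z x Rad := fun _ hv =>
  Or.inl (hb hv)

lemma rad_even (hRad : ∀ r ∈ Rad, Even (r + par x + p)) {v : V} (hv : nr x v ∈ Rad) :
    Even (par v + p) := by
  have h1 := hRad _ hv
  have h2 := nr_par x v
  rw [Int.even_iff] at h1 h2 ⊢
  omega

lemma ZC_even (hZ : ∀ v ∈ Z, Even (par v + p)) (hRad : ∀ r ∈ Rad, Even (r + par x + p)) {v : V}
    (hv : v ∈ ZC D Z x Rad) : Even (par v + p) := by
  rcases hv with hv | hv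
  · exact hZ v hv
  · exact rad_even hRad hv.2

lemma ZC_sub (hZD : Z ⊆ D) {v : V} (hv : v ∈ ZC D Z x Rad) : v ∈ D := by
  rcases hv with hv | hv
  · exact hZD hv
  · exact hv.1

lemma hb_nonempty (hb : bdry D ⊆ Z) (hZD : Z ⊆ D) (hZ : ∀ v ∈ Z, Even (par v + p))
    (hRad : ∀ r ∈ Rad, Even (r + par x + p)) : (Hb D p (ZC D Z x Rad) (gam Z)).Nonempty := by
  refine ⟨flt D p (gam Z), (mem_Hb (ZC_bdry hb)).2 ⟨flt_hom D p (gam_cases Z), fun v hv => ?_⟩⟩
  rw [flt_even (ZC_sub hZD hv) (ZC_even hZ hRad hv)]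

/-- prescribed sites of the annulus -/
def ZA (D Z : Finset V) (p : ℤ) (x : V) (R R' : ℤ) : Set V :=
  {v | v ∈ Ann x R R' ∧ ((nr x v = R ∨ nr x v = R') ∨ v ∈ Z ∨ (v ∉ D ∧ Even (par v + p)))}

open Classical in
/-- prescribed values in the annulus -/
noncomputable def bet (D Z : Finset V) : V → ℤ := fun v => if v ∈ D ∧ v ∉ Z then 2 else 0

lemma bet_two {v : V} (h : v ∈ D) (h' : v ∉ Z) : bet D Z v = 2 := by
  unfold bet
  rw [if_pos ⟨h, h'⟩]

lemma bet_zero {v : V} (h : ¬ (v ∈ D ∧ v ∉ Z)) : bet D Z v = 0 := by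
  unfold bet
  rw [if_neg h]

lemma bet_cases (D Z : Finset V) (v : V) : bet D Z v = 0 ∨ bet D Z v = 2 := by
  by_cases h : v ∈ D ∧ v ∉ Z
  · exact Or.inr (bet_two h.1 h.2)
  · exact Or.inl (bet_zero h)

lemma ZA_bdry {R R' : ℤ} : (bdry (Ann x R R') : Set V) ⊆ ZA D Z p x R R' := fun _ hv =>
  ⟨(bdry_Ann hv).1, Or.inl (bdry_Ann hv).2⟩

lemma ZA_even (hZ : ∀ v ∈ Z, Even (par v + p)) {R R' : ℤ} (hR : Even (R + par x + p))
    (hR' : Even (R' + par x + p)) {v : V} (hv : v ∈ ZA D Z p x R R') : Even (par v + p) := by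
  obtain ⟨_, hv | hv | hv⟩ := hv
  · have h2 := nr_par x v
    rw [Int.even_iff] at h2 hR hR' ⊢
    omega
  · exact hZ v hv
  · exact hv.2

lemma ha_nonempty (hZ : ∀ v ∈ Z, Even (par v + p)) {R R' : ℤ} (hR : Even (R + par x + p))
    (hR' : Even (R' + par x + p)) :
    (Hb (Ann x R R') p (ZA D Z p x R R') (bet D Z)).Nonempty := by
  refine ⟨flt (Ann x R R') p (bet D Z),
    (mem_Hb ZA_bdry).2 ⟨flt_hom _ p (bet_cases D Z), fun v hv => ?_⟩⟩
  rw [flt_even hv.1 (ZA_even hZ hR hR' hv)]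

/-- restriction to one annulus -/
theorem pr_restr (hb : bdry D ⊆ Z) (hZD : Z ⊆ D) (hZ : ∀ v ∈ Z, Even (par v + p))
    (hRad : ∀ r ∈ Rad, Even (r + par x + p)) {R R' : ℤ} (hR : R ∈ Rad) (hR' : R' ∈ Rad)
    (hgap : ∀ r ∈ Rad, R ≤ r → r ≤ R' → r = R ∨ r = R') :
    pr (Hb D p (ZC D Z x Rad) (gam Z)) (fun h => Crs x R R' {w | w ∈ D ∧ |h w - 2| ≤ 1}) =
      pr (Hb (Ann x R R') p (ZA D Z p x R R') (bet D Z))
        (fun h => Crs x R R' {w | w ∈ D ∧ |h w - 2| ≤ 1}) := by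
  obtain ⟨U, hU⟩ : ∃ U : Set V, ∀ v, v ∈ U ↔ v ∈ D ∧ v ∈ Ann x R R' :=
    ⟨{v | v ∈ D ∧ v ∈ Ann x R R'}, fun v => Iff.rfl⟩
  refine pr_swap (U := U) (hb_nonempty hb hZD hZ hRad)
    (ha_nonempty hZ (hRad R hR) (hRad R' hR')) ?_ ?_ ?_
  · intro a ha b hb'
    rw [mem_Hb (ZC_bdry hb)] at ha ⊢
    rw [mem_Hb ZA_bdry] at hb'
    obtain ⟨ha1, ha2⟩ := ha
    obtain ⟨hb1, hb2⟩ := hb'
    -- values on the spheres agree
    have hsph : ∀ v, v ∈ D → v ∈ Ann x R R' → (nr x v = R ∨ nr x v = R') → b v = a v := by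
      intro v hv hvA hvR
      have h1 : v ∈ ZC D Z x Rad := Or.inr ⟨hv, by rcases hvR with h | h <;> rw [h] <;> assumption⟩
      rw [hb2 v ⟨hvA, Or.inl hvR⟩, ha2 v h1]
      by_cases hvZ : v ∈ Z
      · rw [gam_in hvZ, bet_zero (fun h => h.2 hvZ)]
      · rw [gam_out hvZ, bet_two hv hvZ]
    refine ⟨⟨fun v hv => ?_, fun v hv => ?_, fun u hu v hv hadj => ?_⟩, fun v hv => ?_⟩
    · rw [mix_out (fun h => hv ((hU _).1 h).1), ha1.off v hv]
    · by_cases hvA : v ∈ Ann x R R'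
      · rw [mix_in ((hU _).2 ⟨hv, hvA⟩)]
        exact hb1.par v hvA
      · rw [mix_out (fun h => hvA ((hU _).1 h).2)]
        exact ha1.par v hv
    · have hnr := nr_adj (x := x) hadj
      rw [abs_eq (by norm_num)] at hnr
      by_cases huA : u ∈ Ann x R R' <;> by_cases hvA : v ∈ Ann x R R'
      · rw [mix_in ((hU _).2 ⟨hu, huA⟩), mix_in ((hU _).2 ⟨hv, hvA⟩)]
        exact hb1.step u huA v hvA hadj
      · rw [mix_in ((hU _).2 ⟨hu, huA⟩), mix_out (fun h => hvA ((hU _).1 h).2)]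
        rw [hsph u hu huA (by rw [mem_Ann] at huA hvA; omega)]
        exact ha1.step u hu v hv hadj
      · rw [mix_out (fun h => huA ((hU _).1 h).2), mix_in ((hU _).2 ⟨hv, hvA⟩)]
        rw [hsph v hv hvA (by rw [mem_Ann] at huA hvA; omega)]
        exact ha1.step u hu v hv hadj
      · rw [mix_out (fun h => huA ((hU _).1 h).2), mix_out (fun h => hvA ((hU _).1 h).2)]
        exact ha1.step u hu v hv hadj
    · by_cases hvA : v ∈ Ann x R R'
      · have hvD := ZC_sub hZD hv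
        rw [mix_in ((hU _).2 ⟨hvD, hvA⟩)]
        rcases hv with hv | hv
        · have hv' : v ∈ Z := hv
          rw [hb2 v ⟨hvA, Or.inr (Or.inl hv')⟩, gam_in hv', bet_zero (fun h => h.2 hv')]
        · rw [mem_Ann] at hvA
          have h1 := hgap _ hv.2 hvA.1 hvA.2
          rw [hsph v hvD (mem_Ann.2 hvA) h1]
          exact ha2 v (Or.inr hv)
      · rw [mix_out (fun h => hvA ((hU _).1 h).2)]
        exact ha2 v hv
  · intro a ha b hb'
    rw [mem_Hb (ZC_bdry hb)] at ha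
    rw [mem_Hb ZA_bdry] at hb' ⊢
    obtain ⟨ha1, ha2⟩ := ha
    obtain ⟨hb1, hb2⟩ := hb'
    -- boundary sites of `D` are zeros of both functions
    have hbd : ∀ u ∈ D, u ∈ Ann x R R' → ∀ v, v ∉ D → Adj u v → a u = b u := by
      intro u hu huA v hv hadj
      have huZ : u ∈ Z := hb (mem_bdry.2 ⟨hu, v, adj_symm hadj, hv⟩)
      rw [ha2 u (Or.inl huZ), hb2 u ⟨huA, Or.inr (Or.inl huZ)⟩, gam_in huZ,
        bet_zero (fun h => h.2 huZ)]
    refine ⟨⟨fun v hv => ?_, fun v hv => ?_, fun u hu v hv hadj => ?_⟩, fun v hv => ?_⟩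
    · rw [mix_out (fun h => hv ((hU _).1 h).2), hb1.off v hv]
    · by_cases hvD : v ∈ D
      · rw [mix_in ((hU _).2 ⟨hvD, hv⟩)]
        exact ha1.par v hvD
      · rw [mix_out (fun h => hvD ((hU _).1 h).1)]
        exact hb1.par v hv
    · by_cases huD : u ∈ D <;> by_cases hvD : v ∈ D
      · rw [mix_in ((hU _).2 ⟨huD, hu⟩), mix_in ((hU _).2 ⟨hvD, hv⟩)]
        exact ha1.step u huD v hvD hadj
      · rw [mix_in ((hU _).2 ⟨huD, hu⟩), mix_out (fun h => hvD ((hU _).1 h).1), hbd u huD hu v hvD hadj]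
        exact hb1.step u hu v hv hadj
      · rw [mix_out (fun h => huD ((hU _).1 h).1), mix_in ((hU _).2 ⟨hvD, hv⟩), hbd v hvD hv u huD (adj_symm hadj)]
        exact hb1.step u hu v hv hadj
      · rw [mix_out (fun h => huD ((hU _).1 h).1), mix_out (fun h => hvD ((hU _).1 h).1)]
        exact hb1.step u hu v hv hadj
    · by_cases hvD : v ∈ D
      · rw [mix_in ((hU _).2 ⟨hvD, hv.1⟩)]
        by_cases hvZ : v ∈ Z
        · rw [ha2 v (Or.inl hvZ), gam_in hvZ, bet_zero (fun h => h.2 hvZ)]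
        · obtain ⟨h1, h2 | h2 | h2⟩ := hv
          · rw [ha2 v (Or.inr ⟨hvD, by rcases h2 with h | h <;> rw [h] <;> assumption⟩),
              gam_out hvZ, bet_two hvD hvZ]
          · exact absurd h2 hvZ
          · exact absurd hvD h2.1
      · rw [mix_out (fun h => hvD ((hU _).1 h).1)]
        exact hb2 v hv
  · intro a b
    refine Crs.congr fun w h1 h2 => ?_
    constructor
    · rintro ⟨h3, h4⟩
      refine ⟨h3, ?_⟩
      rwa [mix_in ((hU _).2 ⟨h3, mem_Ann.2 ⟨h1, h2⟩⟩)] at h4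
    · rintro ⟨h3, h4⟩
      refine ⟨h3, ?_⟩
      rwa [mix_in ((hU _).2 ⟨h3, mem_Ann.2 ⟨h1, h2⟩⟩)]

/-- a property that passes along the steps holds on the whole path -/
lemma Jn.restrict {r : V → V → Prop} {S : Set V} {P : V → Prop} {u v : V} (h : Jn r S u v)
    (hu : P u) (hs : ∀ a b, r a b → a ∈ S → b ∈ S → P a → P b) : Jn r {w | w ∈ S ∧ P w} u v := by
  obtain ⟨h0, h⟩ := h
  refine ⟨⟨h0, hu⟩, ?_⟩
  induction h with
  | refl => exact Relation.ReflTransGen.refl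
  | @tail b c hb hc ih =>
    have hb' : Jn r {w | w ∈ S ∧ P w} u b := ⟨⟨h0, hu⟩, ih⟩
    have h1 := hb'.right
    exact ih.tail ⟨hc.1, h1, hc.2.2, hs b c hc.1 h1.1 hc.2.2 h1.2⟩

lemma inc_crs (x : V) (R R' : ℤ) : Inc fun h => Crs x R R' {w | 1 ≤ |h w|} := by
  refine ⟨fun g => ?_, fun g g' h1 h2 h3 => ?_⟩
  · refine Crs.congr fun w _ _ => ?_
    show 1 ≤ |(|g w|)| ↔ 1 ≤ |g w|
    rw [abs_abs]
  · refine h3.mono fun w _ _ h4 => ?_
    have h5 : 1 ≤ |g w| := h4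
    show 1 ≤ |g' w|
    rw [abs_of_nonneg (h1 w)] at h5
    exact (h5.trans (h2 w)).trans (le_abs_self _)

lemma dec_crs (D : Set V) (x : V) (R R' : ℤ) : Dec fun g => Crs x R R' {w | w ∈ D ∧ |g w| ≤ 1} := by
  refine ⟨fun g => ?_, fun g g' h1 h2 h3 => ?_⟩
  · refine Crs.congr fun w _ _ => ?_
    show (w ∈ D ∧ |(|g w|)| ≤ 1) ↔ (w ∈ D ∧ |g w| ≤ 1)
    rw [abs_abs]
  · refine h3.mono fun w _ _ h4 => ⟨h4.1, ?_⟩
    have h5 : |g' w| ≤ 1 := h4.2
    rw [abs_of_nonneg (h1 w)]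
    exact (h2 w).trans ((le_abs_self _).trans h5)

/-- the annulus without walls, boundary value `2` -/
theorem pr_two {c : ℝ} {K n0 : ℤ} (hLP : LP c K n0) {n R R' : ℤ} (hn : n0 ≤ n)
    (hR : 1 ≤ R) (hRn : R ≤ n - 1) (hR' : 2 * (K * n) + 1 ≤ R') (hRR : R < R')
    (hp : Even (R + par x + p)) (hp' : Even (R' + par x + p)) :
    pr (Hb (Ann x R R') p (SphF x R R' : Set V) fun _ => 2) (fun h => Crs x R R' {w | 1 ≤ |h w|}) ≤
      1 - c / 2 := by
  have hb := bdry_sub_SphF (x := x) hRR.le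
  have hne : (Zs (Ann x R R') p (SphF x R R')).Nonempty := by
    refine ⟨_, flat_mem_Zs hb SphF_sub fun v hv => ?_⟩
    rw [mem_SphF hRR.le] at hv
    have h2 := nr_par x v
    rw [Int.even_iff] at h2 hp hp' ⊢
    omega
  have h1 := pr_ann hLP hn hR hRn hR' hRR hp hp'
  have h2 := pr_rfc (D := Ann x R R') (p := p) (s := 2) (by decide) (Z := (SphF x R R' : Set V))
    (β := 0) (by exact_mod_cast hb) (by exact_mod_cast SphF_sub)
    (fun h => Crs x R R' {w | 1 ≤ |h w|})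
  have h3 : (fun v : V => (2 : ℤ) - (0 : V → ℤ) v) = fun _ => 2 := by
    funext v
    simp
  rw [h3, ← Zs_eq_Hb hb] at h2
  rw [← h2]
  have h4 : pr (Zs (Ann x R R') p (SphF x R R'))
      (fun g => Crs x R R' {w | 1 ≤ |rfc (Ann x R R') 2 g w|}) ≤
      pr (Zs (Ann x R R') p (SphF x R R')) (fun g => ¬ ¬ Crs x R R' {w | g w ≤ 1}) := by
    refine pr_mono fun g hg => ?_
    rw [mem_Zs hb] at hg
    rintro ⟨a, b, ha, hb', hab⟩
    rw [not_not]
    refine ⟨a, b, ha, hb', ?_⟩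
    have h5 : Jn Adj {w | w ∈ {w | w ∈ {w | 1 ≤ |rfc (Ann x R R') 2 g w|} ∧ R ≤ nr x w ∧
        nr x w ≤ R'} ∧ g w ≤ 1} a b := by
      refine Jn.restrict hab ?_ ?_
      · rw [hg.2 a ((mem_SphF hRR.le).2 (Or.inl ha))]
        norm_num
      · rintro u v huv ⟨hu1, hu2⟩ ⟨hv1, hv2⟩ hu
        have hv1' : 1 ≤ |rfc (Ann x R R') 2 g v| := hv1
        rw [rfc_in (mem_Ann.2 hv2)] at hv1'
        have h6 := hg.1.step u (mem_Ann.2 hu2) v (mem_Ann.2 hv2) huv
        rcases abs_cases (2 - g v) with h7 | h7 <;> rcases abs_cases (g u - g v) with h8 | h8 <;>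
          rw [h7.1] at hv1' <;> rw [h8.1] at h6 <;> omega
    exact h5.mono (fun _ _ h => h) fun w hw => ⟨hw.2, hw.1.2⟩
  rw [pr_not hne] at h4
  linarith

/-- one annulus -/
theorem pr_one {c : ℝ} {K n0 : ℤ} (hLP : LP c K n0) (hZ : ∀ v ∈ Z, Even (par v + p))
    {n R R' : ℤ} (hn : n0 ≤ n) (hR : 1 ≤ R) (hRn : R ≤ n - 1) (hR' : 2 * (K * n) + 1 ≤ R')
    (hRR : R < R') (hp : Even (R + par x + p)) (hp' : Even (R' + par x + p)) :
    pr (Hb (Ann x R R') p (ZA D Z p x R R') (bet D Z))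
      (fun h => Crs x R R' {w | w ∈ D ∧ |h w - 2| ≤ 1}) ≤ 1 - c / 2 := by
  have hb := bdry_sub_SphF (x := x) hRR.le
  refine le_trans (pr_mono fun g hg => ?_) ((fam_inc (D := Ann x R R') (p := p)
    (B := (SphF x R R' : Set V)) (B' := (SphF x R R' : Set V))
    (T := Tb (SphF x R R' : Set V) fun _ => 2) (T' := Tb (ZA D Z p x R R') (bet D Z))
    (A := Hb (Ann x R R') p (SphF x R R' : Set V) fun _ => 2)
    (A' := Hb (Ann x R R') p (ZA D Z p x R R') (bet D Z))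
    ?_ ?_ ?_ ?_ le_rfl ?_ (ha_nonempty hZ hp hp') ?_ (inc_crs x R R')).trans
    (pr_two hLP hn hR hRn hR' hRR hp hp'))
  · refine Crs.mono fun w _ _ h1 => ?_
    have h2 : |g w - 2| ≤ 1 := h1.2
    show 1 ≤ |g w|
    rw [abs_le] at h2
    exact le_trans (by omega) (le_abs_self _)
  · intro g
    rw [mem_Hb ZA_bdry]
    refine and_congr_right fun _ => ?_
    constructor
    · intro h2
      refine ⟨fun v hv => ?_, fun v hv => ?_⟩
      · show |g v| = bet D Z v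
        rw [h2 v hv]
        rcases bet_cases D Z v with h3 | h3 <;> rw [h3] <;> norm_num
      · have hv' : v ∈ SphF x R R' := hv
        rw [h2 v ⟨SphF_sub hv', Or.inl ((mem_SphF hRR.le).1 hv')⟩]
        rcases bet_cases D Z v with h3 | h3 <;> rw [h3] <;> norm_num
    · rintro ⟨h2, h3⟩ v hv
      have h4 : |g v| = bet D Z v := h2 v hv
      by_cases hv' : nr x v = R ∨ nr x v = R'
      · rwa [abs_of_nonneg (h3 v ((mem_SphF hRR.le).2 hv'))] at h4
      · have h5 : bet D Z v = 0 := by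
          apply bet_zero
          rintro ⟨h6, h7⟩
          rcases hv.2 with h8 | h8 | h8
          · exact hv' h8
          · exact h7 h8
          · exact h8.1 h6
        rw [h5, abs_eq_zero] at h4
        rw [h4, h5]
  · exact fam_bdv (fun _ _ => by norm_num) fun g => mem_Hb (by exact_mod_cast hb)
  · intro ξ' h1 ξ h2 _ _ h3 h4 v hv
    have e1 : ξ' v = bet D Z v := h1 v hv
    rw [Pi.inf_apply, e1]
    by_cases hv' : nr x v = R ∨ nr x v = R'
    · have e2 : ξ v = 2 := h2 v ((mem_SphF hRR.le).2 hv')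
      rw [e2]
      rcases bet_cases D Z v with h5 | h5 <;> rw [h5] <;> norm_num
    · have h5 : bet D Z v = 0 := by
        apply bet_zero
        rintro ⟨h6, h7⟩
        rcases hv.2 with h8 | h8 | h8
        · exact hv' h8
        · exact h7 h8
        · exact h8.1 h6
      rw [h5]
      exact min_eq_left (h4 v)
  · intro ξ' h1 ξ h2 _ _ h3 h4 v hv
    have hv' : v ∈ SphF x R R' := hv
    have e1 : ξ' v = bet D Z v := h1 v ⟨SphF_sub hv', Or.inl ((mem_SphF hRR.le).1 hv')⟩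
    have e2 : ξ v = 2 := h2 v hv
    rw [Pi.sup_apply, e1, e2]
    rcases bet_cases D Z v with h5 | h5 <;> rw [h5] <;> norm_num
  · intro ξ' _ ξ _ v hv hv'
    exact absurd hv hv'
  · refine ⟨flt (Ann x R R') p fun _ => 2, (mem_Hb (by exact_mod_cast hb)).2
      ⟨flt_hom _ p fun _ => Or.inr rfl, fun v hv => ?_⟩⟩
    have hv' : v ∈ SphF x R R' := hv
    refine flt_even (SphF_sub hv') ?_
    rw [mem_SphF hRR.le] at hv'
    have h2 := nr_par x v
    rw [Int.even_iff] at h2 hp hp' ⊢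
    omega

end one

end DV
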