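import Pool.Agent.Helper97.DV.Sk

/-!
# Project DV (MP_973bc8_pr): (S'), the key estimate, several annuli
-/

open Finset RP4

namespace DV

variable {D Z : Finset V} {p : ℤ} {x : V} {Rad : Set ℤ}

lemma Dec.forall_lt {m : ℕ} {E : ℕ → (V → ℤ) → Prop} (h : ∀ i, Dec (E i)) :
    Dec fun g => ∀ i < m, E i g :=
  ⟨fun g => forall₂_congr fun i _ => (h i).abs g, fun g g' h1 h2 h3 i hi =>
    (h i).mono g g' h1 h2 (h3 i hi)⟩

/-- radii of disjoint annuli -/
structure Radii (R R' : ℕ → ℤ) : Prop where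
  lt : ∀ i, R i < R' i
  gap : ∀ i, R' i < R (i + 1)

lemma Radii.le {R R' : ℕ → ℤ} (h : Radii R R') {i j : ℕ} (hij : i < j) : R' i < R j := by
  induction j with
  | zero => exact absurd hij (Nat.not_lt_zero _)
  | succ j ih =>
    rcases Nat.lt_succ_iff_lt_or_eq.1 hij with h1 | h1
    · have h2 := ih h1
      have h3 := h.lt j
      have h4 := h.gap j
      omega
    · rw [h1]
      exact h.gap j

/-- the set of the radii -/
def RadS (R R' : ℕ → ℤ) : Set ℤ := {r | ∃ i, r = R i ∨ r = R' i}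

lemma Radii.only {R R' : ℕ → ℤ} (h : Radii R R') {i : ℕ} {r : ℤ} (hr : r ∈ RadS R R')
    (h1 : R i ≤ r) (h2 : r ≤ R' i) : r = R i ∨ r = R' i := by
  obtain ⟨j, hj⟩ := hr
  rcases lt_trichotomy i j with hij | hij | hij
  · have h3 := h.le hij
    have h4 := h.lt j
    omega
  · subst hij
    exact hj
  · have h3 := h.le hij
    have h4 := h.lt j
    omega

/-- the product bound after the decoupling -/
theorem pr_prod (hb : bdry D ⊆ Z) (hZD : Z ⊆ D) (hZ : ∀ v ∈ Z, Even (par v + p)) {R R' : ℕ → ℤ}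
    (hr : Radii R R') (hRad : ∀ r ∈ RadS R R', Even (r + par x + p)) {q : ℝ} (hq : 0 ≤ q)
    (h1 : ∀ i, pr (Hb (Ann x (R i) (R' i)) p (ZA D Z p x (R i) (R' i)) (bet D Z))
      (fun h => Crs x (R i) (R' i) {w | w ∈ D ∧ |h w - 2| ≤ 1}) ≤ q) (m : ℕ) :
    pr (Hb D p (ZC D Z x (RadS R R')) (gam Z))
      (fun h => ∀ i < m, Crs x (R i) (R' i) {w | w ∈ D ∧ |h w - 2| ≤ 1}) ≤ q ^ m := by
  induction m with
  | zero => exact (pr_le_one _ _).trans (by simp)
  | succ m ih =>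
    obtain ⟨U, hU⟩ : ∃ U : Set V, ∀ v, v ∈ U ↔ R m ≤ nr x v := ⟨{v | R m ≤ nr x v}, fun v => Iff.rfl⟩
    have h2 := pr_mul (A := Hb D p (ZC D Z x (RadS R R')) (gam Z)) (U := U)
      (E := fun h => Crs x (R m) (R' m) {w | w ∈ D ∧ |h w - 2| ≤ 1})
      (F := fun h => ∀ i < m, Crs x (R i) (R' i) {w | w ∈ D ∧ |h w - 2| ≤ 1})
      (hb_nonempty hb hZD hZ hRad) ?_ ?_ ?_
    · have h3 : pr (Hb D p (ZC D Z x (RadS R R')) (gam Z))
          (fun h => ∀ i < m + 1, Crs x (R i) (R' i) {w | w ∈ D ∧ |h w - 2| ≤ 1}) =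
          pr (Hb D p (ZC D Z x (RadS R R')) (gam Z)) (fun h =>
            Crs x (R m) (R' m) {w | w ∈ D ∧ |h w - 2| ≤ 1} ∧
            ∀ i < m, Crs x (R i) (R' i) {w | w ∈ D ∧ |h w - 2| ≤ 1}) := by
        refine pr_congr fun h _ => ⟨fun h4 => ⟨h4 m (Nat.lt_succ_self m), fun i hi =>
          h4 i (Nat.lt_succ_of_lt hi)⟩, fun h4 i hi => ?_⟩
        rcases Nat.lt_succ_iff_lt_or_eq.1 hi with h5 | h5
        · exact h4.2 i h5
        · rw [h5]
          exact h4.1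
      have h6 := pr_restr (x := x) (Rad := RadS R R') hb hZD hZ hRad (R := R m) (R' := R' m)
        ⟨m, Or.inl rfl⟩ ⟨m, Or.inr rfl⟩ fun r hr' h7 h8 => hr.only hr' h7 h8
      rw [h3, h2, h6, pow_succ, mul_comm (q ^ m)]
      exact mul_le_mul (h1 m) ih (pr_nonneg _ _) hq
    · intro a ha b hb'
      rw [mem_Hb (ZC_bdry hb)] at ha hb' ⊢
      obtain ⟨ha1, ha2⟩ := ha
      obtain ⟨hb1, hb2⟩ := hb'
      have hsph : ∀ v, v ∈ D → nr x v = R m → a v = b v := by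
        intro v hv hvR
        have h3 : v ∈ ZC D Z x (RadS R R') := Or.inr ⟨hv, ⟨m, Or.inl hvR⟩⟩
        rw [ha2 v h3, hb2 v h3]
      refine ⟨⟨fun v hv => ?_, fun v hv => ?_, fun u hu v hv hadj => ?_⟩, fun v hv => ?_⟩
      · by_cases hvU : v ∈ U
        · rw [mix_in hvU, ha1.off v hv]
        · rw [mix_out hvU, hb1.off v hv]
      · by_cases hvU : v ∈ U
        · rw [mix_in hvU]
          exact ha1.par v hv
        · rw [mix_out hvU]
          exact hb1.par v hv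
      · have hnr := nr_adj (x := x) hadj
        rw [abs_eq (by norm_num)] at hnr
        by_cases huU : u ∈ U <;> by_cases hvU : v ∈ U
        · rw [mix_in huU, mix_in hvU]
          exact ha1.step u hu v hv hadj
        · rw [mix_in huU, mix_out hvU, hsph u hu (by rw [hU] at huU hvU; omega)]
          exact hb1.step u hu v hv hadj
        · rw [mix_out huU, mix_in hvU, hsph v hv (by rw [hU] at huU hvU; omega)]
          exact hb1.step u hu v hv hadj
        · rw [mix_out huU, mix_out hvU]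
          exact hb1.step u hu v hv hadj
      · by_cases hvU : v ∈ U
        · rw [mix_in hvU, ha2 v hv]
        · rw [mix_out hvU, hb2 v hv]
    · intro a b
      refine Crs.congr fun w h3 h4 => ?_
      have h5 : w ∈ U := (hU w).2 h3
      show (w ∈ D ∧ |mix U a b w - 2| ≤ 1) ↔ (w ∈ D ∧ |a w - 2| ≤ 1)
      rw [mix_in h5]
    · intro a b
      refine forall₂_congr fun i hi => Crs.congr fun w h3 h4 => ?_
      have h5 : w ∉ U := fun h => by
        have h6 := (hU w).1 h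
        have h7 := hr.le hi
        omega
      show (w ∈ D ∧ |mix U a b w - 2| ≤ 1) ↔ (w ∈ D ∧ |b w - 2| ≤ 1)
      rw [mix_out h5]

/-- decoupling: prescribe `h = 2` on the spheres -/
theorem pr_decouple (hb : bdry D ⊆ Z) (hZD : Z ⊆ D) (hZ : ∀ v ∈ Z, Even (par v + p))
    {Rad : Set ℤ} (hRad : ∀ r ∈ Rad, Even (r + par x + p)) (R R' : ℕ → ℤ) (m : ℕ) :
    pr (Zs D p Z) (fun h => ∀ i < m, Crs x (R i) (R' i) {w | w ∈ D ∧ |h w - 2| ≤ 1}) ≤
      pr (Hb D p (ZC D Z x Rad) (gam Z))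
        (fun h => ∀ i < m, Crs x (R i) (R' i) {w | w ∈ D ∧ |h w - 2| ≤ 1}) := by
  obtain ⟨E, hE⟩ : ∃ E : (V → ℤ) → Prop, E = fun h => ∀ i < m, Crs x (R i) (R' i)
    {w | w ∈ D ∧ |h w - 2| ≤ 1} := ⟨_, rfl⟩
  obtain ⟨E', hE'⟩ : ∃ E' : (V → ℤ) → Prop, E' = fun h => ∀ i < m, Crs x (R i) (R' i)
    {w | w ∈ D ∧ |h w| ≤ 1} := ⟨_, rfl⟩
  have hEE : ∀ g, E (rfc D 2 g) ↔ E' g := by
    intro g
    rw [hE, hE']
    refine forall₂_congr fun i hi => Crs.congr fun w h3 h4 => and_congr_right fun h5 => ?_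
    rw [rfc_in h5, show 2 - g w - 2 = -g w by ring, abs_neg]
  have hdec : Dec E' := by
    rw [hE']
    exact Dec.forall_lt fun i => dec_crs (D : Set V) x (R i) (R' i)
  have hbZ : (bdry D : Set V) ⊆ (Z : Set V) := by exact_mod_cast hb
  have hZD' : (Z : Set V) ⊆ (D : Set V) := by exact_mod_cast hZD
  have hbC : (bdry D : Set V) ⊆ ZC D Z x Rad := ZC_bdry hb
  have hCD : ZC D Z x Rad ⊆ (D : Set V) := fun v hv => ZC_sub hZD hv
  have e1 := pr_rfc (D := D) (p := p) (s := 2) (by decide) (β := fun _ => 2) hbZ hZD' E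
  have e2 := pr_rfc (D := D) (p := p) (s := 2) (by decide) (β := fun v => 2 - gam Z v) hbC hCD E
  have e3 : (fun v : V => (2 : ℤ) - (fun _ : V => (2 : ℤ)) v) = 0 := by
    funext v
    simp
  have e4 : (fun v : V => (2 : ℤ) - (fun v : V => 2 - gam Z v) v) = gam Z := by
    funext v
    simp
  rw [e3, ← Zs_eq_Hb hb] at e1
  rw [e4] at e2
  rw [← hE, ← e1, ← e2]
  rw [pr_congr (E' := E') fun g _ => hEE g, pr_congr (E' := E') fun g _ => hEE g]
  have hne' : (Hb D p (ZC D Z x Rad) fun v => 2 - gam Z v).Nonempty := by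
    refine ⟨flt D p fun v => 2 - gam Z v, (mem_Hb hbC).2 ⟨flt_hom D p fun v => ?_, fun v hv => ?_⟩⟩
    · rcases gam_cases Z v with h | h <;> rw [h]
      · exact Or.inr rfl
      · exact Or.inl rfl
    · rw [flt_even (hCD hv) (ZC_even hZ hRad hv)]
  have hne : (Hb D p (Z : Set V) fun _ => 2).Nonempty := by
    refine ⟨flt D p fun _ => 2, (mem_Hb hbZ).2 ⟨flt_hom D p fun v => Or.inr rfl, fun v hv => ?_⟩⟩
    rw [flt_even (hZD' hv) (hZ v hv)]
  have h0 : Dec fun g : V → ℤ => ∀ v, v ∈ D → nr x v ∈ Rad → v ∉ Z → g v = 0 := by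
    refine ⟨fun g => ?_, fun g g' h1 h2 h3 v hv hvR hvZ => ?_⟩
    · refine forall_congr' fun v => forall₃_congr fun _ _ _ => ?_
      exact abs_eq_zero
    · exact le_antisymm ((h2 v).trans (h3 v hv hvR hvZ).le) (h1 v)
  have key := avg_filter_dec (A' := Hb D p (ZC D Z x Rad) fun v => 2 - gam Z v)
    (fam_bdv (D := D) (p := p) (Z := (Z : Set V)) (β := fun _ => 2)
      (fun _ _ => by norm_num) fun g => mem_Hb hbZ) (lat_Tb D p (Z : Set V) fun _ => 2) h0 ?_ hne'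
    hdec.not.incF
  · have h1 : pr (Hb D p (ZC D Z x Rad) fun v => 2 - gam Z v) (fun g => ¬ E' g) ≤
      pr (Hb D p (Z : Set V) fun _ => 2) (fun g => ¬ E' g) := key
    rw [pr_not hne', pr_not hne] at h1
    linarith
  · intro g
    rw [mem_Hb hbC, mem_Hb hbZ]
    constructor
    · rintro ⟨h1, h2⟩
      refine ⟨⟨h1, fun v hv => ?_⟩, fun v hv hvR hvZ => ?_⟩
      · rw [h2 v (Or.inl hv), gam_in (by exact_mod_cast hv)]
        norm_num
      · rw [h2 v (Or.inr ⟨hv, hvR⟩), gam_out hvZ]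
        norm_num
    · rintro ⟨⟨h1, h2⟩, h3⟩
      refine ⟨h1, fun v hv => ?_⟩
      by_cases hvZ : v ∈ Z
      · rw [h2 v hvZ, gam_in hvZ]
        norm_num
      · rcases hv with hv | hv
        · exact absurd hv hvZ
        · rw [h3 v hv.1 hv.2 hvZ, gam_out hvZ]
          norm_num

/-- (S') -/
theorem pr_cross {c : ℝ} {K n0 : ℤ} (hLP : LP c K n0) (hc1 : c ≤ 2) (hb : bdry D ⊆ Z) (hZD : Z ⊆ D)
    (hZ : ∀ v ∈ Z, Even (par v + p)) {R R' n : ℕ → ℤ} (hr : Radii R R')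
    (hp : ∀ i, Even (R i + par x + p)) (hp' : ∀ i, Even (R' i + par x + p))
    (hn : ∀ i, n0 ≤ n i) (hR : ∀ i, 1 ≤ R i) (hRn : ∀ i, R i ≤ n i - 1)
    (hR' : ∀ i, 2 * (K * n i) + 1 ≤ R' i) (m : ℕ) :
    pr (Zs D p Z) (fun h => ∀ i < m, Crs x (R i) (R' i) {w | w ∈ D ∧ |h w - 2| ≤ 1}) ≤
      (1 - c / 2) ^ m := by
  have hRad : ∀ r ∈ RadS R R', Even (r + par x + p) := by
    rintro r ⟨i, rfl | rfl⟩
    · exact hp i
    · exact hp' i
  exact (pr_decouple hb hZD hZ hRad R R' m).trans (pr_prod hb hZD hZ hr hRad (by linarith)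
    (fun i => pr_one hLP hZ (hn i) (hR i) (hRn i) (hR' i) (hr.lt i) (hp i) (hp' i)) m)

end DV
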