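import Pool.Agent.Helper97.DV.Tl
import Pool.Agent.Helper97.DV.Pz
import Pool.Agent.Helper86.LG.Mk3
import Pool.Agent.Helper63.RP4.E3

/-!
# Project DV (MP_973bc8_pr): decay of the covariance near the boundary

`KO D`: even domains such that the outside together with the boundary is king connected.
-/

open Finset RP4

namespace DV

/-- even domains with king connected outside (boundary included) -/
structure KO (D : Finset V) : Prop where
  par : BdryPar D 0
  con : ∀ z ∈ OO D (bdry D), ∀ z' ∈ OO D (bdry D), KCon (OO D (bdry D)) z z'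

lemma ko_of_SC {D : Finset V} (hD : LG.SC D) : KO D := by
  refine ⟨hD.par, ?_⟩
  have hsub : (D : Set V)ᶜ ⊆ OO D (bdry D) := fun v hv => Or.inl (fun h => hv h)
  have key : ∀ z ∈ OO D (bdry D), ∃ o ∈ (D : Set V)ᶜ, KCon (OO D (bdry D)) z o := by
    intro z hz
    by_cases hzD : z ∈ D
    · rcases id hz with h1 | h1
      · exact absurd hzD h1
      · obtain ⟨_, u, hu, hu'⟩ := mem_bdry.1 h1
        have hu2 : u ∈ (D : Set V)ᶜ := fun h => hu' h
        exact ⟨u, hu2, Jn.single (adj_kng (adj_symm hu)) hz (hsub hu2)⟩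
    · have hz2 : z ∈ (D : Set V)ᶜ := fun h => hzD h
      exact ⟨z, hz2, Jn.refl hz⟩
  intro z hz z' hz'
  obtain ⟨o, ho, h1⟩ := key z hz
  obtain ⟨o', ho', h2⟩ := key z' hz'
  exact (h1.trans ((hD.con o ho o' ho').mono (fun _ _ => adj_kng) hsub)).trans (KCon.symm' h2)

/-- the boundary cluster contains the neighbours of the boundary -/
lemma nbr_bdry_Cb {D : Finset V} {h : V → ℤ} (hh : h ∈ Om D) {b w : V} (hb : b ∈ bdry D)
    (hbw : Adj b w) (hw : w ∈ D) : w ∈ LG.Cb D h := by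
  have h1 := LG.bdry_sub_Cb hh hb
  refine clus_step h1 hbw ⟨hw, ?_⟩
  have h2 := (mem_Om.1 hh).1.step b (bdry_subset D hb) w hw hbw
  rw [(mem_Om.1 hh).2 b hb, zero_sub, abs_neg] at h2
  exact h2.le

lemma KO.wc {D : Finset V} (hD : KO D) : LG.WC D := by
  refine ⟨hD.par, fun h hh => ?_⟩
  obtain ⟨X, hX⟩ : ∃ X : Set V, X = ((D : Set V) \ LG.Cb D h)ᶜ := ⟨_, rfl⟩
  rw [← hX]
  have mX : ∀ v, v ∈ X ↔ v ∉ D ∨ v ∈ LG.Cb D h := by
    intro v
    rw [hX, Set.mem_compl_iff, Set.mem_sdiff, not_and_or, not_not]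
    rfl
  have hOX : ∀ v ∈ OO D (bdry D), v ∈ X := by
    intro v hv
    rw [mX]
    rcases hv with hv | hv
    · exact Or.inl hv
    · exact Or.inr (LG.bdry_sub_Cb hh hv)
  -- king steps in `OO` are paths in `X`
  have step : ∀ a b, Kng a b → a ∈ OO D (bdry D) → b ∈ OO D (bdry D) → Con X a b := by
    intro a b hab ha hb
    rcases kng_cases hab with h1 | h1 | ⟨⟨h1, h2⟩, _⟩
    · rw [h1]
      exact Jn.refl (hOX b hb)
    · exact Jn.single h1 (hOX a ha) (hOX b hb)
    · have hc : ((b.1, a.2) : V) ∈ X := by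
        rw [mX]
        by_cases hcD : ((b.1, a.2) : V) ∈ D
        · right
          rcases ha with ha | ha
          · exact LG.bdry_sub_Cb hh (mem_bdry.2 ⟨hcD, a, h1, ha⟩)
          · exact nbr_bdry_Cb hh ha h1 hcD
        · exact Or.inl hcD
      exact (Jn.single h1 (hOX a ha) hc).step h2 (hOX b hb)
  have hOO : ∀ z ∈ OO D (bdry D), ∀ z' ∈ OO D (bdry D), Con X z z' := by
    intro z hz z' hz'
    obtain ⟨_, h1⟩ := hD.con z hz z' hz'
    clear hz'
    induction h1 with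
    | refl => exact Jn.refl (hOX z hz)
    | @tail b c hb hc ih => exact ih.trans (step b c hc.1 hc.2.1 hc.2.2)
  have key : ∀ v ∈ X, ∃ o ∈ OO D (bdry D), Con X v o := by
    intro v hv
    rcases (mX v).1 hv with h1 | h1
    · exact ⟨v, Or.inl h1, Jn.refl hv⟩
    · obtain ⟨u, hu, h2⟩ := id h1
      refine ⟨u, Or.inr hu, Con.symm' ((clus_con (LG.bdry_sub_Cb hh hu) h2).mono (fun _ _ h => h) ?_)⟩
      intro w hw
      exact (mX w).2 (Or.inr hw)
  intro u hu v hv
  obtain ⟨o, ho, h1⟩ := key u hu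
  obtain ⟨o', ho', h2⟩ := key v hv
  exact h1.trans ((hOO o ho o' ho').trans (Con.symm' h2))

/-- (T1) for the weak class -/
theorem ex_cross_w {D : Finset V} (hD : LG.WC D) {h : V → ℤ} (hh : h ∈ Om D) {x z : V} {r M : ℤ}
    (hr : 0 ≤ r) (hz : z ∈ Sq x r) (hzO : z ∈ OO D (bdry D)) (hx : x ∈ LG.Ex D h x)
    (hM : ¬ (LG.Ex D h x : Set V) ⊆ Sq x M) : CrE D x r M h := by
  obtain ⟨y, hy, hyM⟩ := Set.not_subset.1 hM
  have hB := Bd_coe (LG.Ex D h x)
  have hpar : ∀ u ∈ Bd (LG.Ex D h x : Set V), ∀ v ∈ Bd (LG.Ex D h x : Set V), ¬ Adj u v := by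
    refine not_adj_of_par (q := 0) fun b hb => ?_
    rw [hB] at hb
    exact LG.Ex_par hh b hb
  have hc := LG.Ex_compl_cnn_w (x := x) hD.con hh
  have hzE : z ∉ (LG.Ex D h x : Set V) := by
    intro h1
    rcases hzO with h2 | h2
    · exact h2 (LG.Ex_sub h1)
    · exact LG.Ex_not_Cb h1 (LG.bdry_sub_Cb hh h2)
  obtain ⟨u, u', hu, hu', huu⟩ := bd_arm (U := (LG.Ex D h x : Set V)) (bdd_coe _) hpar
    (by rw [LG.coe_Ex]; exact comp_cnn _ _)
    (fun z hz z' hz' => (hc z hz z' hz').mono (fun _ _ => adj_kng) (fun _ h => h)) hr hx hz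
    hzE hy hyM
  have hs := LG.sg_or (LG.Ex D h x) h
  have hval : ∀ b ∈ Bd (LG.Ex D h x : Set V), h b = 2 * LG.sg (LG.Ex D h x) h := by
    intro b hb
    rw [hB] at hb
    exact LG.sg_spec_w hD.con hh hb
  refine CrE_of hs hu hu' (con_of_xcon huu ?_ ?_)
  · intro b hb
    refine ⟨LG.Ex_sub hb.1, ?_⟩
    rw [hval b hb, sub_self]
    norm_num
  · intro b hb w hbw
    have hbE : b ∈ LG.Ex D h x := hb.1
    have hwD : w ∈ D := by
      by_contra hwD
      exact LG.Ex_not_Cb hbE (LG.bdry_sub_Cb hh (mem_bdry.2 ⟨LG.Ex_sub hbE, w, adj_symm hbw, hwD⟩))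
    refine ⟨hwD, ?_⟩
    have h1 := (mem_Om.1 hh).1.step w hwD b (LG.Ex_sub hbE) (adj_symm hbw)
    rw [hval b hb] at h1
    exact h1.le

/-- contribution of the pairs in different components, exact form -/
lemma cross_eq {D : Finset V} {x y : V} (hD : LG.WC D) :
    ∑ h ∈ Om D, LG.ind (y ∉ LG.Ex D h x) * ((h x : ℝ) * h y) =
      ∑ h ∈ Om D, LG.ind (y ∉ LG.Ex D h x) * (LG.mu1 D x h * LG.mu1 D y h) := by
  classical
  have s1 : ∑ h ∈ Om D, LG.ind (y ∉ LG.Ex D h x) * ((h x : ℝ) * h y) =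
      ∑ h ∈ Om D, (LG.ind (y ∉ LG.Ex D h x) * (h y : ℝ)) * LG.mu1 D x h := by
    rw [← LG.resample_w hD x (fun h => LG.ind (y ∉ LG.Ex D h x) * (h y : ℝ))]
    · exact sum_congr rfl fun h _ => by ring
    · intro h hh hxE g hg
      rw [LG.Ex_gl_w hD.con hh hg x]
      by_cases hyE : y ∈ LG.Ex D h x
      · rw [LG.ind_false (not_not.2 hyE), zero_mul, zero_mul]
      · rw [LG.gl_out hyE]
  have s2 : ∑ h ∈ Om D, (LG.ind (y ∉ LG.Ex D h x) * (h y : ℝ)) * LG.mu1 D x h =
      ∑ h ∈ Om D, (LG.ind (y ∉ LG.Ex D h x) * LG.mu1 D x h) * LG.mu1 D y h := by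
    rw [← LG.resample_w hD y (fun h => LG.ind (y ∉ LG.Ex D h x) * LG.mu1 D x h)]
    · exact sum_congr rfl fun h _ => by ring
    · intro h hh hyE g hg
      rw [LG.Ex_gl_w hD.con hh hg x]
      by_cases hyx : y ∈ LG.Ex D h x
      · rw [LG.ind_false (not_not.2 hyx), zero_mul, zero_mul]
      · congr 1
        have hdis : ∀ v ∈ LG.Ex D h x, v ∉ LG.Ex D h y := by
          intro v hv hv'
          have e1 := LG.Ex_eq_of_mem hv
          have e2 := LG.Ex_eq_of_mem hv'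
          apply hyx
          rw [← e1, e2]
          exact hyE
        by_cases hxE : x ∈ LG.Ex D h x
        · rw [LG.mu1_in hxE, LG.mu1_in (by rw [LG.Ex_gl_w hD.con hh hg x]; exact hxE),
            LG.Ex_gl_w hD.con hh hg x,
            LG.sg_gl_w hD.con hh hg fun v hv => Or.inr (hdis v (bdry_subset _ hv))]
        · rw [LG.mu1_out hxE, LG.mu1_out (by rw [LG.Ex_gl_w hD.con hh hg x]; exact hxE), LG.gl_out]
          intro hx'
          have e1 := LG.Ex_eq_of_mem hx'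
          apply hxE
          rw [e1]
          exact hx'
  rw [s1, s2]
  exact sum_congr rfl fun h _ => by ring

end DV
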