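import Pool.Agent.Helper97.DV.Tm
import Pool.Agent.Helper35.MD.Defs

/-!
# Project DV (MP_973bc8_pr): decay of the covariance near the boundary, conclusion
-/

open Finset RP4

namespace DV

lemma Cb_flA (D : Finset V) (A : Set V) (h : V → ℤ) : LG.Cb D (flA A h) = LG.Cb D h := by
  have h1 : LG.lw D (flA A h) = LG.lw D h := by
    ext v
    unfold LG.lw
    rw [Set.mem_ofPred_eq, Set.mem_ofPred_eq, abs_flA]
  unfold LG.Cb
  rw [h1]

lemma Ex_flA (D : Finset V) (A : Set V) (h : V → ℤ) (y : V) :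
    LG.Ex D (flA A h) y = LG.Ex D h y := by
  ext v
  rw [LG.mem_Ex, LG.mem_Ex, Cb_flA]

lemma flA_Om {D : Finset V} {h : V → ℤ} (hh : h ∈ Om D) (A : Set V) : flA A h ∈ Om D :=
  flA_mem (sgnInv_Zs D 0 (bdry D)) A hh

lemma mu1_near {D : Finset V} (hD : LG.WC D) {h : V → ℤ} (hh : h ∈ Om D) {x z : V} {r : ℤ}
    (hr : 0 ≤ r) (hz : z ∈ Sq x r) (hzO : z ∈ OO D (bdry D)) :
    LG.mu1 D x (flA (Sq x r) h) = -LG.mu1 D x h := by
  have hh' := flA_Om hh (Sq x r)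
  by_cases hx : x ∈ LG.Ex D h x
  · have hx' : x ∈ LG.Ex D (flA (Sq x r) h) x := by
      rw [Ex_flA]
      exact hx
    have hzE : z ∉ (LG.Ex D h x : Set V) := by
      intro h1
      rcases hzO with h2 | h2
      · exact h2 (LG.Ex_sub h1)
      · exact LG.Ex_not_Cb h1 (LG.bdry_sub_Cb hh h2)
    obtain ⟨b, hb, hbr⟩ := exists_bd_in (U := (LG.Ex D h x : Set V)) hx hr hz hzE
    rw [Bd_coe] at hb
    have e1 := LG.sg_spec_w hD.con hh (x := x) hb
    have e2 := LG.sg_spec_w hD.con hh' (x := x) (v := b) (by rw [Ex_flA]; exact hb)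
    rw [flA_on hbr, Ex_flA] at e2
    rw [LG.mu1_in hx, LG.mu1_in hx', Ex_flA]
    have e3 : LG.sg (LG.Ex D h x) (flA (Sq x r) h) = -LG.sg (LG.Ex D h x) h := by omega
    rw [e3]
    push_cast
    ring
  · have hx' : x ∉ LG.Ex D (flA (Sq x r) h) x := by
      rw [Ex_flA]
      exact hx
    rw [LG.mu1_out hx, LG.mu1_out hx', flA_on]
    · push_cast
      ring
    · exact ⟨by simpa using hr, by simpa using hr⟩

lemma mu1_far {D : Finset V} (hD : LG.WC D) {h : V → ℤ} (hh : h ∈ Om D) {x y : V} {r M : ℤ}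
    (hy : y ∉ Sq x M) (hT : ¬ JnNz (Sq x r) (Sq x M)ᶜ h) :
    LG.mu1 D y (flA (Sq x r) h) = LG.mu1 D y h := by
  have hh' := flA_Om hh (Sq x r)
  by_cases hyE : y ∈ LG.Ex D h y
  · have hyE' : y ∈ LG.Ex D (flA (Sq x r) h) y := by
      rw [Ex_flA]
      exact hyE
    obtain ⟨b, hb, hbM⟩ := exists_bd_out (U := (LG.Ex D h y : Set V)) (bdd_coe _) (x := x)
      (m := M) hyE hy
    rw [Bd_coe] at hb
    have e1 := LG.sg_spec_w hD.con hh (x := y) hb
    have e2 := LG.sg_spec_w hD.con hh' (x := y) (v := b) (by rw [Ex_flA]; exact hb)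
    rw [flA_off hT (v := b) (fun h1 => hbM h1), Ex_flA] at e2
    rw [LG.mu1_in hyE, LG.mu1_in hyE', Ex_flA]
    have e3 : LG.sg (LG.Ex D h y) (flA (Sq x r) h) = LG.sg (LG.Ex D h y) h := by omega
    rw [e3]
  · have hyE' : y ∉ LG.Ex D (flA (Sq x r) h) y := by
      rw [Ex_flA]
      exact hyE
    rw [LG.mu1_out hyE, LG.mu1_out hyE', flA_off hT (v := y) (fun h1 => hy h1)]

/-- only the configurations with a nonzero path contribute -/
theorem cross_le_T {D : Finset V} (hD : LG.WC D) {x y z : V} {r M : ℤ} (hx : x ∈ D) (hyD : y ∈ D)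
    (hr : 0 ≤ r) (hz : z ∈ Sq x r) (hzO : z ∈ OO D (bdry D)) (hy : y ∉ Sq x M) :
    ∑ h ∈ Om D, LG.ind (y ∉ LG.Ex D h x) * ((h x : ℝ) * h y) ≤
      4 * ∑ h ∈ Om D, LG.ind (JnNz (Sq x r) (Sq x M)ᶜ h) := by
  classical
  rw [cross_eq hD]
  obtain ⟨Φ, hΦ⟩ : ∃ Φ : (V → ℤ) → ℝ, Φ = fun h => LG.ind (¬ JnNz (Sq x r) (Sq x M)ᶜ h) *
    (LG.ind (y ∉ LG.Ex D h x) * (LG.mu1 D x h * LG.mu1 D y h)) := ⟨_, rfl⟩
  have h1 : ∑ h ∈ Om D, Φ h = 0 := by
    have h2 : ∑ h ∈ Om D, Φ (flA (Sq x r) h) = ∑ h ∈ Om D, Φ h :=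
      sum_flA (sgnInv_Zs D 0 (bdry D)) (Sq x r) Φ
    have h3 : ∑ h ∈ Om D, Φ (flA (Sq x r) h) = -∑ h ∈ Om D, Φ h := by
      rw [← sum_neg_distrib]
      refine sum_congr rfl fun h hh => ?_
      rw [hΦ]
      simp only
      rw [Ex_flA]
      have h4 : JnNz (Sq x r) (Sq x M)ᶜ (flA (Sq x r) h) ↔ JnNz (Sq x r) (Sq x M)ᶜ h := jnNz_flA
      by_cases hT : JnNz (Sq x r) (Sq x M)ᶜ h
      · rw [LG.ind_false (not_not.2 (h4.2 hT)), LG.ind_false (not_not.2 hT)]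
        ring
      · rw [mu1_near hD hh hr hz hzO, mu1_far hD hh hy hT, LG.ind_true (fun h5 => hT (h4.1 h5)),
          LG.ind_true hT]
        ring
    linarith
  have h2 : ∑ h ∈ Om D, LG.ind (y ∉ LG.Ex D h x) * (LG.mu1 D x h * LG.mu1 D y h) =
      ∑ h ∈ Om D, Φ h + ∑ h ∈ Om D, LG.ind (JnNz (Sq x r) (Sq x M)ᶜ h) *
        (LG.ind (y ∉ LG.Ex D h x) * (LG.mu1 D x h * LG.mu1 D y h)) := by
    rw [← sum_add_distrib]
    refine sum_congr rfl fun h _ => ?_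
    rw [hΦ]
    simp only
    by_cases hT : JnNz (Sq x r) (Sq x M)ᶜ h
    · rw [LG.ind_false (not_not.2 hT), LG.ind_true hT]
      ring
    · rw [LG.ind_true hT, LG.ind_false hT]
      ring
  rw [h2, h1, zero_add, mul_sum]
  refine sum_le_sum fun h _ => ?_
  have h3 : LG.mu1 D x h * LG.mu1 D y h ≤ 4 := by
    have h4 := LG.abs_mu1 (h := h) hx
    have h5 := LG.abs_mu1 (h := h) hyD
    calc LG.mu1 D x h * LG.mu1 D y h ≤ |LG.mu1 D x h * LG.mu1 D y h| := le_abs_self _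
      _ = |LG.mu1 D x h| * |LG.mu1 D y h| := abs_mul _ _
      _ ≤ 2 * 2 := mul_le_mul h4 h5 (abs_nonneg _) (by norm_num)
      _ = 4 := by norm_num
  have h4 := LG.ind_nonneg (JnNz (Sq x r) (Sq x M)ᶜ h)
  have h5 := LG.ind_nonneg (y ∉ LG.Ex D h x)
  have h6 := LG.ind_le_one (y ∉ LG.Ex D h x)
  have h7 : LG.ind (y ∉ LG.Ex D h x) * (LG.mu1 D x h * LG.mu1 D y h) ≤ 4 := by nlinarith
  nlinarith

open Classical in
/-- recursion for the covariance with the probability of a nonzero path -/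
theorem cov_rec_T {D : Finset V} (hD : LG.WC D) {x y z : V} {r M : ℤ} (hx : x ∈ D) (hyD : y ∈ D)
    (hr : 0 ≤ r) (hz : z ∈ Sq x r) (hzO : z ∈ OO D (bdry D)) (hy : y ∉ Sq x M) :
    avg (Om D) (fun h => (h x : ℝ) * h y) ≤
      4 * avg (Om D) (fun h => LG.ind (JnNz (Sq x r) (Sq x M)ᶜ h)) +
      4 * ∑ E ∈ D.powerset.filter (fun E => y ∈ E), LG.pE D x E +
      ∑ E ∈ D.powerset.filter (fun E => y ∈ E),
        LG.pE D x E * avg (Om E) (fun g => (g x : ℝ) * g y) := by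
  have hne := Om_nonempty hD.par
  have hN : (0 : ℝ) < (Om D).card := by exact_mod_cast hne.card_pos
  have h1 := LG.sum_fiber' D x y (fun h => (h x : ℝ) * h y)
  have h3 := cross_le_T hD hx hyD hr hz hzO hy
  have h4 : ∑ E ∈ D.powerset.filter (fun E => y ∈ E), ∑ h ∈ LG.OmE D x E, ((h x : ℝ) * h y) =
      4 * ∑ E ∈ D.powerset.filter (fun E => y ∈ E), ((LG.OmE D x E).card : ℝ) +
      ∑ E ∈ D.powerset.filter (fun E => y ∈ E), ((LG.OmE D x E).card : ℝ) *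
        avg (Om E) (fun g => (g x : ℝ) * g y) := by
    rw [mul_sum, ← sum_add_distrib]
    refine sum_congr rfl fun E hE => ?_
    by_cases h0 : (LG.OmE D x E) = ∅
    · rw [h0]
      simp
    · obtain ⟨h, hh⟩ := Finset.nonempty_iff_ne_empty.2 h0
      obtain ⟨_, h5, h6⟩ := LG.mem_OmE.1 hh
      have hxE : x ∈ E := by
        rw [← h6]
        exact h5
      rw [LG.sum_OmE_mul_w hD hxE (mem_filter.1 hE).2]
      ring
  have h5 : ∑ E ∈ D.powerset.filter (fun E => y ∈ E),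
      LG.pE D x E * avg (Om E) (fun g => (g x : ℝ) * g y) =
      (∑ E ∈ D.powerset.filter (fun E => y ∈ E), ((LG.OmE D x E).card : ℝ) *
        avg (Om E) (fun g => (g x : ℝ) * g y)) / (Om D).card := by
    rw [sum_div]
    refine sum_congr rfl fun E _ => ?_
    unfold LG.pE
    ring
  have h6 : ∑ E ∈ D.powerset.filter (fun E => y ∈ E), LG.pE D x E =
      (∑ E ∈ D.powerset.filter (fun E => y ∈ E), ((LG.OmE D x E).card : ℝ)) / (Om D).card := by
    rw [sum_div]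
    rfl
  have h7 : avg (Om D) (fun h => LG.ind (JnNz (Sq x r) (Sq x M)ᶜ h)) =
      (∑ h ∈ Om D, LG.ind (JnNz (Sq x r) (Sq x M)ᶜ h)) / (Om D).card := rfl
  rw [h5, h6, h7]
  show (∑ h ∈ Om D, ((h x : ℝ) * h y)) / (Om D).card ≤ _
  rw [h1, h4, div_le_iff₀ hN]
  have e1 : (4 * ((∑ h ∈ Om D, LG.ind (JnNz (Sq x r) (Sq x M)ᶜ h)) / (Om D).card) +
      4 * ((∑ E ∈ D.powerset.filter (fun E => y ∈ E), ((LG.OmE D x E).card : ℝ)) / (Om D).card) +
      (∑ E ∈ D.powerset.filter (fun E => y ∈ E), ((LG.OmE D x E).card : ℝ) *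
        avg (Om E) (fun g => (g x : ℝ) * g y)) / (Om D).card) * (Om D).card =
      4 * (∑ h ∈ Om D, LG.ind (JnNz (Sq x r) (Sq x M)ᶜ h)) +
      4 * (∑ E ∈ D.powerset.filter (fun E => y ∈ E), ((LG.OmE D x E).card : ℝ)) +
      ∑ E ∈ D.powerset.filter (fun E => y ∈ E), ((LG.OmE D x E).card : ℝ) *
        avg (Om E) (fun g => (g x : ℝ) * g y) := by
    field_simp
  rw [e1]
  linarith

/-- decay of the covariance near the boundary -/
theorem cov_decay {c : ℝ} {K n0 : ℤ} (hLP : LP c K n0) (hc1 : c ≤ 2) {D : Finset V} (hD : KO D)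
    {x y z : V} (m : ℕ) {r M : ℤ} (hx : x ∈ D) (hyD : y ∈ D) (hr : 1 ≤ r) (hz : z ∈ Sq x r)
    (hzO : z ∈ OO D (bdry D)) (hy : y ∉ Sq x M)
    (hM : (|n0| + 5) * (2 * |K| + 6) ^ m * r ≤ M) (hm : 2 * (1 - c / 2) ^ m ≤ 1 / 2) :
    MD.cv D x y ≤ 32 * (1 - c / 2) ^ m := by
  classical
  have hW := hD.wc
  have h1 := cov_rec_T hW hx hyD (by omega) hz hzO hy
  have h2 : avg (Om D) (fun h => LG.ind (JnNz (Sq x r) (Sq x M)ᶜ h)) ≤ 2 * (1 - c / 2) ^ m := by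
    rw [pr_ind]
    refine le_trans (pr_mono fun h _ h3 => ?_) (pr_nz (D := D) (Z := bdry D) (p := 0) hLP hc1 le_rfl
      (bdry_subset D) (fun v hv => by simpa using hD.par v hv) hD.con m hr hz hzO hM)
    exact h3
  have h3 : ∑ E ∈ D.powerset.filter (fun E => y ∈ E), LG.pE D x E ≤ 2 * (1 - c / 2) ^ m := by
    rw [LG.sum_pE D x (fun E => y ∈ E), pr_ind]
    refine (pr_mono fun h hh h4 => ?_).trans (pr_CrE hLP hc1 hD.par x m hr hM)
    exact ex_cross_w hW hh (by omega) hz hzO h4.1 fun h5 => hy (h5 h4.2)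
  have h4 : ∑ E ∈ D.powerset.filter (fun E => y ∈ E),
      LG.pE D x E * avg (Om E) (fun g => (g x : ℝ) * g y) ≤
      (∑ E ∈ D.powerset.filter (fun E => y ∈ E), LG.pE D x E) *
        avg (Om D) (fun h => (h x : ℝ) * h y) := by
    rw [sum_mul]
    refine sum_le_sum fun E hE => ?_
    by_cases h0 : (LG.OmE D x E) = ∅
    · unfold LG.pE
      rw [h0]
      simp
    · obtain ⟨h, hh⟩ := Finset.nonempty_iff_ne_empty.2 h0
      obtain ⟨h4, h5, h6⟩ := LG.mem_OmE.1 hh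
      have hE1 : LG.SC E := by
        rw [← h6]
        exact LG.Ex_SC_w hW.con h4
      rw [mem_filter, mem_powerset] at hE
      exact mul_le_mul_of_nonneg_left (cov_mono E D hE.1 hE1.par hD.par x y (by rw [← h6]; exact h5)
        hE.2) (LG.pE_nonneg D x E)
  show avg (Om D) (fun h => (h x : ℝ) * h y) ≤ _
  rcases le_total (avg (Om D) (fun h => (h x : ℝ) * h y)) 0 with h5 | h5
  · refine h5.trans (mul_nonneg (by norm_num) (pow_nonneg (by linarith) m))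
  · have h6 := mul_le_mul_of_nonneg_right (h3.trans hm) h5
    linarith

/-- (T1) for the weak class -/
theorem pr_ex_w {c : ℝ} {K n0 : ℤ} (hLP : LP c K n0) (hc1 : c ≤ 2) {D : Finset V}
    (hD : LG.WC D) {x z : V} (m : ℕ) {r M : ℤ} (hr : 1 ≤ r) (hz : z ∈ Sq x r)
    (hzO : z ∈ OO D (bdry D)) (hM : (|n0| + 5) * (2 * |K| + 6) ^ m * r ≤ M) :
    pr (Om D) (fun h => x ∈ LG.Ex D h x ∧ ¬ (LG.Ex D h x : Set V) ⊆ Sq x M) ≤
      2 * (1 - c / 2) ^ m :=
  (pr_mono fun _ hh h1 => ex_cross_w hD hh (by omega) hz hzO h1.1 h1.2).trans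
    (pr_CrE hLP hc1 hD.par x m hr hM)

/-- the covariance of a site near the boundary and a far site is small -/
theorem cov_small {c : ℝ} {K n0 : ℤ} (hLP : LP c K n0) (hc : 0 < c) (hc1 : c ≤ 2) {ε : ℝ}
    (hε : 0 < ε) : ∃ Q : ℤ, 1 ≤ Q ∧ ∀ D : Finset V, KO D → ∀ x ∈ D, ∀ y ∈ D, ∀ z : V,
      ∀ r M : ℤ, 1 ≤ r → z ∈ Sq x r → z ∈ OO D (bdry D) → y ∉ Sq x M → Q * r ≤ M →
      MD.cv D x y ≤ ε := by
  obtain ⟨m, hm⟩ := exists_pow_small hc hc1 (ε := min (1 / 2) (ε / 16)) (by positivity)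
  have hm1 := hm.trans (min_le_left _ _)
  have hm2 := hm.trans (min_le_right _ _)
  refine ⟨(|n0| + 5) * (2 * |K| + 6) ^ m, ?_, ?_⟩
  · have h1 : (0 : ℤ) < (|n0| + 5) * (2 * |K| + 6) ^ m := by positivity
    omega
  · intro D hD x hx y hy z r M hr hz hzO hyM hM
    refine (cov_decay hLP hc1 hD m hx hy hr hz hzO hyM hM hm1).trans ?_
    linarith

end DV
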