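import Pool.Agent.Helper97.DV.Tn

/-!
# Project DV (MP_973bc8_pr): (T2) next to a king connected wall

`D`, `Z` any zero environment; a king path of outside sites and zeros joins the square of radius `r` to
the outside of the square of radius `M`.  Then a path of `h ≠ 0` from the small square to the outside of
the large one makes a crossing of `|h - 2| ≤ 1` or `|h + 2| ≤ 1`.
-/

open Finset RP4

namespace DV

/-- positive paths next to a wall -/
theorem pos_cross2 {D Z : Finset V} {p : ℤ} {h : V → ℤ} (hb : bdry D ⊆ Z) (hh : IsHom D p h)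
    (h0 : ∀ v ∈ Z, h v = 0) {x z z' : V} {r M : ℤ} (hz : z ∈ Sq x r) (hz' : z' ∉ Sq x M)
    (hzz : KCon (OO D Z) z z') {u v : V} (hu : u ∈ Sq x r) (hv : v ∉ Sq x M)
    (huv : Con {w | 1 ≤ h w} u v) :
    ∃ u' v', u' ∈ Sq x r ∧ v' ∉ Sq x M ∧ Con {w | w ∈ D ∧ |h w - 2| ≤ 1} u' v' := by
  obtain ⟨A, hA⟩ : ∃ A : Set V, ∀ w, w ∈ A ↔ h w ≤ 0 := ⟨{w | h w ≤ 0}, fun w => Iff.rfl⟩
  have hOA : ∀ w ∈ OO D Z, w ∈ A := by
    intro w hw
    rw [hA]
    rcases hw with hw | hw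
    · rw [hh.off w hw]
    · rw [h0 w hw]
  have hzA : z ∈ A := hOA z hzz.left
  obtain ⟨S, hS⟩ : ∃ S : Set V, ∀ w, w ∈ S ↔ KCon A z w := ⟨{w | KCon A z w}, fun w => Iff.rfl⟩
  have hzS : z ∈ S := (hS z).2 (Jn.refl hzA)
  have hzS' : z' ∈ S := (hS z').2 (hzz.mono (fun _ _ h => h) hOA)
  have hSA : ∀ w ∈ S, w ∈ A := fun w hw => ((hS w).1 hw).right
  have hSstep : ∀ a b, Kng a b → a ∈ S → b ∈ A → b ∈ S := fun a b hab ha hbA =>
    (hS b).2 (((hS a).1 ha).step hab hbA)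
  have hSz : ∀ a ∈ S, KCon S z a := fun a ha =>
    (Jn.restrict (P := fun w => w ∈ S) ((hS a).1 ha) hzS
      fun a b hab _ hbA haS => hSstep a b hab haS hbA).mono (fun _ _ h => h) fun w hw => hw.2
  -- the component of the path
  obtain ⟨W, hW⟩ : ∃ W : Set V, W = comp Sᶜ u := ⟨_, rfl⟩
  have hPS : {w | 1 ≤ h w} ⊆ Sᶜ := by
    intro w hw hwS
    have h1 := (hA w).1 (hSA w hwS)
    have h2 : 1 ≤ h w := hw
    omega
  have huW : u ∈ W := by
    rw [hW]
    exact mem_comp_self (hPS huv.left)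
  have hvW : v ∈ W := by
    rw [hW]
    exact huv.mono (fun _ _ h => h) hPS
  have hWS : ∀ w ∈ W, w ∉ S := by
    intro w hw
    rw [hW] at hw
    exact comp_sub _ _ hw
  have hWstep : ∀ a b, Adj a b → a ∈ W → b ∉ S → b ∈ W := by
    intro a b hab ha hbS
    rw [hW] at ha ⊢
    exact comp_step ha hab hbS
  have hWc : Cnn W := by
    rw [hW]
    exact comp_cnn _ _
  have hWcc : ∀ z ∉ W, ∀ z' ∉ W, KCon Wᶜ z z' := by
    rw [hW]
    refine compl_comp_kcnn (fun a ha b hb' => ?_) ⟨z, ?_⟩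
    · rw [compl_compl]
      exact (KCon.symm' (hSz a (not_not.1 ha))).trans (hSz b (not_not.1 hb'))
    · rw [compl_compl]
      exact hzS
  have hpos : ∀ w, 1 ≤ h w → w ∈ D ∧ ∀ s, Adj w s → s ∈ D := by
    intro w hw
    have hwD : w ∈ D := by
      by_contra h1
      rw [hh.off w h1] at hw
      omega
    refine ⟨hwD, fun s hs => ?_⟩
    by_contra hsD
    have h1 := h0 w (hb (mem_bdry.2 ⟨hwD, s, adj_symm hs, hsD⟩))
    omega
  have hlay : ∀ w ∈ klay W, w ∈ D ∧ |h w - 2| ≤ 1 := by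
    rintro w ⟨hw, s, hs, hws⟩
    have pos : ∀ t, t ∈ S → Kng w t → 1 ≤ h w := by
      intro t ht hwt
      by_contra h1
      exact hWS w hw (hSstep t w (kng_symm hwt) ht ((hA w).2 (by omega)))
    have nn : ∀ t, t ∈ S → Adj w t → w ∈ D ∧ |h w - 2| ≤ 1 := by
      intro t ht hwt
      have h1 := pos t ht (adj_kng hwt)
      obtain ⟨h2, h3⟩ := hpos w h1
      have h4 := hh.step w h2 t (h3 t hwt) hwt
      have h5 := (hA t).1 (hSA t ht)
      have h6 := abs_sub_le_iff.1 h4.le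
      refine ⟨h2, ?_⟩
      rw [abs_le]
      omega
    rcases kng_cases hws with h1 | h1 | ⟨⟨h1, h2⟩, _⟩
    · exact absurd hw (h1 ▸ hs)
    · exact nn s (by
        by_contra h2
        exact hs (hWstep w s h1 hw h2)) h1
    · by_cases ha : ((s.1, w.2) : V) ∈ S
      · exact nn _ ha h1
      · have haW := hWstep _ _ h1 hw ha
        by_cases hsS : s ∈ S
        · have h3 := pos s hsS hws
          obtain ⟨h4, h5⟩ := hpos w h3
          have haD := h5 _ h1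
          have h6 := hh.step w h4 _ haD h1
          have h7 := abs_sub_le_iff.1 h6.le
          have h8 := (hA s).1 (hSA s hsS)
          refine ⟨h4, ?_⟩
          by_cases hsD : s ∈ D
          · have h9 := hh.step _ haD s hsD h2
            have h10 := abs_sub_le_iff.1 h9.le
            rw [abs_le]
            omega
          · have h9 := h0 _ (hb (mem_bdry.2 ⟨haD, s, adj_symm h2, hsD⟩))
            rw [abs_le]
            omega
        · exact absurd (hWstep _ _ h2 haW hsS) hs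
  obtain ⟨b, hbB, hbr⟩ := exists_bd_in' huW hu hz (fun h => hWS z h hzS)
  obtain ⟨b', b'', -, h2, h3, h4, -, h6⟩ := (Sq_compl_cnn x M v hv z' hz').exit (A := W) hvW
    (fun h => hWS z' h hzS')
  exact ⟨b, b', hbr, h3, (klay_cnn hWc hWcc b (Bd_sub_klay hbB) b' (Bd_sub_klay ⟨h4, b'', h2, h6⟩)).mono
    (fun _ _ h => h) hlay⟩

/-- nonzero paths next to a wall -/
theorem nz_cross2 {D Z : Finset V} {p : ℤ} {h : V → ℤ} (hb : bdry D ⊆ Z) (hh : IsHom D p h)
    (h0 : ∀ v ∈ Z, h v = 0) {x z z' : V} {r M : ℤ} (hz : z ∈ Sq x r) (hz' : z' ∉ Sq x M)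
    (hzz : KCon (OO D Z) z z') {u v : V} (hu : u ∈ Sq x r) (hv : v ∉ Sq x M)
    (huv : Con {w | h w ≠ 0} u v) : CrE D x r M h := by
  rcases nonzero_sign hh huv with h1 | h1
  · left
    exact pos_cross2 hb hh h0 hz hz' hzz hu hv h1
  · right
    obtain ⟨u', v', h2, h3, h4⟩ := pos_cross2 hb hh.neg (fun v hv => by
      rw [Pi.neg_apply, h0 v hv, neg_zero]) hz hz' hzz hu hv h1
    refine ⟨u', v', h2, h3, h4.mono (fun _ _ h => h) ?_⟩
    rintro w ⟨h5, h6⟩
    refine ⟨h5, ?_⟩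
    have h7 : (-h) w - 2 = -(h w + 2) := by
      rw [Pi.neg_apply]
      ring
    rwa [h7, abs_neg] at h6

/-- (T2) next to a wall, in any zero environment -/
theorem pr_nz2 {c : ℝ} {K n0 : ℤ} (hLP : LP c K n0) (hc1 : c ≤ 2) {D Z : Finset V} {p : ℤ}
    (hb : bdry D ⊆ Z) (hZD : Z ⊆ D) (hZ : ∀ v ∈ Z, Even (par v + p)) {x z z' : V} (m : ℕ)
    {r M : ℤ} (hr : 1 ≤ r) (hz : z ∈ Sq x r) (hz' : z' ∉ Sq x M) (hzz : KCon (OO D Z) z z')
    (hM : (|n0| + 5) * (2 * |K| + 6) ^ m * r ≤ M) :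
    pr (Zs D p Z) (fun h => ∃ u ∈ Sq x r, ∃ v, v ∉ Sq x M ∧ Con {w | h w ≠ 0} u v) ≤
      2 * (1 - c / 2) ^ m := by
  refine (pr_mono fun h hh => ?_).trans (cross_sq_or hLP hc1 hb hZD hZ x m hr hM)
  rintro ⟨u, hu, v, hv, huv⟩
  rw [mem_Zs hb] at hh
  exact nz_cross2 hb hh.1 hh.2 hz hz' hzz hu hv huv

end DV
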